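import Pool.Agent.TH148.HX.Comb
import Pool.Agent.TH597.HX.Stm

/-!
# HX-TAIL0: exponential tail with rate `m` for `∑ |x i - x j|` of `m` exchangeable coordinates
-/

set_option autoImplicit false

namespace Pool.Agent.TH148.HX

open MeasureTheory Set
open scoped ENNReal InnerProductSpace
open Pool.Agent.H212R2.KLS (mu Bdd)
open Pool.Agent.TH610.RB (V)

/-- the tail for one involution -/
theorem one_inv {κ : Type} [Fintype κ] [DecidableEq κ] (S : Finset κ) (ρ : V κ → ℝ)
    (h0 : ∀ x, 0 ≤ ρ x) (hm : Measurable ρ)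
    (hlog : ∀ x y : V κ, ∀ t : ℝ, 0 < t → t < 1 → ρ x ^ (1 - t) * ρ y ^ t ≤
      ρ ((1 - t) • x + t • y))
    (hinv : ∀ k ∈ S, ∀ l ∈ S, ∀ x y : V κ, (∀ i, y i = x (Equiv.swap k l i)) → ρ y = ρ x)
    (hB : Bdd ρ) (h1 : mu ρ univ = 1) (s : ℝ) (hs : 0 < s)
    (hv : ∀ i ∈ S, ∫ x, x i ^ 2 ∂(mu ρ) ≤ s)
    (τ : κ → κ) (hτ : ∀ i, τ (τ i) = i) (hτS : ∀ i, i ∉ S → τ i = i) (l : ℝ) (hl : 1 ≤ l) :
    mu ρ {x | l * (4320 * Real.sqrt s) * S.card < ∑ i ∈ S, |x i - x (τ i)|} ≤
      ENNReal.ofReal (Real.exp (-(6 * l * S.card) + 3 * S.card / 2)) := by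
  obtain ⟨φ, hφ⟩ : ∃ φ : κ → ℕ, Function.Injective φ :=
    ⟨fun i => (Fintype.equivFin κ i : ℕ), fun i j h => by
      have : Fintype.equivFin κ i = Fintype.equivFin κ j := Fin.ext h
      simpa using this⟩
  have hF : ∀ x : V κ, ∑ i ∈ S, |x i - x (τ i)| =
      2 * Real.sqrt 2 * ∑ i : {i // rp φ τ i}, |(x i - x (τ i)) / Real.sqrt 2| := by
    intro x
    have e1 : ∑ i ∈ S, |x i - x (τ i)| = ∑ i, |x i - x (τ i)| := by
      refine Finset.sum_subset (Finset.subset_univ _) fun i _ hi => ?_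
      rw [hτS i hi]
      simp
    rw [e1, sum_rp φ hφ τ hτ (fun i => |x i - x (τ i)|) (fun i hi => by simp [hi])
      (fun i => by
        show |x (τ i) - x (τ (τ i))| = |x i - x (τ i)|
        rw [hτ, abs_sub_comm])]
    have h2 : (0 : ℝ) < Real.sqrt 2 := by positivity
    simp only [abs_div, abs_of_pos h2]
    rw [← Finset.sum_div]
    field_simp
  have hcard := card_rp φ hφ τ hτ S hτS
  set n : ℕ := Fintype.card {i // rp φ τ i} with hn
  have hs2 : 0 < Real.sqrt s := Real.sqrt_pos.2 hs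
  have hm0 : (0 : ℝ) ≤ S.card := Nat.cast_nonneg _
  rcases Nat.eq_zero_or_pos n with h | h
  · have hE : {x : V κ | l * (4320 * Real.sqrt s) * S.card < ∑ i ∈ S, |x i - x (τ i)|} = ∅ := by
      ext x
      simp only [mem_ofPred_eq, mem_empty_iff_false, iff_false, not_lt]
      have : IsEmpty {i // rp φ τ i} := by
        rw [← Fintype.card_eq_zero_iff]
        exact h
      rw [hF, Finset.univ_eq_empty, Finset.sum_empty, mul_zero]
      positivity
    rw [hE, measure_empty]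
    exact zero_le
  · have hn1 : (1 : ℝ) ≤ n := by exact_mod_cast h
    have hmpos : (0 : ℝ) < S.card := by linarith
    obtain ⟨L, hL⟩ : ∃ L : ℝ, L = 2 * l * S.card / n := ⟨_, rfl⟩
    have hLn : L * n = 2 * l * S.card := by
      rw [hL]
      field_simp
    have hL1 : 1 ≤ L := by
      rw [hL, le_div_iff₀ (by linarith)]
      nlinarith
    have ht := inv_tail S ρ h0 hm hlog hinv hB h1 s hs hv τ (rp φ τ) hτ
      (fun i hi => rp_not φ τ hτ i hi) hτS h L hL1
    rw [← hn] at ht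
    have hset : {x : V κ | l * (4320 * Real.sqrt s) * S.card < ∑ i ∈ S, |x i - x (τ i)|} ⊆
        {x | L * (540 * Real.sqrt (2 * s)) * n <
          ∑ i : {i // rp φ τ i}, |(x i - x (τ i)) / Real.sqrt 2|} := by
      intro x hx
      simp only [mem_ofPred_eq] at hx ⊢
      rw [hF] at hx
      have e2 : L * (540 * Real.sqrt (2 * s)) * n =
          1080 * l * S.card * (Real.sqrt 2 * Real.sqrt s) := by
        rw [Real.sqrt_mul (by norm_num)]
        calc L * (540 * (Real.sqrt 2 * Real.sqrt s)) * n =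
            (L * n) * (540 * (Real.sqrt 2 * Real.sqrt s)) := by ring
          _ = _ := by rw [hLn]; ring
      rw [e2]
      have h2 : (0 : ℝ) < Real.sqrt 2 := by positivity
      have h22 : Real.sqrt 2 * Real.sqrt 2 = 2 := Real.mul_self_sqrt (by norm_num)
      have h3 : 2 * Real.sqrt 2 * (1080 * l * S.card * (Real.sqrt 2 * Real.sqrt s)) =
          l * (4320 * Real.sqrt s) * S.card := by
        calc 2 * Real.sqrt 2 * (1080 * l * S.card * (Real.sqrt 2 * Real.sqrt s)) =
            (Real.sqrt 2 * Real.sqrt 2) * (2160 * l * S.card * Real.sqrt s) := by ring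
          _ = _ := by rw [h22]; ring
      rw [← h3] at hx
      exact lt_of_mul_lt_mul_left hx (by positivity)
    refine (measure_mono hset).trans (ht.trans (ENNReal.ofReal_le_ofReal ?_))
    apply Real.exp_le_exp.2
    have e4 : 3 * (n : ℝ) * (L - 1) = 3 * (L * n) - 3 * n := by ring
    rw [e4, hLn]
    linarith

theorem tail0 : Pool.Agent.TH597.HX.S_TAIL0 := by
  refine ⟨4320, by norm_num, ?_⟩
  intro κ _ _ S ρ h0 hm hlog hinv hB h1 s hs hv l hl
  rcases Nat.eq_zero_or_pos S.card with hS | hS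
  · have hle : mu ρ {x : V κ | l * (4320 * Real.sqrt s) * (S.card : ℝ) ^ 2 <
        ∑ i ∈ S, ∑ j ∈ S, |x i - x j|} ≤ 1 := by
      rw [← h1]
      exact measure_mono (subset_univ _)
    refine hle.trans ?_
    rw [hS]
    simp
  obtain ⟨k, hk⟩ : ∃ k, S.card = k + 1 := ⟨S.card - 1, by omega⟩
  obtain ⟨e⟩ : Nonempty ({x // x ∈ S} ≃ ZMod (k + 1)) :=
    ⟨(S.equivFinOfCardEq hk).trans (Equiv.refl (Fin (k + 1)))⟩
  have hs2 : 0 < Real.sqrt s := Real.sqrt_pos.2 hs
  have hmR : (0 : ℝ) < S.card := by exact_mod_cast hS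
  have hcZ : (Finset.univ : Finset (ZMod (k + 1))).card = S.card := by
    rw [Finset.card_univ, ZMod.card, hk]
  have hsub : {x : V κ | l * (4320 * Real.sqrt s) * (S.card : ℝ) ^ 2 <
        ∑ i ∈ S, ∑ j ∈ S, |x i - x j|} ⊆
      ⋃ c : ZMod (k + 1), {x : V κ | l * (4320 * Real.sqrt s) * S.card <
        ∑ i ∈ S, |x i - x (tc S e c i)|} := by
    intro x hx
    simp only [mem_ofPred_eq] at hx
    by_contra hcon
    simp only [mem_iUnion, mem_ofPred_eq, not_exists, not_lt] at hcon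
    rw [sum_tc S e (fun i j => |x i - x j|)] at hx
    have h2 : ∑ c : ZMod (k + 1), ∑ i ∈ S, |x i - x (tc S e c i)| ≤
        ∑ _c : ZMod (k + 1), l * (4320 * Real.sqrt s) * S.card :=
      Finset.sum_le_sum fun c _ => hcon c
    rw [Finset.sum_const, hcZ, nsmul_eq_mul] at h2
    nlinarith
  refine (measure_mono hsub).trans ((measure_iUnion_fintype_le _ _).trans ?_)
  have h3 : ∀ c : ZMod (k + 1), mu ρ {x : V κ | l * (4320 * Real.sqrt s) * S.card <
        ∑ i ∈ S, |x i - x (tc S e c i)|} ≤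
      ENNReal.ofReal (Real.exp (-(6 * l * S.card) + 3 * S.card / 2)) := fun c =>
    one_inv S ρ h0 hm hlog hinv hB h1 s hs hv (tc S e c) (tc_tc S e c) (tc_out S e c) l hl
  refine (Finset.sum_le_sum fun c _ => h3 c).trans ?_
  rw [Finset.sum_const, hcZ, nsmul_eq_mul,
    ← ENNReal.ofReal_natCast, ← ENNReal.ofReal_mul (Nat.cast_nonneg _)]
  apply ENNReal.ofReal_le_ofReal
  have h4 : (S.card : ℝ) ≤ Real.exp S.card := by
    have := Real.add_one_le_exp (S.card : ℝ)
    linarith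
  calc (S.card : ℝ) * Real.exp (-(6 * l * S.card) + 3 * S.card / 2) ≤
      Real.exp S.card * Real.exp (-(6 * l * S.card) + 3 * S.card / 2) :=
        mul_le_mul_of_nonneg_right h4 (Real.exp_pos _).le
    _ = Real.exp (S.card + (-(6 * l * S.card) + 3 * S.card / 2)) := (Real.exp_add _ _).symm
    _ ≤ _ := by
        apply Real.exp_le_exp.2
        nlinarith

end Pool.Agent.TH148.HX

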