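import Pool.Agent.TH902.LS_T2
import Pool.Agent.TH280.LS.StmC

/-!
# LSC-T2K: the `L²` bound in several variables, with a weight in the frequency
-/

set_option autoImplicit false

open MeasureTheory Set Pool.Agent.TH280.LS
open scoped ENNReal

namespace Pool.Agent.TH148.T2K

open Pool.Agent.TH902.T2

/-! ### bounds of the multipliers -/

/-- the decay of the power of `1 + 4 π² r²` -/
theorem beta_decay {s1 s2 r : ℝ} (h1 : 0 < s1) (h2 : 0 ≤ s2) (hr : 0 ≤ r) :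
    (1 + 4 * Real.pi ^ 2 * r ^ 2) ^ (-((s1 + s2) / 2)) ≤ 2 ^ (s2 / 2) * (1 + r) ^ (-s2) := by
  have hpi := Real.pi_gt_three
  have hb : (1 : ℝ) ≤ 1 + 4 * Real.pi ^ 2 * r ^ 2 := by
    have : 0 ≤ 4 * Real.pi ^ 2 * r ^ 2 := by positivity
    linarith
  have h3 : (1 + 4 * Real.pi ^ 2 * r ^ 2) ^ (-((s1 + s2) / 2)) ≤
      (1 + 4 * Real.pi ^ 2 * r ^ 2) ^ (-(s2 / 2)) :=
    Real.rpow_le_rpow_of_exponent_le hb (by linarith)
  refine h3.trans ?_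
  have h4 : (1 + r) ^ 2 / 2 ≤ 1 + 4 * Real.pi ^ 2 * r ^ 2 := by
    have h5 : r ^ 2 ≤ Real.pi ^ 2 * r ^ 2 := by
      have : (1 : ℝ) ≤ Real.pi ^ 2 := by nlinarith
      nlinarith [sq_nonneg r]
    nlinarith [sq_nonneg (1 - r)]
  have h5 : (1 + 4 * Real.pi ^ 2 * r ^ 2) ^ (-(s2 / 2)) ≤ ((1 + r) ^ 2 / 2) ^ (-(s2 / 2)) :=
    Real.rpow_le_rpow_of_nonpos (by positivity) h4 (by linarith)
  refine h5.trans (le_of_eq ?_)
  rw [Real.div_rpow (by positivity) (by norm_num), ← Real.rpow_natCast (1 + r) 2,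
    ← Real.rpow_mul (by positivity), Real.rpow_neg (by norm_num : (0 : ℝ) ≤ 2), div_inv_eq_mul,
    mul_comm]
  congr 2
  push_cast
  ring

theorem mc_bound' {s1 s2 τ t r : ℝ} (h1 : 0 < s1) (h2 : 0 ≤ s2) (hr : 0 ≤ r) :
    |mc (s1 + s2) τ t r| ≤ 2 ^ (s2 / 2) * (1 + r) ^ (-s2) * Real.exp (-(τ * r ^ 2)) := by
  unfold mc
  rw [abs_mul, abs_of_pos (Real.exp_pos _), mul_comm]
  refine mul_le_mul_of_nonneg_right ?_ (Real.exp_pos _).le
  rw [abs_mul]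
  have h3 := Real.abs_cos_le_one (2 * Real.pi * (t * r))
  have h4 : |(1 + 4 * Real.pi ^ 2 * r ^ 2) ^ (-((s1 + s2) / 2))| ≤
      2 ^ (s2 / 2) * (1 + r) ^ (-s2) := by
    rw [abs_of_nonneg (by positivity)]
    exact beta_decay h1 h2 hr
  calc _ ≤ (1 : ℝ) * (2 ^ (s2 / 2) * (1 + r) ^ (-s2)) := mul_le_mul h3 h4 (abs_nonneg _) zero_le_one
    _ = _ := one_mul _

theorem ms_bound' {s1 s2 τ t r : ℝ} (h1 : 0 < s1) (h2 : 0 ≤ s2) (hr : 0 ≤ r) (ht0 : 1 ≤ t)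
    (ht : t ≤ 2) :
    |ms (s1 + s2) τ t r| ≤ 3 * 2 ^ (s2 / 2) * (1 + r) ^ (-s2) * Real.exp (-(τ * r ^ 2)) := by
  unfold ms
  rw [abs_mul, abs_of_pos (Real.exp_pos _), mul_comm]
  refine mul_le_mul_of_nonneg_right ?_ (Real.exp_pos _).le
  rcases hr.eq_or_lt with rfl | hr
  · simp
    positivity
  have hpi := Real.pi_pos
  have hR : 0 < 2 * Real.pi * r := by positivity
  rw [abs_mul, abs_div, abs_of_pos hR]
  have hb0 : (0 : ℝ) < 1 + 4 * Real.pi ^ 2 * r ^ 2 := by positivity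
  have h3 : |(1 + 4 * Real.pi ^ 2 * r ^ 2) ^ ((1 - (s1 + s2)) / 2)| ≤
      (1 + 2 * Real.pi * r) * (2 ^ (s2 / 2) * (1 + r) ^ (-s2)) := by
    rw [abs_of_nonneg (by positivity)]
    have e1 : (1 - (s1 + s2)) / 2 = 1 / 2 + -((s1 + s2) / 2) := by ring
    rw [e1, Real.rpow_add hb0]
    refine mul_le_mul ?_ (beta_decay h1 h2 hr.le) (by positivity) (by positivity)
    rw [← Real.sqrt_eq_rpow, Real.sqrt_le_left (by positivity)]
    nlinarith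
  have h4 := Real.abs_sin_le_one (2 * Real.pi * (t * r))
  have h4' : |Real.sin (2 * Real.pi * (t * r))| ≤ t * (2 * Real.pi * r) := by
    refine (Real.abs_sin_le_abs).trans ?_
    rw [abs_of_nonneg (by positivity)]
    linarith
  have hK : 0 ≤ 2 ^ (s2 / 2) * (1 + r) ^ (-s2) := by positivity
  calc |Real.sin (2 * Real.pi * (t * r))| / (2 * Real.pi * r) *
        |(1 + 4 * Real.pi ^ 2 * r ^ 2) ^ ((1 - (s1 + s2)) / 2)|
      ≤ |Real.sin (2 * Real.pi * (t * r))| / (2 * Real.pi * r) *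
          ((1 + 2 * Real.pi * r) * (2 ^ (s2 / 2) * (1 + r) ^ (-s2))) :=
        mul_le_mul_of_nonneg_left h3 (by positivity)
    _ = (|Real.sin (2 * Real.pi * (t * r))| / (2 * Real.pi * r) +
        |Real.sin (2 * Real.pi * (t * r))|) * (2 ^ (s2 / 2) * (1 + r) ^ (-s2)) := by
        field_simp
    _ ≤ (t + 1) * (2 ^ (s2 / 2) * (1 + r) ^ (-s2)) := by
        refine mul_le_mul_of_nonneg_right (add_le_add ?_ h4) hK
        rw [div_le_iff₀ hR]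
        exact h4'
    _ ≤ 3 * (2 ^ (s2 / 2) * (1 + r) ^ (-s2)) :=
        mul_le_mul_of_nonneg_right (by linarith) hK
    _ = 3 * 2 ^ (s2 / 2) * (1 + r) ^ (-s2) := by ring

/-! ### the core estimate for a multiplier with Gaussian decay and a weight -/

section core

variable {m : ℕ} {M : ℝ → ℝ} {G : (Fin m → ℝ) → ℝ → ℂ} {B τ s2 : ℝ}

theorem kp_nonneg (η : Fin m → ℝ) : 0 ≤ kp m s2 η := by
  unfold kp
  have : 0 ≤ nr η := Real.sqrt_nonneg _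
  positivity

theorem kp_le (h2 : 0 ≤ s2) (η : Fin m → ℝ) (ξ : ℝ) :
    (1 + ra (Real.sqrt (∑ i, η i ^ 2)) ξ) ^ (-s2) ≤ kp m s2 η := by
  unfold kp
  have h0 : 0 ≤ nr η := Real.sqrt_nonneg _
  refine Real.rpow_le_rpow_of_nonpos (by positivity) ?_ (by linarith)
  have h1 : nr η ≤ ra (Real.sqrt (∑ i, η i ^ 2)) ξ := by
    unfold nr ra
    refine Real.sqrt_le_sqrt ?_
    rw [Real.sq_sqrt (Finset.sum_nonneg fun i _ => sq_nonneg _)]
    nlinarith [sq_nonneg ξ]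
  linarith

theorem M_bound' (hB0 : 0 ≤ B) (h2 : 0 ≤ s2)
    (hB : ∀ r, 0 ≤ r → |M r| ≤ B * (1 + r) ^ (-s2) * Real.exp (-(τ * r ^ 2)))
    (η : Fin m → ℝ) (ξ : ℝ) :
    |M (ra (Real.sqrt (∑ i, η i ^ 2)) ξ)| ≤
      B * kp m s2 η * (Real.exp (-τ * ξ ^ 2) * Real.exp (-τ * ∑ i, η i ^ 2)) := by
  have h0 : 0 ≤ ra (Real.sqrt (∑ i, η i ^ 2)) ξ := Real.sqrt_nonneg _
  refine (hB _ h0).trans ?_
  rw [ra_sq]
  have e1 : Real.exp (-(τ * (ξ ^ 2 + ∑ i, η i ^ 2))) =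
      Real.exp (-τ * ξ ^ 2) * Real.exp (-τ * ∑ i, η i ^ 2) := by
    rw [← Real.exp_add]
    congr 1
    ring
  rw [e1]
  refine mul_le_mul_of_nonneg_right ?_ (by positivity)
  exact mul_le_mul_of_nonneg_left (kp_le h2 η ξ) hB0

theorem core_bound' (hM : Measurable M) (hB0 : 0 ≤ B) (hτ : 0 < τ) (h2 : 0 ≤ s2)
    (hB : ∀ r, 0 ≤ r → |M r| ≤ B * (1 + r) ^ (-s2) * Real.exp (-(τ * r ^ 2))) (hG : Adm m G) :
    ∫⁻ x : ℝ, ∫⁻ y : Fin m → ℝ, ‖Tm m M G y x‖ₑ ^ 2 ≤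
      ENNReal.ofReal (B ^ 2) * ∫⁻ x : ℝ, ∫⁻ η : Fin m → ℝ,
        ENNReal.ofReal (kp m s2 η ^ 2) * ‖G η x‖ₑ ^ 2 := by
  have hBM : ∀ r, 0 ≤ r → |M r| ≤ B * Real.exp (-(τ * r ^ 2)) := by
    intro r hr
    refine (hB r hr).trans (mul_le_mul_of_nonneg_right ?_ (Real.exp_pos _).le)
    refine mul_le_of_le_one_right hB0 ?_
    exact Real.rpow_le_one_of_one_le_of_nonpos (by linarith) (by linarith)
  obtain ⟨hGm, g, hg, hGg⟩ := hG
  have hg0 : ∀ x, 0 ≤ g x := fun x => (norm_nonneg _).trans (hGg 0 x)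
  set γ : ℝ := ∫ x, g x with hγ
  have hγ0 : 0 ≤ γ := integral_nonneg hg0
  have hGi : ∀ η, Integrable (G η) := fun η =>
    hg.mono' (hGm.comp measurable_prodMk_left).aestronglyMeasurable
      (Filter.Eventually.of_forall fun x => hGg η x)
  have hft : ∀ η ξ, ‖ft (G η) ξ‖ ≤ γ := fun η ξ =>
    (norm_ft_le _ _).trans (integral_mono (hGi η).norm hg fun x => hGg η x)
  -- the function q
  set q : (Fin m → ℝ) → ℝ → ℂ := fun η ξ =>
    ((M (ra (Real.sqrt (∑ i, η i ^ 2)) ξ) : ℝ) : ℂ) * ft (G η) ξ with hq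
  have hqm : Measurable (fun p : (Fin m → ℝ) × ℝ => q p.1 p.2) := measurable_q hM hGm
  have hqb : ∀ η ξ, ‖q η ξ‖ ≤ B * γ * Real.exp (-τ * ∑ i, η i ^ 2) * Real.exp (-τ * ξ ^ 2) := by
    intro η ξ
    simp only [hq, norm_mul, Complex.norm_real, Real.norm_eq_abs]
    calc |M (ra (Real.sqrt (∑ i, η i ^ 2)) ξ)| * ‖ft (G η) ξ‖
        ≤ B * (Real.exp (-τ * ξ ^ 2) * Real.exp (-τ * ∑ i, η i ^ 2)) * γ :=
          mul_le_mul (M_bound hBM η ξ) (hft η ξ) (norm_nonneg _) (by positivity)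
      _ = _ := by ring
  have hE1 : ∀ ξ : ℝ, Real.exp (-τ * ξ ^ 2) ≤ 1 := fun ξ => by
    rw [Real.exp_le_one_iff]
    nlinarith [sq_nonneg ξ]
  have hqi : ∀ η, Integrable (q η) := fun η =>
    ((integrable_exp_neg_mul_sq hτ).const_mul (B * γ * Real.exp (-τ * ∑ i, η i ^ 2))).mono'
      (hqm.comp measurable_prodMk_left).aestronglyMeasurable
      (Filter.Eventually.of_forall fun ξ => hqb η ξ)
  have hq2 : ∀ η, MemLp (q η) 2 := fun η => by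
    refine memLp_two_of_bound (hqi η) (K := B * γ * Real.exp (-τ * ∑ i, η i ^ 2)) fun ξ => ?_
    exact (hqb η ξ).trans (mul_le_of_le_one_right (by positivity) (hE1 ξ))
  -- the function U
  set U : (Fin m → ℝ) → ℝ → ℂ := fun η x => Ux (Real.sqrt (∑ i, η i ^ 2)) M (G η) x with hU
  have hUq : ∀ η x, U η x = ∫ ξ : ℝ, e (x * ξ) * q η ξ := fun η x => rfl
  have hUm : Measurable (fun p : (Fin m → ℝ) × ℝ => U p.1 p.2) := measurable_U hM hGm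
  set K0 : ℝ := ∫ ξ : ℝ, Real.exp (-τ * ξ ^ 2) with hK0
  have hK00 : 0 ≤ K0 := integral_nonneg fun ξ => (Real.exp_pos _).le
  have hUb : ∀ η x, ‖U η x‖ ≤ B * γ * K0 * Real.exp (-τ * ∑ i, η i ^ 2) := by
    intro η x
    rw [hUq]
    refine (norm_integral_le_integral_norm _).trans ?_
    have h1 : ∀ ξ, ‖e (x * ξ) * q η ξ‖ ≤
        B * γ * Real.exp (-τ * ∑ i, η i ^ 2) * Real.exp (-τ * ξ ^ 2) := fun ξ => by
      rw [norm_mul, norm_e, one_mul]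
      exact hqb η ξ
    have h2 : Integrable (fun ξ => B * γ * Real.exp (-τ * ∑ i, η i ^ 2) * Real.exp (-τ * ξ ^ 2)) :=
      (integrable_exp_neg_mul_sq hτ).const_mul _
    have h3 : Integrable (fun ξ => ‖e (x * ξ) * q η ξ‖) := by
      have : (fun ξ => ‖e (x * ξ) * q η ξ‖) = fun ξ => ‖q η ξ‖ := by
        funext ξ
        rw [norm_mul, norm_e, one_mul]
      rw [this]
      exact (hqi η).norm
    refine (integral_mono h3 h2 h1).trans (le_of_eq ?_)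
    rw [integral_const_mul]
    ring
  have hgi := integrable_gauss (m := m) hτ
  have hUi : ∀ x, Integrable (fun η => U η x) := fun x =>
    (hgi.const_mul (B * γ * K0)).mono'
      (hUm.comp measurable_prodMk_right).aestronglyMeasurable
      (Filter.Eventually.of_forall fun η => hUb η x)
  have hE2 : ∀ η : Fin m → ℝ, Real.exp (-τ * ∑ i, η i ^ 2) ≤ 1 := fun η => by
    rw [Real.exp_le_one_iff]
    have : 0 ≤ ∑ i, η i ^ 2 := Finset.sum_nonneg fun i _ => sq_nonneg _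
    nlinarith
  have hU2 : ∀ x, MemLp (fun η => U η x) 2 := fun x => by
    refine memLp_two_of_bound (hUi x) (K := B * γ * K0) fun η => ?_
    exact (hUb η x).trans (mul_le_of_le_one_right (by positivity) (hE2 η))
  -- step 1
  have s1 : ∀ x, ∫⁻ y : Fin m → ℝ, ‖Tm m M G y x‖ₑ ^ 2 = ∫⁻ η : Fin m → ℝ, ‖U η x‖ₑ ^ 2 :=
    fun x => ftm_planch (fun η => U η x) (hUi x) (hU2 x)
  have s2' : ∀ η, ∫⁻ x : ℝ, ‖U η x‖ₑ ^ 2 = ∫⁻ ξ : ℝ, ‖q η ξ‖ₑ ^ 2 := fun η =>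
    ift_planch (q η) (hqi η) (hq2 η)
  have s3 : ∀ η, ∫⁻ ξ : ℝ, ‖ft (G η) ξ‖ₑ ^ 2 ≤ ∫⁻ x : ℝ, ‖G η x‖ₑ ^ 2 := by
    intro η
    by_cases h : MemLp (G η) 2
    · exact (ft_planch (G η) (hGi η) h).le
    · have : ∫⁻ x : ℝ, ‖G η x‖ₑ ^ 2 = ⊤ := by
        by_contra hne
        refine h ⟨(hGi η).1, ?_⟩
        rw [eLpNorm_lt_top_iff_lintegral_rpow_enorm_lt_top (by norm_num) (by norm_num)]
        simp only [ENNReal.toReal_ofNat, ENNReal.rpow_ofNat]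
        exact lt_top_iff_ne_top.mpr hne
      rw [this]
      exact le_top
  have s4 : ∀ η, ∫⁻ ξ : ℝ, ‖q η ξ‖ₑ ^ 2 ≤ ENNReal.ofReal (B ^ 2) *
      ∫⁻ x : ℝ, ENNReal.ofReal (kp m s2 η ^ 2) * ‖G η x‖ₑ ^ 2 := by
    intro η
    rw [lintegral_const_mul' _ _ ENNReal.ofReal_ne_top, ← mul_assoc]
    refine le_trans ?_ (mul_le_mul_right (s3 η) _)
    rw [← lintegral_const_mul' _ _ (ENNReal.mul_ne_top ENNReal.ofReal_ne_top ENNReal.ofReal_ne_top)]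
    refine lintegral_mono fun ξ => ?_
    have hk0 : 0 ≤ kp m s2 η := kp_nonneg η
    have h1 : ‖q η ξ‖ₑ ≤ ENNReal.ofReal (B * kp m s2 η) * ‖ft (G η) ξ‖ₑ := by
      simp only [hq]
      rw [enorm_mul]
      refine mul_le_mul_left ?_ _
      rw [← ofReal_norm]
      refine ENNReal.ofReal_le_ofReal ?_
      rw [Complex.norm_real, Real.norm_eq_abs]
      refine (M_bound' hB0 h2 hB η ξ).trans (mul_le_of_le_one_right (mul_nonneg hB0 hk0) ?_)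
      exact mul_le_one₀ (hE1 ξ) (Real.exp_pos _).le (hE2 η)
    calc ‖q η ξ‖ₑ ^ 2 ≤ (ENNReal.ofReal (B * kp m s2 η) * ‖ft (G η) ξ‖ₑ) ^ 2 := by gcongr
      _ = ENNReal.ofReal (B ^ 2) * ENNReal.ofReal (kp m s2 η ^ 2) * ‖ft (G η) ξ‖ₑ ^ 2 := by
        rw [mul_pow, ENNReal.ofReal_mul hB0, mul_pow, ENNReal.ofReal_pow hB0,
          ENNReal.ofReal_pow hk0]
  have hkm : Measurable (fun η : Fin m → ℝ => ENNReal.ofReal (kp m s2 η ^ 2)) := by
    refine ENNReal.measurable_ofReal.comp ?_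
    unfold kp nr
    fun_prop
  calc ∫⁻ x : ℝ, ∫⁻ y : Fin m → ℝ, ‖Tm m M G y x‖ₑ ^ 2
      = ∫⁻ x : ℝ, ∫⁻ η : Fin m → ℝ, ‖U η x‖ₑ ^ 2 := lintegral_congr s1
    _ = ∫⁻ η : Fin m → ℝ, ∫⁻ x : ℝ, ‖U η x‖ₑ ^ 2 := by
        refine lintegral_lintegral_swap ?_
        have : Measurable (fun p : ℝ × (Fin m → ℝ) => U p.2 p.1) := hUm.comp measurable_swap
        exact (this.enorm.pow_const 2).aemeasurable
    _ ≤ ∫⁻ η : Fin m → ℝ, ENNReal.ofReal (B ^ 2) *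
          ∫⁻ x : ℝ, ENNReal.ofReal (kp m s2 η ^ 2) * ‖G η x‖ₑ ^ 2 := by
        refine lintegral_mono fun η => ?_
        rw [s2' η]
        exact s4 η
    _ = ENNReal.ofReal (B ^ 2) * ∫⁻ η : Fin m → ℝ,
          ∫⁻ x : ℝ, ENNReal.ofReal (kp m s2 η ^ 2) * ‖G η x‖ₑ ^ 2 :=
        lintegral_const_mul' _ _ ENNReal.ofReal_ne_top
    _ = ENNReal.ofReal (B ^ 2) * ∫⁻ x : ℝ, ∫⁻ η : Fin m → ℝ,
          ENNReal.ofReal (kp m s2 η ^ 2) * ‖G η x‖ₑ ^ 2 := by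
        congr 1
        refine lintegral_lintegral_swap ?_
        exact ((hkm.comp measurable_fst).mul (hGm.enorm.pow_const 2)).aemeasurable

end core

theorem t2k_thm : S_T2K := by
  intro m s1 s2 _ h1 h2
  refine ⟨(3 * 2 ^ (s2 / 2)) ^ 2, by positivity, fun τ G hτ _ hG => ⟨?_, ?_⟩⟩
  · refine t_int fun t ht => ?_
    refine (core_bound' (B := 2 ^ (s2 / 2)) (measurable_mc (s1 + s2) τ t) (by positivity) hτ h2
      (fun r hr => mc_bound' h1 h2 hr) hG).trans ?_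
    gcongr
    have : (0 : ℝ) < 2 ^ (s2 / 2) := by positivity
    linarith
  · refine t_int fun t ht => ?_
    exact core_bound' (B := 3 * 2 ^ (s2 / 2)) (measurable_ms (s1 + s2) τ t) (by positivity) hτ h2
      (fun r hr => ms_bound' h1 h2 hr ht.1 ht.2) hG

end Pool.Agent.TH148.T2K
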