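import Mathlib

set_option autoImplicit false
open AlgebraicGeometry CategoryTheory CategoryTheory.Limits TensorProduct

namespace Pool.Agent.TH148

theorem chartAff {B P : Scheme.{0}} (a : B ⟶ Spec (CommRingCat.of ℤ))
    (c : P ⟶ Spec (CommRingCat.of ℤ))
    (A D : Type) [CommRing A] [CommRing D] (j : Spec (CommRingCat.of A) ⟶ B) [IsOpenImmersion j]
    (ι : Spec (CommRingCat.of D) ⟶ P) [IsOpenImmersion ι] :
    ∃ (m : Spec (CommRingCat.of (A ⊗[ℤ] D)) ⟶ pullback a c) (_ : IsOpenImmersion m),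
      m ≫ pullback.fst a c =
        Spec.map (CommRingCat.ofHom Algebra.TensorProduct.includeLeftRingHom) ≫ j ∧
      m ≫ pullback.snd a c =
        Spec.map (CommRingCat.ofHom (Algebra.TensorProduct.includeRight :
          D →ₐ[ℤ] A ⊗[ℤ] D).toRingHom) ≫ ι ∧
      ∀ (T : Scheme.{0}) (g : T ⟶ pullback a c) (g1 : T ⟶ Spec (CommRingCat.of A))
        (g2 : T ⟶ Spec (CommRingCat.of D)), g ≫ pullback.fst a c = g1 ≫ j →
        g ≫ pullback.snd a c = g2 ≫ ι →
        ∃ k : T ⟶ Spec (CommRingCat.of (A ⊗[ℤ] D)), k ≫ m = g ∧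
          k ≫ Spec.map (CommRingCat.ofHom Algebra.TensorProduct.includeLeftRingHom) = g1 ∧
          k ≫ Spec.map (CommRingCat.ofHom (Algebra.TensorProduct.includeRight :
            D →ₐ[ℤ] A ⊗[ℤ] D).toRingHom) = g2 := by
  have e₁ : Spec.map (CommRingCat.ofHom (algebraMap ℤ A)) = j ≫ a := by
    rw [← Spec.map_preimage (j ≫ a)]
    congr 1
    ext x
    simp
  have e₂ : Spec.map (CommRingCat.ofHom (algebraMap ℤ D)) = ι ≫ c := by
    rw [← Spec.map_preimage (ι ≫ c)]
    congr 1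
    ext x
    simp
  let m' := pullback.map (Spec.map (CommRingCat.ofHom (algebraMap ℤ A)))
    (Spec.map (CommRingCat.ofHom (algebraMap ℤ D))) a c j ι (𝟙 _)
    ((Category.comp_id _).trans e₁) ((Category.comp_id _).trans e₂)
  have hm' : IsOpenImmersion m' :=
    MorphismProperty.pullbackMap (P := @IsOpenImmersion) inferInstance inferInstance e₁ e₂
  let m : Spec (CommRingCat.of (A ⊗[ℤ] D)) ⟶ pullback a c := (pullbackSpecIso ℤ A D).inv ≫ m'
  have hm : IsOpenImmersion m := inferInstance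
  have hm1 : m ≫ pullback.fst a c =
      Spec.map (CommRingCat.ofHom Algebra.TensorProduct.includeLeftRingHom) ≫ j := by
    simp only [m, m', Category.assoc, pullback.map, pullback.lift_fst]
    rw [pullbackSpecIso_inv_fst_assoc]
  have hm2 : m ≫ pullback.snd a c =
      Spec.map (CommRingCat.ofHom (Algebra.TensorProduct.includeRight :
        D →ₐ[ℤ] A ⊗[ℤ] D).toRingHom) ≫ ι := by
    simp only [m, m', Category.assoc, pullback.map, pullback.lift_snd]
    rw [pullbackSpecIso_inv_snd_assoc]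
    rfl
  refine ⟨m, hm, hm1, hm2, ?_⟩
  intro T g g1 g2 h1 h2
  have hc : g1 ≫ Spec.map (CommRingCat.ofHom (algebraMap ℤ A)) =
      g2 ≫ Spec.map (CommRingCat.ofHom (algebraMap ℤ D)) := by
    rw [e₁, e₂, ← Category.assoc, ← Category.assoc, ← h1, ← h2]
    simp only [Category.assoc, pullback.condition]
  have hk1 : (pullback.lift g1 g2 hc ≫ (pullbackSpecIso ℤ A D).hom) ≫ Spec.map
      (CommRingCat.ofHom Algebra.TensorProduct.includeLeftRingHom) = g1 := by
    rw [Category.assoc, pullbackSpecIso_hom_fst, pullback.lift_fst]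
  have hk2 : (pullback.lift g1 g2 hc ≫ (pullbackSpecIso ℤ A D).hom) ≫ Spec.map
      (CommRingCat.ofHom (Algebra.TensorProduct.includeRight :
            D →ₐ[ℤ] A ⊗[ℤ] D).toRingHom) = g2 := by
    have := pullbackSpecIso_hom_snd ℤ A D
    rw [Category.assoc]
    erw [this]
    rw [pullback.lift_snd]
  refine ⟨pullback.lift g1 g2 hc ≫ (pullbackSpecIso ℤ A D).hom, ?_, hk1, hk2⟩
  apply pullback.hom_ext
  · rw [Category.assoc, hm1, ← Category.assoc, hk1, h1]
  · rw [Category.assoc, hm2, ← Category.assoc, hk2, h2]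

theorem chartGen {X B P : Scheme.{0}} (a : B ⟶ Spec (CommRingCat.of ℤ))
    (c : P ⟶ Spec (CommRingCat.of ℤ)) (i : X ⟶ pullback a c) [IsClosedImmersion i]
    (A D : Type) [CommRing A] [CommRing D] (j : Spec (CommRingCat.of A) ⟶ B) [IsOpenImmersion j]
    (ι : Spec (CommRingCat.of D) ⟶ P) [IsOpenImmersion ι] :
    ∃ (R : Type) (_ : CommRing R) (α : A →+* R) (χ : D →+* R)
      (y : Spec (CommRingCat.of R) ⟶ X) (_ : IsOpenImmersion y),
      y ≫ i ≫ pullback.fst a c = Spec.map (CommRingCat.ofHom α) ≫ j ∧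
      y ≫ i ≫ pullback.snd a c = Spec.map (CommRingCat.ofHom χ) ≫ ι ∧
      (Subring.closure (Set.range α ∪ Set.range χ) = ⊤) ∧
      ∀ (T : Scheme.{0}) (g : T ⟶ X) (g1 : T ⟶ Spec (CommRingCat.of A))
        (g2 : T ⟶ Spec (CommRingCat.of D)), g ≫ i ≫ pullback.fst a c = g1 ≫ j →
        g ≫ i ≫ pullback.snd a c = g2 ≫ ι →
        ∃ k : T ⟶ Spec (CommRingCat.of R), k ≫ y = g ∧
          k ≫ Spec.map (CommRingCat.ofHom α) = g1 ∧ k ≫ Spec.map (CommRingCat.ofHom χ) = g2 := by
  obtain ⟨m, hm, hm1, hm2, hmu⟩ := chartAff a c A D j ι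
  have hcl : IsClosedImmersion (pullback.snd i m) := inferInstance
  obtain ⟨I, e, he⟩ := IsClosedImmersion.Spec_iff.mp hcl
  have he' : e.inv ≫ pullback.snd i m = Spec.map (CommRingCat.ofHom (Ideal.Quotient.mk I)) := by
    rw [he, Iso.inv_hom_id_assoc]
  refine ⟨(A ⊗[ℤ] D) ⧸ I, inferInstance,
    (Ideal.Quotient.mk I).comp Algebra.TensorProduct.includeLeftRingHom,
    (Ideal.Quotient.mk I).comp (Algebra.TensorProduct.includeRight :
        D →ₐ[ℤ] A ⊗[ℤ] D).toRingHom,
    e.inv ≫ pullback.fst i m, inferInstance, ?_, ?_, ?_, ?_⟩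
  · rw [Category.assoc, pullback.condition_assoc, hm1, CommRingCat.ofHom_comp, Spec.map_comp,
      Category.assoc, reassoc_of% he']
  · rw [Category.assoc, pullback.condition_assoc, hm2, CommRingCat.ofHom_comp, Spec.map_comp,
      Category.assoc, reassoc_of% he']
  · rw [eq_top_iff]
    rintro r -
    obtain ⟨t, rfl⟩ := Ideal.Quotient.mk_surjective r
    induction t using TensorProduct.induction_on with
    | zero => rw [map_zero]; exact zero_mem _
    | tmul u v =>
      have : (u ⊗ₜ[ℤ] v : A ⊗[ℤ] D) = (u ⊗ₜ[ℤ] 1) * (1 ⊗ₜ[ℤ] v) := by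
        rw [Algebra.TensorProduct.tmul_mul_tmul, mul_one, one_mul]
      rw [this, map_mul]
      exact mul_mem (Subring.subset_closure (Or.inl ⟨u, rfl⟩))
        (Subring.subset_closure (Or.inr ⟨v, rfl⟩))
    | add u v hu hv => rw [map_add]; exact add_mem hu hv
  · intro T g g1 g2 h1 h2
    obtain ⟨k1, hk, hk1, hk2⟩ := hmu T (g ≫ i) g1 g2 (by rw [Category.assoc]; exact h1)
      (by rw [Category.assoc]; exact h2)
    have hsnd : (pullback.lift g k1 hk.symm ≫ e.hom) ≫
        Spec.map (CommRingCat.ofHom (Ideal.Quotient.mk I)) = k1 := by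
      rw [Category.assoc, ← he, pullback.lift_snd]
    refine ⟨pullback.lift g k1 hk.symm ≫ e.hom, ?_, ?_, ?_⟩
    · rw [Category.assoc, Iso.hom_inv_id_assoc, pullback.lift_fst]
    · rw [CommRingCat.ofHom_comp, Spec.map_comp, ← Category.assoc, hsnd, hk1]
    · rw [CommRingCat.ofHom_comp, Spec.map_comp, ← Category.assoc, hsnd, hk2]

end Pool.Agent.TH148
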