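import Mathlib

set_option autoImplicit false
open AlgebraicGeometry CategoryTheory CategoryTheory.Limits MvPolynomial HomogeneousLocalization

namespace Pool.Agent.TH148

/-- polynomials over `ℤ` -/
abbrev PZ (n : ℕ) := MvPolynomial (Fin (n + 1)) ℤ

/-- homogeneous submodules -/
abbrev HZ (n : ℕ) := homogeneousSubmodule (Fin (n + 1)) ℤ

section

lemma eval₂_smul_hom {R S : Type} [CommRing R] [CommRing S] {σ : Type} (f : R →+* S)
    (P : MvPolynomial σ R) {d : ℕ} (hP : P.IsHomogeneous d) (c : S) (v : σ → S) :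
    eval₂ f (fun l => c * v l) P = c ^ d * eval₂ f v P := by
  rw [eval₂_eq, eval₂_eq, Finset.mul_sum]
  refine Finset.sum_congr rfl fun m hm => ?_
  have hd : m.degree = d := (hP.degree_eq_sum_deg_support hm).symm
  have : ∏ i ∈ m.support, (c * v i) ^ m i = c ^ d * ∏ i ∈ m.support, v i ^ m i := by
    rw [← hd, Finsupp.degree_apply, ← Finset.prod_pow_eq_pow_sum, ← Finset.prod_mul_distrib]
    exact Finset.prod_congr rfl fun i _ => mul_pow _ _ _
  rw [this]; ring

variable {n : ℕ}

lemma X_deg (h : Fin (n + 1)) : (X h : PZ n) ∈ HZ n 1 := by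
  rw [mem_homogeneousSubmodule]; exact isHomogeneous_X _ _

variable [GradedAlgebra (HZ n)]

/-- evaluation of the degree-0 localisation -/
noncomputable def evA {R : Type} [CommRing R] (v : Fin (n + 1) → R)
    (f : PZ n) (hf : IsUnit (eval₂Hom (Int.castRingHom R) v f)) :
    Away (HZ n) f →+* R :=
  (Localization.awayLift (eval₂Hom (Int.castRingHom R) v) f hf).comp
    (algebraMap _ (Localization.Away f))

lemma evA_mk {R : Type} [CommRing R] (v : Fin (n + 1) → R)
    (f : PZ n) (hf : IsUnit (eval₂Hom (Int.castRingHom R) v f))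
    {d : ℕ} (hf' : f ∈ HZ n d) (k : ℕ) (a) (ha) :
    evA v f hf (Away.mk (HZ n) hf' k a ha) *
      (eval₂Hom (Int.castRingHom R) v f) ^ k = eval₂Hom (Int.castRingHom R) v a := by
  simp only [evA, RingHom.comp_apply, HomogeneousLocalization.algebraMap_apply, Away.val_mk]
  have key : ∀ x, Localization.awayLift (eval₂Hom (Int.castRingHom R) v) f hf
      (algebraMap _ (Localization.Away f) x) = eval₂Hom (Int.castRingHom R) v x := fun x =>
    IsLocalization.Away.lift_eq _ _ _
  rw [← map_pow, ← key (f ^ k), ← map_mul, ← key a, Localization.mk_eq_mk']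
  congr 1
  exact IsLocalization.mk'_spec (M := Submonoid.powers f) _ a ⟨f ^ k, _⟩

/-- The element `X l / X h`. -/
noncomputable def tl (h l : Fin (n + 1)) : Away (HZ n) (X h : PZ n) :=
  Away.mk (HZ n) (X_deg h) 1 (X l)
    (by rw [one_smul]; exact X_deg l)

lemma tl_val (h l : Fin (n + 1)) :
    (tl h l).val * algebraMap (PZ n) (Localization.Away (X h : PZ n)) (X h) =
      algebraMap (PZ n) _ (X l) := by
  rw [tl, Away.val_mk, Localization.mk_eq_mk']
  have := IsLocalization.mk'_spec (M := Submonoid.powers (X h : PZ n))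
    (Localization.Away (X h : PZ n)) (X l) ⟨(X h) ^ 1, by use 1⟩
  simpa using this

lemma tl_self (h : Fin (n + 1)) : (tl h h : Away (HZ n) (X h : PZ n)) = 1 := by
  apply val_injective
  have h1 := tl_val h h
  have hu : IsUnit (algebraMap (PZ n) (Localization.Away (X h : PZ n)) (X h)) :=
    IsLocalization.Away.algebraMap_isUnit _
  rw [HomogeneousLocalization.val_one]
  exact hu.mul_right_cancel (by rw [h1, one_mul])

lemma tl_surj (h : Fin (n + 1)) : Function.Surjective
    (eval₂Hom (Int.castRingHom (Away (HZ n) (X h : PZ n))) (tl h)) := by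
  intro z
  obtain ⟨k, a, ha, rfl⟩ := Away.mk_surjective _ (X_deg h) z
  refine ⟨a, ?_⟩
  apply val_injective
  have hu : IsUnit (algebraMap (PZ n) (Localization.Away (X h : PZ n)) (X h)) :=
    IsLocalization.Away.algebraMap_isUnit _
  apply (hu.pow k).mul_left_cancel
  have ha' : a.IsHomogeneous k := by simpa [mem_homogeneousSubmodule] using ha
  have h1 : (eval₂Hom (Int.castRingHom (Away (HZ n) (X h : PZ n))) (tl h) a).val
      = eval₂ (Int.castRingHom _) (fun l => (tl h l).val) a := by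
    rw [← HomogeneousLocalization.algebraMap_apply, coe_eval₂Hom, hom_eval₂]
    congr 1
    exact RingHom.ext_int _ _
  rw [h1, Away.val_mk, Localization.mk_eq_mk', ← eval₂_smul_hom _ _ ha']
  have h2 := IsLocalization.mk'_spec' (M := Submonoid.powers (X h : PZ n))
    (Localization.Away (X h : PZ n)) a ⟨(X h) ^ k, by use k⟩
  simp only [map_pow] at h2
  rw [h2]
  have h3 : (fun l => (algebraMap (PZ n) (Localization.Away (X h : PZ n)) (X h)) *
      (tl h l).val) = fun l => algebraMap (PZ n) _ (X l) := by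
    funext l; rw [mul_comm]; exact tl_val h l
  rw [h3]
  have h4 : eval₂Hom (Int.castRingHom (Localization.Away (X h : PZ n)))
      (fun l => algebraMap (PZ n) _ (X l)) = algebraMap (PZ n) _ := by
    apply MvPolynomial.ringHom_ext
    · intro r; simp
    · intro i; simp
  exact congrArg (fun g => g a) h4

/-- ring homs out of `Away (X h)` are determined by the `X l / X h`. -/
lemma away_ext {R : Type} [CommRing R] (h : Fin (n + 1)) (f g : Away (HZ n) (X h : PZ n) →+* R)
    (hfg : ∀ l, f (tl h l) = g (tl h l)) : f = g := by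
  have : f.comp (eval₂Hom (Int.castRingHom (Away (HZ n) (X h : PZ n))) (tl h)) =
      g.comp (eval₂Hom (Int.castRingHom (Away (HZ n) (X h : PZ n))) (tl h)) := by
    apply MvPolynomial.ringHom_ext
    · intro r; simp
    · intro i; simp [hfg i]
  ext z
  obtain ⟨a, rfl⟩ := tl_surj h z
  exact congrArg (fun q => q a) this

omit [GradedAlgebra (HZ n)] in
lemma isUnit_ev {R : Type} [CommRing R] {v : Fin (n + 1) → R} {h : Fin (n + 1)}
    (hv : IsUnit (v h)) : IsUnit (eval₂Hom (Int.castRingHom R) v (X h)) := by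
  simpa using hv

lemma evA_tl {R : Type} [CommRing R] (v : Fin (n + 1) → R) (h l : Fin (n + 1))
    (hv : IsUnit (v h)) : evA v (X h) (isUnit_ev hv) (tl h l) * v h = v l := by
  have := evA_mk v (X h) (isUnit_ev hv) (X_deg h) 1 (X l) (by rw [one_smul]; exact X_deg l)
  rw [tl]
  simpa using this

lemma evA_awayMap {R : Type} [CommRing R] (v : Fin (n + 1) → R) (f g x : PZ n)
    (hf : IsUnit (eval₂Hom (Int.castRingHom R) v f))
    (hx : x = f * g) (hxu : IsUnit (eval₂Hom (Int.castRingHom R) v x))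
    {d e : ℕ} (hfd : f ∈ HZ n d) (hgd : g ∈ HZ n e) :
    (evA v x hxu).comp (awayMap (HZ n) hgd hx) = evA v f hf := by
  ext z
  obtain ⟨k, a, ha, rfl⟩ := Away.mk_surjective _ hfd z
  rw [RingHom.comp_apply, awayMap_mk]
  apply (hxu.pow k).mul_right_cancel
  rw [evA_mk]
  have h1 := evA_mk v f hf hfd k a ha
  have h2 : (eval₂Hom (Int.castRingHom R) v x) = (eval₂Hom (Int.castRingHom R) v f) *
    (eval₂Hom (Int.castRingHom R) v g) := by rw [hx, map_mul]
  rw [map_mul, ← h1, h2, map_pow]; ring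

/-- The `R`-point of `Proj` with coordinates `v` (`v h` a unit). -/
noncomputable def ptZ {R : Type} [CommRing R] (v : Fin (n + 1) → R) (h : Fin (n + 1))
    (hv : IsUnit (v h)) : Spec (CommRingCat.of R) ⟶ Proj (HZ n) :=
  Spec.map (CommRingCat.ofHom (evA v (X h) (isUnit_ev hv))) ≫
    Proj.awayι (HZ n) (X h) (X_deg h) one_pos

lemma ptZ_eq {R : Type} [CommRing R] (v : Fin (n + 1) → R) (h h' : Fin (n + 1))
    (hv : IsUnit (v h)) (hv' : IsUnit (v h')) : ptZ v h hv = ptZ v h' hv' := by
  have hxu : IsUnit (eval₂Hom (Int.castRingHom R) v (X h * X h' : PZ n)) := by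
    rw [map_mul]; exact (isUnit_ev hv).mul (isUnit_ev hv')
  rw [ptZ, ptZ, ← evA_awayMap v (X h) (X h') (X h * X h') (isUnit_ev hv) rfl hxu (X_deg h) (X_deg h'),
    ← evA_awayMap v (X h') (X h) (X h * X h') (isUnit_ev hv') (mul_comm _ _) hxu (X_deg h') (X_deg h),
    CommRingCat.ofHom_comp, CommRingCat.ofHom_comp, Spec.map_comp, Spec.map_comp, Category.assoc,
    Category.assoc, Proj.SpecMap_awayMap_awayι, Proj.SpecMap_awayMap_awayι]

lemma ptZ_of_eq {R : Type} [CommRing R] (v v' : Fin (n + 1) → R) (h : Fin (n + 1))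
    (hv : IsUnit (v h)) (hv' : IsUnit (v' h)) (hp : ∀ l, v l * v' h = v' l * v h) :
    ptZ v h hv = ptZ v' h hv' := by
  rw [ptZ, ptZ]
  congr 3
  apply away_ext
  intro l
  apply (hv.mul hv').mul_right_cancel
  have h1 := evA_tl v h l hv
  have h2 := evA_tl v' h l hv'
  calc _ = (evA v (X h) (isUnit_ev hv) (tl h l) * v h) * v' h := by ring
    _ = (evA v' (X h) (isUnit_ev hv') (tl h l) * v' h) * v h := by rw [h1, h2, hp]
    _ = _ := by ring

lemma ptZ_mem {R : Type} [CommRing R] (v : Fin (n + 1) → R) (h : Fin (n + 1))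
    (hv : IsUnit (v h)) (x : Spec (CommRingCat.of R)) :
    (ptZ v h hv) x ∈ Proj.basicOpen (HZ n) (X h) := by
  rw [← Proj.opensRange_awayι (HZ n) (X h) (X_deg h) one_pos]
  exact ⟨Spec.map (CommRingCat.ofHom (evA v (X h) (isUnit_ev hv))) x, by
    rw [ptZ]; simp⟩

lemma ptZ_mem' {E : Type} [Field E] (v : Fin (n + 1) → E) (h h' : Fin (n + 1))
    (hv : IsUnit (v h)) (x : Spec (CommRingCat.of E))
    (hx : (ptZ v h hv) x ∈ Proj.basicOpen (HZ n) (X h')) : v h' ≠ 0 := by
  have h1 : Spec.map (CommRingCat.ofHom (evA v (X h) (isUnit_ev hv))) x ∈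
      Proj.awayι (HZ n) (X h) (X_deg h) one_pos ⁻¹ᵁ Proj.basicOpen (HZ n) (X h') := by
    rw [ptZ] at hx
    simpa using hx
  rw [Proj.awayι_preimage_basicOpen (HZ n) (X_deg h) one_pos (X_deg h') one_pos] at h1
  intro h0
  apply h1
  have h2 := evA_mk v (X h) (isUnit_ev hv) (X_deg h) 1 ((X h' : PZ n) ^ 1)
    (by rw [one_smul, pow_one]; exact X_deg h')
  have h3 : evA v (X h) (isUnit_ev hv) (Away.isLocalizationElem (X_deg h) (X_deg h')) = 0 := by
    apply ((isUnit_ev hv).pow 1).mul_right_cancel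
    rw [zero_mul]
    refine h2.trans ?_
    simp [h0]
  change evA v (X h) (isUnit_ev hv) (Away.isLocalizationElem (X_deg h) (X_deg h')) ∈ x.asIdeal
  rw [h3]
  exact zero_mem _

lemma ptZ_inj {E : Type} [Field E] (v v' : Fin (n + 1) → E) (h h' : Fin (n + 1))
    (hv : IsUnit (v h)) (hv' : IsUnit (v' h')) (heq : ptZ v h hv = ptZ v' h' hv') (a b) :
    v a * v' b = v b * v' a := by
  have x : Spec (CommRingCat.of E) := (⊥ : PrimeSpectrum E)
  have h1 : v' h ≠ 0 := by
    apply ptZ_mem' v' h' h hv' x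
    rw [← heq]
    exact ptZ_mem v h hv x
  rw [ptZ_eq v' h' h hv' h1.isUnit, ptZ, ptZ, cancel_mono] at heq
  have h2 := Spec.map_injective heq
  have h3 : evA v (X h) (isUnit_ev hv) = evA v' (X h) (isUnit_ev h1.isUnit) := by
    have := congrArg CommRingCat.Hom.hom h2
    simpa using this
  have ha := evA_tl v h a hv
  have hb := evA_tl v h b hv
  have ha' := evA_tl v' h a h1.isUnit
  have hb' := evA_tl v' h b h1.isUnit
  rw [← h3] at ha' hb'
  rw [← ha, ← hb, ← ha', ← hb']; ring

lemma ptZ_iff {E : Type} [Field E] (v v' : Fin (n + 1) → E) (h h' : Fin (n + 1))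
    (hv : IsUnit (v h)) (hv' : IsUnit (v' h')) :
    ptZ v h hv = ptZ v' h' hv' ↔ ∀ a b, v a * v' b = v b * v' a := by
  refine ⟨fun heq a b => ptZ_inj v v' h h' hv hv' heq a b, fun hp => ?_⟩
  have h1 : IsUnit (v' h) := by
    have := (hv.mul hv').ne_zero
    rw [hp h h'] at this
    exact (right_ne_zero_of_mul this).isUnit
  rw [ptZ_eq v' h' h hv' h1]
  exact ptZ_of_eq v v' h hv h1 fun l => by rw [hp l h]; ring

end

end Pool.Agent.TH148
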