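import Mathlib
import Pool.Agent.TH148.BrPts
import Pool.Agent.TH148.BrChart

set_option autoImplicit false
open AlgebraicGeometry CategoryTheory CategoryTheory.Limits MvPolynomial HomogeneousLocalization

namespace Pool.Agent.TH148

/-- Charts of `X` over `Spec A → B`. -/
structure Charts {V B : Scheme.{0}} (p : V ⟶ B) (n : ℕ) [GradedAlgebra (HZ n)]
    (jP : V ⟶ Proj (HZ n)) (A : Type) [CommRing A] (j : Spec (CommRingCat.of A) ⟶ B) where
  R : Fin (n + 1) → Type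
  [inst : ∀ h, CommRing (R h)]
  α : ∀ h, A →+* R h
  χ : ∀ h, Away (HZ n) (X h : PZ n) →+* R h
  y : ∀ h, Spec (CommRingCat.of (R h)) ⟶ V
  hy : ∀ h, IsOpenImmersion (y h)
  hp : ∀ h, y h ≫ p = Spec.map (CommRingCat.ofHom (α h)) ≫ j
  hP : ∀ h, y h ≫ jP = Spec.map (CommRingCat.ofHom (χ h)) ≫
    Proj.awayι (HZ n) (X h) (X_deg h) one_pos
  surj : ∀ h, Function.Surjective (eval₂Hom (α h) (fun l => χ h (tl h l)))
  up : ∀ h (T : Scheme.{0}) (g : T ⟶ V) (g1 : T ⟶ Spec (CommRingCat.of A))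
        (g2 : T ⟶ Spec (CommRingCat.of (Away (HZ n) (X h : PZ n)))), g ≫ p = g1 ≫ j →
        g ≫ jP = g2 ≫ Proj.awayι (HZ n) (X h) (X_deg h) one_pos →
        ∃ k : T ⟶ Spec (CommRingCat.of (R h)), k ≫ y h = g ∧
          k ≫ Spec.map (CommRingCat.ofHom (α h)) = g1 ∧
          k ≫ Spec.map (CommRingCat.ofHom (χ h)) = g2

attribute [instance] Charts.inst Charts.hy

theorem exists_charts {V B : Scheme.{0}} (n : ℕ) [GradedAlgebra (HZ n)]
    (a : B ⟶ Spec (CommRingCat.of ℤ))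
    (c : Proj (HZ n) ⟶ Spec (CommRingCat.of ℤ)) (i : V ⟶ pullback a c) [IsClosedImmersion i]
    (A : Type) [CommRing A] (j : Spec (CommRingCat.of A) ⟶ B) [IsOpenImmersion j] :
    Nonempty (Charts (i ≫ pullback.fst a c) n (i ≫ pullback.snd a c) A j) := by
  choose R hR α χ y hy h1 h2 h3 h4 using fun h : Fin (n + 1) =>
    chartGen a c i A (Away (HZ n) (X h : PZ n)) j (Proj.awayι (HZ n) (X h) (X_deg h) one_pos)
  refine ⟨⟨R, α, χ, y, hy, h1, h2, fun h => ?_, h4⟩⟩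
  have h5 : (eval₂Hom (α h) (fun l => χ h (tl h l))).range = ⊤ := by
    rw [← top_le_iff, ← h3 h, Subring.closure_le]
    rintro r (⟨u, rfl⟩ | ⟨u, rfl⟩)
    · exact ⟨C u, by simp⟩
    · obtain ⟨w, rfl⟩ := tl_surj h u
      refine ⟨MvPolynomial.map (Int.castRingHom A) w, ?_⟩
      have : (eval₂Hom (α h) (fun l => χ h (tl h l))).comp (MvPolynomial.map (Int.castRingHom A)) =
          (χ h).comp (eval₂Hom (Int.castRingHom (Away (HZ n) (X h : PZ n))) (tl h)) := by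
        apply MvPolynomial.ringHom_ext
        · intro r; simp
        · intro l; simp
      exact congrArg (fun q => q w) this
  exact RingHom.range_eq_top.mp h5

/-- `v` is a coordinate vector of the `E`-point `g` over `φ`. -/
def Pt {V B : Scheme.{0}} (p : V ⟶ B) {n : ℕ} [GradedAlgebra (HZ n)]
    (jP : V ⟶ Proj (HZ n)) {A : Type} [CommRing A] (j : Spec (CommRingCat.of A) ⟶ B)
    {E : Type} [Field E] (φ : A →+* E) (g : Spec (CommRingCat.of E) ⟶ V)
    (v : Fin (n + 1) → E) : Prop :=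
  g ≫ p = Spec.map (CommRingCat.ofHom φ) ≫ j ∧ ∃ h, ∃ hv : IsUnit (v h), g ≫ jP = ptZ v h hv

section

variable {V B : Scheme.{0}} {p : V ⟶ B} {n : ℕ} [GradedAlgebra (HZ n)]
    {jP : V ⟶ Proj (HZ n)} {A : Type} [CommRing A] {j : Spec (CommRingCat.of A) ⟶ B}

lemma Pt.ptZ {E : Type} [Field E] {φ : A →+* E} {g : Spec (CommRingCat.of E) ⟶ V}
    {v : Fin (n + 1) → E} (hg : Pt p jP j φ g v) {h : Fin (n + 1)} (hv : IsUnit (v h)) :
    g ≫ jP = ptZ v h hv := by
  obtain ⟨-, h', hv', hg'⟩ := hg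
  rw [hg']
  exact ptZ_eq v h' h hv' hv

lemma Pt.lift (Ch : Charts p n jP A j) {E : Type} [Field E] {φ : A →+* E}
    {g : Spec (CommRingCat.of E) ⟶ V}
    {v : Fin (n + 1) → E} (hg : Pt p jP j φ g v) {h : Fin (n + 1)} (hv : IsUnit (v h)) :
    ∃ ψ : Ch.R h →+* E, g = Spec.map (CommRingCat.ofHom ψ) ≫ Ch.y h ∧ ψ.comp (Ch.α h) = φ ∧
      ∀ l, ψ (Ch.χ h (tl h l)) * v h = v l := by
  obtain ⟨k, hk, hk1, hk2⟩ := Ch.up h _ g _ _ hg.1 (hg.ptZ hv)
  obtain ⟨ψ', rfl⟩ : ∃ ψ', Spec.map ψ' = k := ⟨Spec.preimage k, Spec.map_preimage k⟩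
  refine ⟨ψ'.hom, ?_, ?_, ?_⟩
  · rw [CommRingCat.ofHom_hom, hk]
  · rw [← Spec.map_comp] at hk1
    have := congrArg CommRingCat.Hom.hom (Spec.map_injective hk1)
    simpa using this
  · rw [← Spec.map_comp] at hk2
    have := congrArg CommRingCat.Hom.hom (Spec.map_injective hk2)
    intro l
    have h2 : ψ'.hom (Ch.χ h (tl h l)) = evA v (X h) (isUnit_ev hv) (tl h l) := by
      rw [CommRingCat.hom_comp, CommRingCat.hom_ofHom, CommRingCat.hom_ofHom] at this
      rw [← this]; rfl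
    rw [h2]
    exact evA_tl v h l hv

lemma Pt.of_chart (Ch : Charts p n jP A j) {E : Type} [Field E] (h : Fin (n + 1))
    (ψ : Ch.R h →+* E) : Pt p jP j (ψ.comp (Ch.α h)) (Spec.map (CommRingCat.ofHom ψ) ≫ Ch.y h)
      (fun l => ψ (Ch.χ h (tl h l))) := by
  have hu : IsUnit ((fun l => ψ (Ch.χ h (tl h l))) h) := by
    simp only [tl_self, map_one]; exact isUnit_one
  refine ⟨?_, h, hu, ?_⟩
  · rw [Category.assoc, Ch.hp, CommRingCat.ofHom_comp, Spec.map_comp, Category.assoc]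
  · rw [Category.assoc, Ch.hP, Pool.Agent.TH148.ptZ, ← Category.assoc, ← Spec.map_comp,
      ← CommRingCat.ofHom_comp]
    congr 3
    apply away_ext
    intro l
    apply hu.mul_right_cancel
    rw [evA_tl _ _ _ hu]
    simp only [tl_self, map_one, mul_one, RingHom.comp_apply]

lemma Pt.smul {E : Type} [Field E] {φ : A →+* E} {g : Spec (CommRingCat.of E) ⟶ V}
    {v w : Fin (n + 1) → E} (hg : Pt p jP j φ g v) (c : E) (hc : c ≠ 0) (hw : ∀ l, w l = c * v l) :
    Pt p jP j φ g w := by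
  obtain ⟨h0, h, hv, hg'⟩ := hg
  have hw' : IsUnit (w h) := by rw [hw]; exact hc.isUnit.mul hv
  refine ⟨h0, h, hw', ?_⟩
  rw [hg']
  exact ptZ_of_eq v w h hv hw' fun l => by rw [hw, hw]; ring

lemma Pt.ne_zero {E : Type} [Field E] {φ : A →+* E} {g : Spec (CommRingCat.of E) ⟶ V}
    {v : Fin (n + 1) → E} (hg : Pt p jP j φ g v) : v ≠ 0 := by
  obtain ⟨h0, h, hv, hg'⟩ := hg
  rintro rfl
  exact hv.ne_zero rfl

lemma Pt.eq_iff (Ch : Charts p n jP A j) {E : Type} [Field E] {φ : A →+* E}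
    {g g' : Spec (CommRingCat.of E) ⟶ V}
    {v v' : Fin (n + 1) → E} (hg : Pt p jP j φ g v) (hg' : Pt p jP j φ g' v') :
    g = g' ↔ ∀ a b, v a * v' b = v b * v' a := by
  constructor
  · rintro rfl
    obtain ⟨h, hv, h1⟩ := hg.2
    obtain ⟨h', hv', h1'⟩ := hg'.2
    exact ptZ_inj v v' h h' hv hv' (h1.symm.trans h1')
  · intro hp
    obtain ⟨h, hv, h1⟩ := hg.2
    obtain ⟨h', hv', h1'⟩ := hg'.2
    have hv'' : IsUnit (v' h) := by
      have := (hv.mul hv').ne_zero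
      rw [hp h h'] at this
      exact (right_ne_zero_of_mul this).isUnit
    obtain ⟨ψ, rfl, hψ1, hψ2⟩ := hg.lift Ch hv
    obtain ⟨ψ', rfl, hψ1', hψ2'⟩ := hg'.lift Ch hv''
    congr 3
    ext r
    obtain ⟨Q, rfl⟩ := Ch.surj h r
    have : ψ.comp (eval₂Hom (Ch.α h) (fun l => Ch.χ h (tl h l))) =
        ψ'.comp (eval₂Hom (Ch.α h) (fun l => Ch.χ h (tl h l))) := by
      apply MvPolynomial.ringHom_ext
      · intro r
        have := congrArg (fun q => q r) (hψ1.trans hψ1'.symm)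
        simpa using this
      · intro l
        simp only [RingHom.comp_apply, eval₂Hom_X']
        apply (hv.mul hv'').mul_right_cancel
        calc _ = (ψ (Ch.χ h (tl h l)) * v h) * v' h := by ring
          _ = (ψ' (Ch.χ h (tl h l)) * v' h) * v h := by rw [hψ2, hψ2', hp]; ring
          _ = _ := by ring
    exact congrArg (fun q => q Q) this

end

end Pool.Agent.TH148
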