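import Mathlib
import Pool.Agent.TH148.BrMain

set_option autoImplicit false
open AlgebraicGeometry CategoryTheory CategoryTheory.Limits MvPolynomial HomogeneousLocalization

namespace Pool.Agent.TH148

lemma cover_step {V : Scheme.{0}} {R R' : Type} [CommRing R] [CommRing R']
    (q : Spec (CommRingCat.of R) ⟶ V) (y' : Spec (CommRingCat.of R') ⟶ V) [IsOpenImmersion y']
    (z : Spec (CommRingCat.of R)) (hz : q z ∈ Set.range y') :
    ∃ s : R, s ∉ z.asIdeal ∧ ∃ τ : R' →+* Localization.Away s,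
      Spec.map (CommRingCat.ofHom (algebraMap R (Localization.Away s))) ≫ q =
        Spec.map (CommRingCat.ofHom τ) ≫ y' := by
  have hU : z ∈ q ⁻¹ᵁ y'.opensRange := hz
  obtain ⟨_, ⟨s, rfl⟩, hzs, hs⟩ :=
    (PrimeSpectrum.isTopologicalBasis_basic_opens (R := R)).exists_subset_of_mem_open hU
      (q ⁻¹ᵁ y'.opensRange).isOpen
  refine ⟨s, hzs, ?_⟩
  have hr : Set.range (Spec.map (CommRingCat.ofHom (algebraMap R (Localization.Away s))) ≫ q) ⊆
      Set.range y' := by
    rintro _ ⟨t, rfl⟩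
    have h1 : (Spec.map (CommRingCat.ofHom (algebraMap R (Localization.Away s)))) t ∈
        (PrimeSpectrum.basicOpen s : Set (PrimeSpectrum R)) := by
      rw [← PrimeSpectrum.localization_away_comap_range (Localization.Away s) s]
      exact ⟨t, rfl⟩
    exact hs h1
  refine ⟨(Spec.preimage (IsOpenImmersion.lift y' _ hr)).hom, ?_⟩
  rw [CommRingCat.ofHom_hom, Spec.map_preimage, IsOpenImmersion.lift_fac]

lemma Charts.mem_range {V B : Scheme.{0}} {p : V ⟶ B} {n : ℕ} [GradedAlgebra (HZ n)]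
    {jP : V ⟶ Proj (HZ n)} {A : Type} [CommRing A] {j : Spec (CommRingCat.of A) ⟶ B}
    [IsOpenImmersion j]
    (Ch : Charts p n jP A j) (h : Fin (n + 1)) (z : V) (h1 : p z ∈ Set.range j)
    (h2 : jP z ∈ Proj.basicOpen (HZ n) (X h)) : z ∈ Set.range (Ch.y h) := by
  let g := V.fromSpecResidueField z
  have hg : ∀ t, g t = z := fun t => by
    have : g t ∈ Set.range g := ⟨t, rfl⟩
    rw [Scheme.range_fromSpecResidueField] at this
    exact this
  have hr1 : Set.range (g ≫ p) ⊆ Set.range j := by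
    rintro _ ⟨t, rfl⟩
    rw [Scheme.Hom.comp_apply, hg]; exact h1
  have hr2 : Set.range (g ≫ jP) ⊆ Set.range (Proj.awayι (HZ n) (X h) (X_deg h) one_pos) := by
    rintro _ ⟨t, rfl⟩
    rw [Scheme.Hom.comp_apply, hg]
    have := h2
    rw [← Proj.opensRange_awayι (HZ n) (X h) (X_deg h) one_pos] at this
    exact this
  obtain ⟨k, hk, -⟩ := Ch.up h _ g (IsOpenImmersion.lift j _ hr1)
    (IsOpenImmersion.lift (Proj.awayι (HZ n) (X h) (X_deg h) one_pos) _ hr2)
    (IsOpenImmersion.lift_fac _ _ _).symm (IsOpenImmersion.lift_fac _ _ _).symm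
  obtain ⟨t⟩ : Nonempty (Spec (V.residueField z)) := inferInstance
  exact ⟨k t, by rw [← Scheme.Hom.comp_apply, hk, hg]⟩

lemma iSup_basicOpen_X (n : ℕ) [GradedAlgebra (HZ n)] (z : Proj (HZ n)) :
    ∃ h, z ∈ Proj.basicOpen (HZ n) (X h) := by
  have h1 := Proj.iSup_basicOpen_eq_top' (HZ n) (ι := Fin (n + 1)) (fun h => X h)
    (fun i => ⟨1, X_deg i⟩) (by
      rw [eq_top_iff]
      intro P _
      have : P ∈ Algebra.adjoin ℤ (Set.range fun h : Fin (n + 1) => (X h : PZ n)) := by
        rw [MvPolynomial.adjoin_range_X]; trivial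
      induction this using Algebra.adjoin_induction with
      | mem x hx => exact Algebra.subset_adjoin hx
      | algebraMap r => 
        have := Subalgebra.algebraMap_mem (Algebra.adjoin (HZ n 0) (Set.range fun h : Fin (n + 1) => (X h : PZ n))) (r : HZ n 0)
        simpa using this
      | add x y _ _ hx hy => exact add_mem (hx trivial) (hy trivial)
      | mul x y _ _ hx hy => exact mul_mem (hx trivial) (hy trivial))
  have h2 : z ∈ (⨆ i, Proj.basicOpen (HZ n) (X i : PZ n)) := by rw [h1]; trivial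
  rwa [TopologicalSpace.Opens.mem_iSup] at h2

end Pool.Agent.TH148
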