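import Mathlib
import Pool.Agent.TH148.BrPts

set_option autoImplicit false
open MvPolynomial

namespace Pool.Agent.TH148

/-- homogenisation with respect to the variable `h` in degree `D`. -/
noncomputable def hmg {A : Type} [CommRing A] {σ : Type} (h : σ) (D : ℕ)
    (Q : MvPolynomial σ A) : MvPolynomial σ A :=
  ∑ k ∈ Finset.range (D + 1), X h ^ (D - k) * homogeneousComponent k Q

lemma hmg_isHomogeneous {A : Type} [CommRing A] {σ : Type} (h : σ) (D : ℕ)
    (Q : MvPolynomial σ A) : (hmg h D Q).IsHomogeneous D := by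
  apply MvPolynomial.IsHomogeneous.sum
  intro k hk
  rw [Finset.mem_range] at hk
  have := (isHomogeneous_X_pow (R := A) h (D - k)).mul (homogeneousComponent_isHomogeneous k Q)
  rwa [Nat.sub_add_cancel (by omega)] at this

lemma sum_hc {A : Type} [CommRing A] {σ : Type} (D : ℕ)
    (Q : MvPolynomial σ A) (hD : Q.totalDegree ≤ D) :
    ∑ k ∈ Finset.range (D + 1), homogeneousComponent k Q = Q := by
  conv_rhs => rw [← sum_homogeneousComponent Q]
  symm
  apply Finset.sum_subset
  · intro k hk; rw [Finset.mem_range] at *; omega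
  · intro k _ hk
    apply homogeneousComponent_eq_zero
    rw [Finset.mem_range] at hk; omega

lemma hmg_eval {A : Type} [CommRing A] {σ : Type} (h : σ) (D : ℕ)
    (Q : MvPolynomial σ A) (hD : Q.totalDegree ≤ D) {S : Type} [CommRing S] (φ : A →+* S)
    (v u : σ → S) (huv : ∀ l, u l * v h = v l) :
    eval₂ φ v (hmg h D Q) = (v h) ^ D * eval₂ φ u Q := by
  conv_rhs => rw [← sum_hc D Q hD]
  rw [hmg, eval₂_sum, eval₂_sum, Finset.mul_sum]
  refine Finset.sum_congr rfl fun k hk => ?_
  rw [Finset.mem_range] at hk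
  have hv : v = fun l => v h * u l := by funext l; rw [mul_comm, huv]
  have h1 : eval₂ φ v (homogeneousComponent k Q) = (v h) ^ k * eval₂ φ u (homogeneousComponent k Q) := by
    conv_lhs => rw [hv]
    exact eval₂_smul_hom φ _ (homogeneousComponent_isHomogeneous k Q) _ _
  rw [eval₂_mul, h1, ← mul_assoc, eval₂_pow, eval₂_X, ← pow_add, Nat.sub_add_cancel (by omega)]

end Pool.Agent.TH148
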