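import Mathlib
import Pool.Agent.TH148.BrMain
import Pool.Agent.TH148.BrHom

set_option autoImplicit false
open AlgebraicGeometry CategoryTheory CategoryTheory.Limits MvPolynomial HomogeneousLocalization

namespace Pool.Agent.TH148

theorem oneForm {V B : Scheme.{0}} {p : V ⟶ B} {n : ℕ} [GradedAlgebra (HZ n)]
    {jP : V ⟶ Proj (HZ n)} {A : Type} [CommRing A] {j : Spec (CommRingCat.of A) ⟶ B} [Mono j]
    (Ch : Charts p n jP A j) (f : V ⟶ V) (hf : f ≫ p = p) (h h' : Fin (n + 1))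
    (s : Ch.R h) (τ : Ch.R h' →+* Localization.Away s)
    (hτ : Spec.map (CommRingCat.ofHom (algebraMap (Ch.R h) (Localization.Away s))) ≫ Ch.y h ≫ f =
        Spec.map (CommRingCat.ofHom τ) ≫ Ch.y h') :
    ∃ F : Fin (n + 1) → MvPolynomial (Fin (n + 1)) A,
      (∃ d, ∀ a, (F a).IsHomogeneous d) ∧
      (∀ (E : Type) [Field E] (φ : A →+* E) (v : Fin (n + 1) → E), v h = 0 →
        ∀ a, eval₂ φ v (F a) = 0) ∧
      (∀ (E : Type) [Field E] (φ : A →+* E) (g : Spec (CommRingCat.of E) ⟶ V)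
        (v : Fin (n + 1) → E), Pt p jP j φ g v → (∃ a, eval₂ φ v (F a) ≠ 0) →
        Pt p jP j φ (g ≫ f) (fun a => eval₂ φ v (F a))) ∧
      (∀ (E : Type) [Field E] (φ : A →+* E) (v : Fin (n + 1) → E) (ψ : Ch.R h →+* E),
        ψ.comp (Ch.α h) = φ → (∀ l, ψ (Ch.χ h (tl h l)) * v h = v l) → v h ≠ 0 → ψ s ≠ 0 →
        ∃ a, eval₂ φ v (F a) ≠ 0) := by
  classical
  obtain ⟨b, hb⟩ := IsLocalization.exist_integer_multiples_of_finite (Submonoid.powers s)
    (fun a : Fin (n + 1) => τ (Ch.χ h' (tl h' a)))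
  choose c hc using hb
  obtain ⟨M, hM⟩ := b.2
  obtain ⟨S, hS⟩ := Ch.surj h s
  choose Q hQ using fun a => Ch.surj h (c a)
  let D := ∑ a, (S * Q a).totalDegree
  have hD : ∀ a, (S * Q a).totalDegree ≤ D := fun a =>
    Finset.single_le_sum (f := fun a => (S * Q a).totalDegree) (fun _ _ => Nat.zero_le _)
      (Finset.mem_univ a)
  let F : Fin (n + 1) → MvPolynomial (Fin (n + 1)) A := fun a => X h * hmg h D (S * Q a)
  have hc' : ∀ a, algebraMap (Ch.R h) (Localization.Away s) (c a) =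
      (algebraMap (Ch.R h) (Localization.Away s) s) ^ M * τ (Ch.χ h' (tl h' a)) := by
    intro a
    rw [hc a, Algebra.smul_def, ← hM, map_pow]
  have key : ∀ (E : Type) [Field E] (φ : A →+* E) (v : Fin (n + 1) → E) (ψ : Ch.R h →+* E),
        ψ.comp (Ch.α h) = φ → (∀ l, ψ (Ch.χ h (tl h l)) * v h = v l) →
        ∀ a, eval₂ φ v (F a) = (v h) ^ (D + 1) * (ψ s * ψ (c a)) := by
    intro E _ φ v ψ h1 h2 a
    have h3 : ∀ P : MvPolynomial (Fin (n + 1)) A, eval₂ φ (fun l => ψ (Ch.χ h (tl h l))) P =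
        ψ (eval₂Hom (Ch.α h) (fun l => Ch.χ h (tl h l)) P) := by
      intro P
      rw [coe_eval₂Hom, hom_eval₂, h1]
    simp only [F]
    rw [eval₂_mul, eval₂_X, hmg_eval h D _ (hD a) φ v (fun l => ψ (Ch.χ h (tl h l))) h2, h3,
      map_mul, hS, hQ, map_mul]
    ring
  refine ⟨F, ⟨1 + D, fun a => (isHomogeneous_X _ _).mul (hmg_isHomogeneous _ _ _)⟩, ?_, ?_, ?_⟩
  · intro E _ φ v hv a
    simp only [F]
    rw [eval₂_mul, eval₂_X, hv, zero_mul]
  · intro E _ φ g v hg ⟨a, ha⟩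
    have hv : IsUnit (v h) := by
      rw [isUnit_iff_ne_zero]
      intro hv
      apply ha
      simp only [F]
      rw [eval₂_mul, eval₂_X, hv, zero_mul]
    obtain ⟨ψ, hψ, hψ1, hψ2⟩ := hg.lift Ch hv
    have hψs : ψ s ≠ 0 := by
      intro h0
      apply ha
      rw [key E φ v ψ hψ1 hψ2 a, h0]; ring
    let ψ' : Localization.Away s →+* E := IsLocalization.Away.lift s (g := ψ) hψs.isUnit
    have hψ' : ψ'.comp (algebraMap (Ch.R h) (Localization.Away s)) = ψ :=
      IsLocalization.Away.lift_comp s hψs.isUnit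
    have hgf : g ≫ f = Spec.map (CommRingCat.ofHom (ψ'.comp τ)) ≫ Ch.y h' := by
      rw [CommRingCat.ofHom_comp, Spec.map_comp, Category.assoc, ← hτ, ← Category.assoc,
        ← Spec.map_comp, ← CommRingCat.ofHom_comp, hψ', hψ, Category.assoc]
    have hPt := Pt.of_chart Ch h' (ψ'.comp τ)
    rw [← hgf] at hPt
    have hφ : (ψ'.comp τ).comp (Ch.α h') = φ := by
      have h1 := hPt.1
      rw [Category.assoc, hf, hg.1, cancel_mono] at h1
      have := congrArg CommRingCat.Hom.hom (Spec.map_injective h1)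
      simpa using this.symm
    rw [hφ] at hPt
    refine hPt.smul ((v h) ^ (D + 1) * (ψ s * (ψ s) ^ M)) ?_ ?_
    · exact mul_ne_zero (pow_ne_zero _ hv.ne_zero) (mul_ne_zero hψs (pow_ne_zero _ hψs))
    · intro l
      rw [key E φ v ψ hψ1 hψ2 l]
      have h1 : ψ (c l) = (ψ s) ^ M * (ψ'.comp τ) (Ch.χ h' (tl h' l)) := by
        rw [← hψ', RingHom.comp_apply, hc', map_mul, map_pow]
        rfl
      rw [h1]; ring
  · intro E _ φ v ψ h1 h2 hv hs
    refine ⟨h', ?_⟩
    rw [key E φ v ψ h1 h2 h']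
    let ψ' : Localization.Away s →+* E := IsLocalization.Away.lift s (g := ψ) hs.isUnit
    have hψ' : ψ'.comp (algebraMap (Ch.R h) (Localization.Away s)) = ψ :=
      IsLocalization.Away.lift_comp s hs.isUnit
    have h3 : ψ (c h') = (ψ s) ^ M := by
      conv_lhs => rw [← hψ']
      rw [RingHom.comp_apply, hc', tl_self, map_one, map_one, mul_one, map_pow]
      conv_rhs => rw [← hψ']
      rfl
    rw [h3]
    exact mul_ne_zero (pow_ne_zero _ hv) (mul_ne_zero hs (pow_ne_zero _ hs))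

end Pool.Agent.TH148
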