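import Mathlib
import Pool.Agent.TH148.BrForm
import Pool.Agent.TH148.BrCover

set_option autoImplicit false
open AlgebraicGeometry CategoryTheory CategoryTheory.Limits MvPolynomial HomogeneousLocalization

namespace Pool.Agent.TH148

theorem family {V B : Scheme.{0}} {p : V ⟶ B} {n : ℕ} [GradedAlgebra (HZ n)]
    {jP : V ⟶ Proj (HZ n)} {A : Type} [CommRing A] {j : Spec (CommRingCat.of A) ⟶ B}
    [IsOpenImmersion j]
    (Ch : Charts p n jP A j) (f : V ⟶ V) (hf : f ≫ p = p) :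
    ∃ 𝓕 : Set (Fin (n + 1) → MvPolynomial (Fin (n + 1)) A), 𝓕.Finite ∧
      (∀ F ∈ 𝓕, ∃ d, ∀ a, (F a).IsHomogeneous d) ∧
      (∀ F ∈ 𝓕, ∀ (E : Type) [Field E] (φ : A →+* E) (v : Fin (n + 1) → E), v = 0 →
        ∀ a, eval₂ φ v (F a) = 0) ∧
      (∀ F ∈ 𝓕, ∀ (E : Type) [Field E] (φ : A →+* E) (g : Spec (CommRingCat.of E) ⟶ V)
        (v : Fin (n + 1) → E), Pt p jP j φ g v → (∃ a, eval₂ φ v (F a) ≠ 0) →
        Pt p jP j φ (g ≫ f) (fun a => eval₂ φ v (F a))) ∧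
      (∀ (E : Type) [Field E] (φ : A →+* E) (g : Spec (CommRingCat.of E) ⟶ V)
        (v : Fin (n + 1) → E), Pt p jP j φ g v → ∃ F ∈ 𝓕, ∃ a, eval₂ φ v (F a) ≠ 0) := by
  classical
  let S : ∀ h, Set (Ch.R h) := fun h => {s | ∃ h', ∃ τ : Ch.R h' →+* Localization.Away s,
    Spec.map (CommRingCat.ofHom (algebraMap (Ch.R h) (Localization.Away s))) ≫ Ch.y h ≫ f =
        Spec.map (CommRingCat.ofHom τ) ≫ Ch.y h'}
  have hS : ∀ h, Ideal.span (S h) = ⊤ := by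
    intro h
    by_contra hne
    obtain ⟨P, hP, hle⟩ := Ideal.exists_le_maximal _ hne
    let z : Spec (CommRingCat.of (Ch.R h)) := ⟨P, hP.isPrime⟩
    obtain ⟨h', hh'⟩ := iSup_basicOpen_X n (jP ((Ch.y h ≫ f) z))
    have hz : (Ch.y h ≫ f) z ∈ Set.range (Ch.y h') := by
      apply Ch.mem_range h' _ _ hh'
      rw [← Scheme.Hom.comp_apply, Category.assoc, hf, Ch.hp]
      exact ⟨_, rfl⟩
    obtain ⟨s, hs, τ, hτ⟩ := cover_step (Ch.y h ≫ f) (Ch.y h') z hz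
    exact hs (hle (Ideal.subset_span ⟨h', τ, hτ⟩))
  have hT : ∀ h, ∃ T : Finset (Ch.R h), (T : Set (Ch.R h)) ⊆ S h ∧
      Ideal.span (T : Set (Ch.R h)) = ⊤ := fun h =>
    (Ideal.span_eq_top_iff_finite _).mp (hS h)
  choose T hTS hTt using hT
  have hF : ∀ h (s : T h), ∃ F : Fin (n + 1) → MvPolynomial (Fin (n + 1)) A,
      (∃ d, ∀ a, (F a).IsHomogeneous d) ∧
      (∀ (E : Type) [Field E] (φ : A →+* E) (v : Fin (n + 1) → E), v h = 0 →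
        ∀ a, eval₂ φ v (F a) = 0) ∧
      (∀ (E : Type) [Field E] (φ : A →+* E) (g : Spec (CommRingCat.of E) ⟶ V)
        (v : Fin (n + 1) → E), Pt p jP j φ g v → (∃ a, eval₂ φ v (F a) ≠ 0) →
        Pt p jP j φ (g ≫ f) (fun a => eval₂ φ v (F a))) ∧
      (∀ (E : Type) [Field E] (φ : A →+* E) (v : Fin (n + 1) → E) (ψ : Ch.R h →+* E),
        ψ.comp (Ch.α h) = φ → (∀ l, ψ (Ch.χ h (tl h l)) * v h = v l) → v h ≠ 0 → ψ s ≠ 0 →
        ∃ a, eval₂ φ v (F a) ≠ 0) := by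
    intro h s
    obtain ⟨h', τ, hτ⟩ := hTS h s.2
    exact oneForm Ch f hf h h' s τ hτ
  choose F hF1 hF2 hF3 hF4 using hF
  refine ⟨⋃ h, Set.range (F h), Set.finite_iUnion fun h => Set.finite_range _, ?_, ?_, ?_, ?_⟩
  · intro G hG
    obtain ⟨h, s, rfl⟩ := Set.mem_iUnion.mp hG
    exact hF1 h s
  · intro G hG E _ φ v hv
    obtain ⟨h, s, rfl⟩ := Set.mem_iUnion.mp hG
    exact hF2 h s E φ v (by rw [hv]; rfl)
  · intro G hG
    obtain ⟨h, s, rfl⟩ := Set.mem_iUnion.mp hG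
    exact hF3 h s
  · intro E _ φ g v hg
    obtain ⟨h, hv, -⟩ := hg.2
    obtain ⟨ψ, hψ, hψ1, hψ2⟩ := hg.lift Ch hv
    have : ∃ s ∈ T h, ψ s ≠ 0 := by
      by_contra hcon
      push Not at hcon
      have hle : Ideal.span (T h : Set (Ch.R h)) ≤ RingHom.ker ψ := by
        rw [Ideal.span_le]
        intro s hs
        exact hcon s hs
      rw [hTt h, top_le_iff] at hle
      exact RingHom.ker_ne_top ψ hle
    obtain ⟨s, hs, hψs⟩ := this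
    refine ⟨F h ⟨s, hs⟩, Set.mem_iUnion.mpr ⟨h, ⟨s, hs⟩, rfl⟩, ?_⟩
    exact hF4 h ⟨s, hs⟩ E φ v ψ hψ1 hψ2 hv.ne_zero hψs

end Pool.Agent.TH148
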