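import Mathlib

set_option autoImplicit false

namespace Pool.Agent.TH148

open MvPolynomial

/-- Explicit data over a ring `A`: a projective scheme `V(I) ⊂ P^N_A`, an endomorphism of it given by
a finite family `𝓕` of tuples of forms, and a section `x₀`. -/
structure CData (A : Type) [CommRing A] (N : ℕ) (I : Ideal (MvPolynomial (Fin (N + 1)) A))
    (𝓕 : Set (Fin (N + 1) → MvPolynomial (Fin (N + 1)) A)) (x₀ : Fin (N + 1) → A) : Prop where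
  hom : ∃ G : Set (MvPolynomial (Fin (N + 1)) A), G.Finite ∧ (∀ g ∈ G, ∃ d, g.IsHomogeneous d) ∧
    I = Ideal.span G
  fin : 𝓕.Finite
  tup : ∀ F ∈ 𝓕, ∃ d, ∀ a, (F a).IsHomogeneous d
  uni : ∀ i, ∃ M : ℕ, (X i : MvPolynomial (Fin (N + 1)) A) ^ M ∈
    I ⊔ Ideal.span {P | ∃ F ∈ 𝓕, ∃ a, P = F a}
  prop : ∀ F ∈ 𝓕, ∀ F' ∈ 𝓕, ∀ a b, F a * F' b - F b * F' a ∈ I
  stab : ∀ P ∈ I, ∀ F ∈ 𝓕, bind₁ F P ∈ I
  x1 : ∃ i, x₀ i = 1
  xI : ∀ P ∈ I, eval x₀ P = 0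

/-- `w` is an orbit of `x₀` over the field `E` (in homogeneous coordinates). -/
def IsOrbit {A : Type} [CommRing A] {N : ℕ}
    (𝓕 : Set (Fin (N + 1) → MvPolynomial (Fin (N + 1)) A)) (x₀ : Fin (N + 1) → A)
    {E : Type} [Field E] (φ : A →+* E) (w : ℕ → Fin (N + 1) → E) : Prop :=
  w 0 = (fun a => φ (x₀ a)) ∧
    ∀ n, w (n + 1) ≠ 0 ∧ ∃ F ∈ 𝓕, ∀ a, w (n + 1) a = eval₂ φ (w n) (F a)

/-- iterated compositions (apply an element of `𝓕` first). -/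
def Comp {R : Type} [CommRing R] {N : ℕ} (𝓕 : Set (Fin (N + 1) → MvPolynomial (Fin (N + 1)) R)) :
    ℕ → Set (Fin (N + 1) → MvPolynomial (Fin (N + 1)) R)
  | 0 => {fun a => X a}
  | n + 1 => {G | ∃ F ∈ 𝓕, ∃ F' ∈ Comp 𝓕 n, G = fun a => bind₁ F (F' a)}

end Pool.Agent.TH148
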