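import Mathlib
import Pool.Agent.TH148.BrFam
import Pool.Agent.TH148.CDefs

set_option autoImplicit false
open AlgebraicGeometry CategoryTheory CategoryTheory.Limits MvPolynomial HomogeneousLocalization

namespace Pool.Agent.TH148

/-- The forms vanishing on the cone over `X_A`. -/
def VanS {V B : Scheme.{0}} (p : V ⟶ B) (n : ℕ) [GradedAlgebra (HZ n)]
    (jP : V ⟶ Proj (HZ n)) (A : Type) [CommRing A] (j : Spec (CommRingCat.of A) ⟶ B) :
    Set (MvPolynomial (Fin (n + 1)) A) :=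
  {P | (∃ d, P.IsHomogeneous d) ∧ ∀ (E : Type) [Field E] (φ : A →+* E) (v : Fin (n + 1) → E),
    (v = 0 ∨ ∃ g, Pt p jP j φ g v) → eval₂ φ v P = 0}

section

variable {V B : Scheme.{0}} {p : V ⟶ B} {n : ℕ} [GradedAlgebra (HZ n)]
    {jP : V ⟶ Proj (HZ n)} {A : Type} [CommRing A] {j : Spec (CommRingCat.of A) ⟶ B}

/-- a point of the cone defined by `VanS` is a coordinate vector. -/
theorem exists_pt (Ch : Charts p n jP A j) {E : Type} [Field E] (φ : A →+* E)
    (v : Fin (n + 1) → E) (i : Fin (n + 1)) (hi : v i ≠ 0)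
    (hv : ∀ P ∈ VanS p n jP A j, eval₂ φ v P = 0) : ∃ g, Pt p jP j φ g v := by
  let u : Fin (n + 1) → E := fun l => v l / v i
  have hu : ∀ l, u l * v i = v l := fun l => div_mul_cancel₀ _ hi
  let π := eval₂Hom (Ch.α i) (fun l => Ch.χ i (tl i l))
  have hker : RingHom.ker π ≤ RingHom.ker (eval₂Hom φ u) := by
    intro Q hQ
    rw [RingHom.mem_ker] at hQ ⊢
    let P := X i * hmg i Q.totalDegree Q
    have hP : P ∈ VanS p n jP A j := by
      refine ⟨⟨_, (isHomogeneous_X _ _).mul (hmg_isHomogeneous _ _ _)⟩, ?_⟩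
      intro E' _ φ' v' hcone
      by_cases hv'i : v' i = 0
      · simp only [P]
        rw [eval₂_mul, eval₂_X, hv'i, zero_mul]
      rcases hcone with rfl | ⟨g', hg'⟩
      · exact absurd rfl hv'i
      obtain ⟨ψ, hψ, hψ1, hψ2⟩ := hg'.lift Ch (isUnit_iff_ne_zero.mpr hv'i)
      simp only [P]
      rw [eval₂_mul, eval₂_X, hmg_eval i _ Q le_rfl φ' v' (fun l => ψ (Ch.χ i (tl i l))) hψ2]
      have : eval₂ φ' (fun l => ψ (Ch.χ i (tl i l))) Q = ψ (π Q) := by
        simp only [π]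
        rw [coe_eval₂Hom, hom_eval₂, hψ1]
      rw [this, hQ, map_zero, mul_zero, mul_zero]
    have h1 := hv P hP
    simp only [P] at h1
    rw [eval₂_mul, eval₂_X, hmg_eval i _ Q le_rfl φ v u hu] at h1
    rcases mul_eq_zero.mp h1 with h2 | h2
    · exact absurd h2 hi
    rcases mul_eq_zero.mp h2 with h3 | h3
    · exact absurd h3 (pow_ne_zero _ hi)
    · exact h3
  let ψ : Ch.R i →+* E := RingHom.liftOfSurjective π (Ch.surj i) ⟨eval₂Hom φ u, hker⟩
  have hψ : ∀ Q, ψ (π Q) = eval₂Hom φ u Q := fun Q =>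
    RingHom.liftOfRightInverse_comp_apply _ _ _ _ Q
  refine ⟨Spec.map (CommRingCat.ofHom ψ) ≫ Ch.y i, ?_⟩
  have h1 : ψ.comp (Ch.α i) = φ := by
    ext a
    have := hψ (C a)
    simpa [π] using this
  have h2 : ∀ l, ψ (Ch.χ i (tl i l)) = u l := by
    intro l
    have := hψ (X l)
    simpa [π] using this
  have h3 := Pt.of_chart Ch i ψ
  rw [h1] at h3
  refine h3.smul (v i) hi fun l => ?_
  rw [h2, mul_comm, hu]

theorem cdata [IsDomain A] [IsNoetherianRing A] (Ch : Charts p n jP A j)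
    (f : V ⟶ V)
    (𝓕 : Set (Fin (n + 1) → MvPolynomial (Fin (n + 1)) A)) (hfin : 𝓕.Finite)
    (h1 : ∀ F ∈ 𝓕, ∃ d, ∀ a, (F a).IsHomogeneous d)
    (h2 : ∀ F ∈ 𝓕, ∀ (E : Type) [Field E] (φ : A →+* E) (v : Fin (n + 1) → E), v = 0 →
        ∀ a, eval₂ φ v (F a) = 0)
    (h3 : ∀ F ∈ 𝓕, ∀ (E : Type) [Field E] (φ : A →+* E) (g : Spec (CommRingCat.of E) ⟶ V)
        (v : Fin (n + 1) → E), Pt p jP j φ g v → (∃ a, eval₂ φ v (F a) ≠ 0) →
        Pt p jP j φ (g ≫ f) (fun a => eval₂ φ v (F a)))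
    (h4 : ∀ (E : Type) [Field E] (φ : A →+* E) (g : Spec (CommRingCat.of E) ⟶ V)
        (v : Fin (n + 1) → E), Pt p jP j φ g v → ∃ F ∈ 𝓕, ∃ a, eval₂ φ v (F a) ≠ 0)
    (x₀ : Fin (n + 1) → A) (hx1 : ∃ i, x₀ i = 1)
    (hx : ∀ (E : Type) [Field E] (φ : A →+* E), ∃ g, Pt p jP j φ g (fun a => φ (x₀ a))) :
    CData A n (Ideal.span (VanS p n jP A j)) 𝓕 x₀ := by
  classical
  have cone : ∀ F ∈ 𝓕, ∀ (E : Type) [Field E] (φ : A →+* E) (v : Fin (n + 1) → E),
      (v = 0 ∨ ∃ g, Pt p jP j φ g v) →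
      ((fun a => eval₂ φ v (F a)) = 0 ∨ ∃ g, Pt p jP j φ g (fun a => eval₂ φ v (F a))) := by
    intro F hF E _ φ v hv
    by_cases h0 : ∃ a, eval₂ φ v (F a) ≠ 0
    · rcases hv with hv | ⟨g, hg⟩
      · obtain ⟨a, ha⟩ := h0
        exact absurd (h2 F hF E φ v hv a) ha
      · exact Or.inr ⟨_, h3 F hF E φ g v hg h0⟩
    · push Not at h0
      exact Or.inl (funext h0)
  refine ⟨?_, hfin, h1, ?_, ?_, ?_, hx1, ?_⟩
  · have hfg : (Ideal.span (VanS p n jP A j)).FG := IsNoetherian.noetherian _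
    obtain ⟨G, hG, hG'⟩ := (Submodule.fg_span_iff_fg_span_finset_subset _).mp hfg
    exact ⟨G, G.finite_toSet, fun g hg => (hG hg).1, hG'⟩
  · intro i
    set K := Ideal.span (VanS p n jP A j) ⊔ Ideal.span {P | ∃ F ∈ 𝓕, ∃ a, P = F a} with hK
    suffices (X i : MvPolynomial (Fin (n + 1)) A) ∈ K.radical from this
    by_contra hcon
    rw [Ideal.radical_eq_sInf, Ideal.mem_sInf] at hcon
    push Not at hcon
    obtain ⟨𝔭, ⟨hle, hprime⟩, hXi⟩ := hcon
    let E := FractionRing (MvPolynomial (Fin (n + 1)) A ⧸ 𝔭)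
    let θ : MvPolynomial (Fin (n + 1)) A →+* E := (algebraMap _ E).comp (Ideal.Quotient.mk 𝔭)
    have hθ : ∀ P, θ P = 0 ↔ P ∈ 𝔭 := by
      intro P
      simp only [θ, RingHom.comp_apply]
      rw [← Ideal.Quotient.eq_zero_iff_mem]
      exact IsFractionRing.to_map_eq_zero_iff
    have hev : ∀ P, eval₂ (θ.comp C) (fun l => θ (X l)) P = θ P := by
      intro P
      have : eval₂Hom (θ.comp C) (fun l => θ (X l)) = θ := by
        apply MvPolynomial.ringHom_ext
        · intro r; simp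
        · intro l; simp
      exact congrArg (fun q => q P) this
    have hvi : θ (X i) ≠ 0 := by rw [Ne, hθ]; exact hXi
    obtain ⟨g, hg⟩ := exists_pt Ch (θ.comp C) (fun l => θ (X l)) i hvi (by
      intro P hP
      rw [hev, hθ]
      exact hle (Ideal.mem_sup_left (Ideal.subset_span hP)))
    obtain ⟨F, hF, a, ha⟩ := h4 E _ g _ hg
    apply ha
    rw [hev, hθ]
    exact hle (Ideal.mem_sup_right (Ideal.subset_span ⟨F, hF, a, rfl⟩))
  · intro F hF F' hF' a b
    apply Ideal.subset_span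
    obtain ⟨d, hd⟩ := h1 F hF
    obtain ⟨d', hd'⟩ := h1 F' hF'
    refine ⟨⟨d + d', ((hd a).mul (hd' b)).sub ((hd b).mul (hd' a))⟩, ?_⟩
    intro E _ φ v hv
    rw [eval₂_sub, eval₂_mul, eval₂_mul, sub_eq_zero]
    by_cases h0 : ∃ a, eval₂ φ v (F a) ≠ 0
    · by_cases h0' : ∃ a, eval₂ φ v (F' a) ≠ 0
      · rcases hv with hv | ⟨g, hg⟩
        · obtain ⟨c, hc⟩ := h0
          exact absurd (h2 F hF E φ v hv c) hc
        · exact ((h3 F hF E φ g v hg h0).eq_iff Ch (h3 F' hF' E φ g v hg h0')).mp rfl a b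
      · push Not at h0'
        rw [h0' a, h0' b]; ring
    · push Not at h0
      rw [h0 a, h0 b]; ring
  · intro P hP F hF
    have hle : Ideal.span (VanS p n jP A j) ≤
        Ideal.comap (bind₁ F : _ →ₐ[A] _).toRingHom (Ideal.span (VanS p n jP A j)) := by
      rw [Ideal.span_le]
      rintro Q ⟨⟨e, he⟩, hQ⟩
      apply Ideal.subset_span
      obtain ⟨d, hd⟩ := h1 F hF
      refine ⟨⟨d * e, ?_⟩, ?_⟩
      · have := he.eval₂ (n := d) C F (fun r => isHomogeneous_C _ _) hd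
        exact this
      · intro E _ φ v hv
        have h5 : eval₂ φ v (bind₁ F Q) = eval₂ φ (fun a => eval₂ φ v (F a)) Q := by
          have := eval₂Hom_bind₁ φ v F Q
          simpa using this
        change eval₂ φ v (bind₁ F Q) = 0
        rw [h5]
        exact hQ E φ _ (cone F hF E φ v hv)
    exact hle hP
  · intro P hP
    have hle : Ideal.span (VanS p n jP A j) ≤ RingHom.ker (MvPolynomial.eval x₀) := by
      rw [Ideal.span_le]
      rintro Q ⟨-, hQ⟩
      obtain ⟨g, hg⟩ := hx (FractionRing A) (algebraMap A _)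
      have h5 := hQ (FractionRing A) (algebraMap A _) _ (Or.inr ⟨g, hg⟩)
      have h6 : eval₂ (algebraMap A (FractionRing A)) (fun a => algebraMap A _ (x₀ a)) Q =
          algebraMap A (FractionRing A) (MvPolynomial.eval x₀ Q) := by
        rw [MvPolynomial.eval, coe_eval₂Hom, hom_eval₂, RingHom.comp_id]
      rw [h6] at h5
      exact (IsFractionRing.to_map_eq_zero_iff.mp h5)
    exact hle hP

end

end Pool.Agent.TH148
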