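import Mathlib
import Pool.Agent.TH148.BrData

set_option autoImplicit false
open AlgebraicGeometry CategoryTheory CategoryTheory.Limits

namespace Pool.Agent.TH148

theorem Bridge (B X : Scheme.{0}) (s : B ⟶ Spec (CommRingCat.of (AlgebraicClosure ℚ)))
      (p : X ⟶ B) (f : X ⟶ X) (x : B ⟶ X)
      (hB : AlgebraicGeometry.IsIntegral B)
      (hs1 : AlgebraicGeometry.LocallyOfFiniteType s)
      (hP : ∃ (n : ℕ) (_ : GradedAlgebra (MvPolynomial.homogeneousSubmodule (Fin (n + 1)) ℤ))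
        (a : B ⟶ Spec (CommRingCat.of ℤ))
        (c : Proj (MvPolynomial.homogeneousSubmodule (Fin (n + 1)) ℤ) ⟶ Spec (CommRingCat.of ℤ))
        (i : X ⟶ pullback a c),
        AlgebraicGeometry.IsClosedImmersion i ∧ i ≫ pullback.fst a c = p)
      (hf : f ≫ p = p)
      (hx : x ≫ p = 𝟙 B) :
    ∃ (A : Type) (_ : CommRing A) (_ : IsDomain A) (_ : Algebra (AlgebraicClosure ℚ) A)
      (_ : Algebra.FiniteType (AlgebraicClosure ℚ) A)
      (j : Spec (CommRingCat.of A) ⟶ B) (_ : IsOpenImmersion j)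
      (_ : j ≫ s = Spec.map (CommRingCat.ofHom (algebraMap (AlgebraicClosure ℚ) A)))
      (N : ℕ) (I : Ideal (MvPolynomial (Fin (N + 1)) A))
      (𝓕 : Set (Fin (N + 1) → MvPolynomial (Fin (N + 1)) A)) (x₀ : Fin (N + 1) → A),
      CData A N I 𝓕 x₀ ∧
      ∀ (E : Type) [Field E] (φ : A →+* E) (w : ℕ → Fin (N + 1) → E), IsOrbit 𝓕 x₀ φ w →
        ∀ n m : ℕ,
          ((fun g : Spec (CommRingCat.of E) ⟶ X => g ≫ f)^[n]
              (Spec.map (CommRingCat.ofHom φ) ≫ j ≫ x) =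
            (fun g : Spec (CommRingCat.of E) ⟶ X => g ≫ f)^[m]
              (Spec.map (CommRingCat.ofHom φ) ≫ j ≫ x)) ↔
          ∀ a b, w n a * w m b = w n b * w m a := by
  obtain ⟨N, inst, a, c, i, hi, hip⟩ := hP
  let jP : X ⟶ Proj (HZ N) := i ≫ pullback.snd a c
  obtain ⟨b⟩ : Nonempty B := hB.nonempty
  obtain ⟨h₀, hh₀⟩ := iSup_basicOpen_X N (jP (x b))
  have hbW : b ∈ (x ≫ jP) ⁻¹ᵁ (Proj.basicOpen (HZ N) (MvPolynomial.X h₀)) := by
    simpa using hh₀
  obtain ⟨R, j, hj, hbj, hjW⟩ := Scheme.exists_affine_mem_range_and_range_subset hbW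
  let A : Type := R
  have hA : IsDomain A := by
    have : Nonempty (Spec R) := ⟨hbj.choose⟩
    have : AlgebraicGeometry.IsIntegral (Spec R) := isIntegral_of_isOpenImmersion j
    exact (affine_isIntegral_iff R).mp this
  obtain ⟨θ, hθ⟩ : ∃ θ, Spec.map θ = j ≫ s := ⟨Spec.preimage _, Spec.map_preimage _⟩
  let algA : Algebra (AlgebraicClosure ℚ) A := θ.hom.toAlgebra
  have hft : Algebra.FiniteType (AlgebraicClosure ℚ) A := by
    have h1 : LocallyOfFiniteType (Spec.map θ) := by rw [hθ]; infer_instance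
    exact (HasRingHomProperty.Spec_iff (P := @LocallyOfFiniteType)).mp h1
  have hN : IsNoetherianRing A := Algebra.FiniteType.isNoetherianRing (AlgebraicClosure ℚ) A
  obtain ⟨Ch⟩ := exists_charts N a c i A j
  rw [hip] at Ch
  obtain ⟨𝓕, hfin, h1, h2, h3, h4⟩ := family Ch f hf
  -- the section
  have hr : Set.range ((j ≫ x) ≫ jP) ⊆
      Set.range (Proj.awayι (HZ N) (MvPolynomial.X h₀) (X_deg h₀) one_pos) := by
    rintro _ ⟨t, rfl⟩
    have h5 : j t ∈ (x ≫ jP) ⁻¹ᵁ (Proj.basicOpen (HZ N) (MvPolynomial.X h₀)) := hjW ⟨t, rfl⟩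
    rw [← Proj.opensRange_awayι (HZ N) (MvPolynomial.X h₀) (X_deg h₀) one_pos] at h5
    exact h5
  obtain ⟨k, hk, hk1, -⟩ := Ch.up h₀ _ (j ≫ x) (𝟙 _) (IsOpenImmersion.lift _ _ hr)
    (by rw [Category.assoc, hx, Category.comp_id, Category.id_comp])
    (IsOpenImmersion.lift_fac _ _ hr).symm
  obtain ⟨ω, rfl⟩ : ∃ ω, Spec.map ω = k := ⟨Spec.preimage k, Spec.map_preimage k⟩
  have hωα : ω.hom.comp (Ch.α h₀) = RingHom.id A := by
    rw [← Spec.map_comp, ← Spec.map_id] at hk1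
    have h8 := congrArg CommRingCat.Hom.hom (Spec.map_injective hk1)
    rw [CommRingCat.hom_comp] at h8
    exact h8
  let x₀ : Fin (N + 1) → A := fun l => ω.hom (Ch.χ h₀ (tl h₀ l))
  have hPt : ∀ (E : Type) [Field E] (φ : A →+* E),
      Pt p jP j φ (Spec.map (CommRingCat.ofHom φ) ≫ j ≫ x) (fun a => φ (x₀ a)) := by
    intro E _ φ
    have h6 := Pt.of_chart Ch h₀ (φ.comp ω.hom)
    rw [RingHom.comp_assoc, hωα, RingHom.comp_id, CommRingCat.ofHom_comp, CommRingCat.ofHom_hom,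
      Spec.map_comp, Category.assoc, hk] at h6
    exact h6
  refine ⟨A, inferInstance, hA, algA, hft, j, hj, ?_, N,
    Ideal.span (VanS p N jP A j), 𝓕, x₀, ?_, ?_⟩
  · rw [← hθ]; rfl
  · refine cdata Ch f 𝓕 hfin h1 h2 h3 h4 x₀ ⟨h₀, ?_⟩ fun E _ φ => ⟨_, hPt E φ⟩
    simp only [x₀]
    rw [tl_self, map_one, map_one]
  · intro E _ φ w hw n m
    have hwn : ∀ n, Pt p jP j φ ((fun g : Spec (CommRingCat.of E) ⟶ X => g ≫ f)^[n]
              (Spec.map (CommRingCat.ofHom φ) ≫ j ≫ x)) (w n) := by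
      intro n
      induction n with
      | zero =>
        rw [hw.1]
        exact hPt E φ
      | succ n ih =>
        obtain ⟨hne, F, hF, hwF⟩ := hw.2 n
        rw [Function.iterate_succ_apply']
        have h7 : w (n + 1) = fun a => MvPolynomial.eval₂ φ (w n) (F a) := funext hwF
        rw [h7]
        apply h3 F hF E φ _ _ ih
        by_contra hcon
        push Not at hcon
        apply hne
        rw [h7]
        exact funext hcon
    exact (hwn n).eq_iff Ch (hwn m)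

end Pool.Agent.TH148
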