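import Mathlib
import Pool.Agent.TH148.CDefs

set_option autoImplicit false

namespace Pool.Agent.TH148

open MvPolynomial

lemma eval₂_bind₁' {A : Type} [CommRing A] {N : ℕ} {E : Type} [CommRing E] (φ : A →+* E)
    (v : Fin (N + 1) → E) (F : Fin (N + 1) → MvPolynomial (Fin (N + 1)) A)
    (P : MvPolynomial (Fin (N + 1)) A) :
    eval₂ φ v (bind₁ F P) = eval₂ φ (fun a => eval₂ φ v (F a)) P := by
  have := eval₂Hom_bind₁ φ v F P
  simpa using this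

/-- one step of an orbit -/
lemma CData.step {A : Type} [CommRing A] {N : ℕ} {I : Ideal (MvPolynomial (Fin (N + 1)) A)}
    {𝓕 : Set (Fin (N + 1) → MvPolynomial (Fin (N + 1)) A)} {x₀ : Fin (N + 1) → A}
    (hD : CData A N I 𝓕 x₀) {E : Type} [Field E] (φ : A →+* E) (v : Fin (N + 1) → E)
    (hv : v ≠ 0) (hI : ∀ P ∈ I, eval₂ φ v P = 0) :
    ∃ F ∈ 𝓕, (fun a => eval₂ φ v (F a)) ≠ 0 := by
  by_contra hcon
  push Not at hcon
  apply hv
  funext i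
  obtain ⟨M, hM⟩ := hD.uni i
  have hle : I ⊔ Ideal.span {P | ∃ F ∈ 𝓕, ∃ a, P = F a} ≤ RingHom.ker (eval₂Hom φ v) := by
    rw [sup_le_iff, Ideal.span_le]
    refine ⟨fun P hP => hI P hP, ?_⟩
    rintro P ⟨F, hF, a, rfl⟩
    exact congrFun (hcon F hF) a
  have h1 := hle hM
  rw [RingHom.mem_ker, map_pow, eval₂Hom_X'] at h1
  exact eq_zero_of_pow_eq_zero h1

lemma CData.step_I {A : Type} [CommRing A] {N : ℕ} {I : Ideal (MvPolynomial (Fin (N + 1)) A)}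
    {𝓕 : Set (Fin (N + 1) → MvPolynomial (Fin (N + 1)) A)} {x₀ : Fin (N + 1) → A}
    (hD : CData A N I 𝓕 x₀) {E : Type} [CommRing E] (φ : A →+* E) (v : Fin (N + 1) → E)
    (hI : ∀ P ∈ I, eval₂ φ v P = 0) (F) (hF : F ∈ 𝓕) :
    ∀ P ∈ I, eval₂ φ (fun a => eval₂ φ v (F a)) P = 0 := by
  intro P hP
  rw [← eval₂_bind₁']
  exact hI _ (hD.stab P hP F hF)

lemma CData.xI' {A : Type} [CommRing A] {N : ℕ} {I : Ideal (MvPolynomial (Fin (N + 1)) A)}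
    {𝓕 : Set (Fin (N + 1) → MvPolynomial (Fin (N + 1)) A)} {x₀ : Fin (N + 1) → A}
    (hD : CData A N I 𝓕 x₀) {E : Type} [CommRing E] (φ : A →+* E) :
    ∀ P ∈ I, eval₂ φ (fun a => φ (x₀ a)) P = 0 := by
  intro P hP
  have h1 : eval₂ φ (fun a => φ (x₀ a)) P = φ (eval x₀ P) := by
    rw [eval, coe_eval₂Hom, hom_eval₂, RingHom.comp_id]
  rw [h1, hD.xI P hP, map_zero]

lemma CData.exists_orbit {A : Type} [CommRing A] {N : ℕ}
    {I : Ideal (MvPolynomial (Fin (N + 1)) A)}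
    {𝓕 : Set (Fin (N + 1) → MvPolynomial (Fin (N + 1)) A)} {x₀ : Fin (N + 1) → A}
    (hD : CData A N I 𝓕 x₀) {E : Type} [Field E] (φ : A →+* E) :
    ∃ w : ℕ → Fin (N + 1) → E, IsOrbit 𝓕 x₀ φ w := by
  classical
  let T := {v : Fin (N + 1) → E // v ≠ 0 ∧ ∀ P ∈ I, eval₂ φ v P = 0}
  have hstep : ∀ v : T, ∃ v' : T, ∃ F ∈ 𝓕, ∀ a, v'.1 a = eval₂ φ v.1 (F a) := by
    rintro ⟨v, hv, hI⟩
    obtain ⟨F, hF, hne⟩ := hD.step φ v hv hI
    exact ⟨⟨_, hne, hD.step_I φ v hI F hF⟩, F, hF, fun a => rfl⟩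
  choose next hnext using hstep
  have h0 : (fun a => φ (x₀ a)) ≠ 0 := by
    obtain ⟨i, hi⟩ := hD.x1
    intro h
    have := congrFun h i
    simp [hi] at this
  let w : ℕ → T := fun n => next^[n] ⟨fun a => φ (x₀ a), h0, hD.xI' φ⟩
  refine ⟨fun n => (w n).1, rfl, fun n => ⟨(w (n + 1)).2.1, ?_⟩⟩
  obtain ⟨F, hF, h⟩ := hnext (w n)
  refine ⟨F, hF, fun a => ?_⟩
  have : w (n + 1) = next (w n) := by simp only [w, Function.iterate_succ_apply']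
  change (w (n + 1)).1 a = _
  rw [this]; exact h a

end Pool.Agent.TH148
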