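import Mathlib
import Pool.Agent.TH148.Bridge
import Pool.Agent.TH148.Orbit

set_option autoImplicit false
open AlgebraicGeometry CategoryTheory CategoryTheory.Limits

namespace Pool.Agent.TH148

lemma dom_frac {A : Type} [CommRing A] [IsDomain A] :
    IsDominant (Spec.map (CommRingCat.ofHom (algebraMap A (FractionRing A)))) := by
  constructor
  have : DenseRange (PrimeSpectrum.comap (algebraMap A (FractionRing A))) := by
    rw [PrimeSpectrum.denseRange_comap_iff_ker_le_nilRadical]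
    rw [(RingHom.injective_iff_ker_eq_bot _).mp (IsFractionRing.injective A (FractionRing A))]
    exact bot_le
  exact this

lemma dom_open {B Y : Scheme.{0}} [AlgebraicGeometry.IsIntegral B] [Nonempty Y]
    (j : Y ⟶ B) [IsOpenImmersion j] : IsDominant j := by
  constructor
  have h1 : IsOpen (Set.range j) := j.isOpenEmbedding.isOpen_range
  exact h1.dense (Set.range_nonempty _)

/-- two `B`-morphisms that agree on the generic point agree. -/
theorem iter_eq {B X : Scheme.{0}} (p : X ⟶ B) [IsSeparated p]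
    {A : Type} [CommRing A] [IsDomain A] [AlgebraicGeometry.IsIntegral B]
    (j : Spec (CommRingCat.of A) ⟶ B) [IsOpenImmersion j]
    (g g' : B ⟶ X) (hg : g ≫ p = 𝟙 B) (hg' : g' ≫ p = 𝟙 B)
    (h : Spec.map (CommRingCat.ofHom (algebraMap A (FractionRing A))) ≫ j ≫ g =
      Spec.map (CommRingCat.ofHom (algebraMap A (FractionRing A))) ≫ j ≫ g') : g = g' := by
  have h1 : IsDominant (Spec.map (CommRingCat.ofHom (algebraMap A (FractionRing A)))) := dom_frac
  have h2 : IsDominant j := dom_open j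
  exact ext_of_isDominant_of_isSeparated p (hg.trans hg'.symm)
    (Spec.map (CommRingCat.ofHom (algebraMap A (FractionRing A))) ≫ j)
    (by simpa using h)

lemma sepP {B X : Scheme.{0}} {p : X ⟶ B}
    (hP : ∃ (n : ℕ) (_ : GradedAlgebra (MvPolynomial.homogeneousSubmodule (Fin (n + 1)) ℤ))
        (a : B ⟶ Spec (CommRingCat.of ℤ))
        (c : Proj (MvPolynomial.homogeneousSubmodule (Fin (n + 1)) ℤ) ⟶ Spec (CommRingCat.of ℤ))
        (i : X ⟶ pullback a c),
        AlgebraicGeometry.IsClosedImmersion i ∧ i ≫ pullback.fst a c = p) : IsSeparated p := by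
  obtain ⟨n, inst, a, c, i, hi, rfl⟩ := hP
  have hc : IsSeparated c := by
    let q : Spec (CommRingCat.of (MvPolynomial.homogeneousSubmodule (Fin (n + 1)) ℤ 0)) ⟶
      Spec (CommRingCat.of ℤ) := Spec.map (CommRingCat.ofHom (algebraMap ℤ _))
    have h1 : c = Proj.toSpecZero (MvPolynomial.homogeneousSubmodule (Fin (n + 1)) ℤ) ≫ q := by
      exact specZIsTerminal.hom_ext _ _
    rw [h1]
    infer_instance
  infer_instance

/-- The statement of CMT. -/
def CMTStmt : Prop :=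
  ∀ (A : Type) [CommRing A] [IsDomain A] [Algebra (AlgebraicClosure ℚ) A]
    [Algebra.FiniteType (AlgebraicClosure ℚ) A] (N : ℕ)
    (I : Ideal (MvPolynomial (Fin (N + 1)) A))
    (𝓕 : Set (Fin (N + 1) → MvPolynomial (Fin (N + 1)) A)) (x₀ : Fin (N + 1) → A)
    (_ : CData A N I 𝓕 x₀)
    (_ : ∀ w : ℕ → Fin (N + 1) → FractionRing A,
      IsOrbit 𝓕 x₀ (algebraMap A (FractionRing A)) w →
      ∀ n m, n ≠ m → ¬ ∀ a b, w n a * w m b = w n b * w m a),
    ∃ b' : A →ₐ[AlgebraicClosure ℚ] AlgebraicClosure ℚ,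
      ∀ w : ℕ → Fin (N + 1) → AlgebraicClosure ℚ,
        IsOrbit 𝓕 x₀ (b' : A →+* AlgebraicClosure ℚ) w →
        ∀ n m, n ≠ m → ¬ ∀ a b, w n a * w m b = w n b * w m a

lemma iter_comm {T B X : Scheme.{0}} (f : X ⟶ X) (t : T ⟶ B) (x : B ⟶ X) (n : ℕ) :
    (fun g : T ⟶ X => g ≫ f)^[n] (t ≫ x) = t ≫ (fun g : B ⟶ X => g ≫ f)^[n] x := by
  induction n with
  | zero => rfl
  | succ n ih => rw [Function.iterate_succ_apply', Function.iterate_succ_apply', ih, Category.assoc]

lemma iter_p {B X : Scheme.{0}} (f : X ⟶ X) (p : X ⟶ B) (hf : f ≫ p = p) (x : B ⟶ X)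
    (hx : x ≫ p = 𝟙 B) (n : ℕ) :
    (fun g : B ⟶ X => g ≫ f)^[n] x ≫ p = 𝟙 B := by
  induction n with
  | zero => exact hx
  | succ n ih => rw [Function.iterate_succ_apply', Category.assoc, hf, ih]

theorem main_of_CMT (hCMT : CMTStmt) :
    ∀ (B X : Scheme.{0}) (s : B ⟶ Spec (CommRingCat.of (AlgebraicClosure ℚ)))
      (p : X ⟶ B) (f : X ⟶ X) (x : B ⟶ X),
      AlgebraicGeometry.IsIntegral B →
      AlgebraicGeometry.LocallyOfFiniteType s →
      AlgebraicGeometry.QuasiCompact s →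
      AlgebraicGeometry.IsSeparated s →
      (∃ (n : ℕ) (_ : GradedAlgebra (MvPolynomial.homogeneousSubmodule (Fin (n + 1)) ℤ))
        (a : B ⟶ Spec (CommRingCat.of ℤ))
        (c : Proj (MvPolynomial.homogeneousSubmodule (Fin (n + 1)) ℤ) ⟶ Spec (CommRingCat.of ℤ))
        (i : X ⟶ pullback a c),
        AlgebraicGeometry.IsClosedImmersion i ∧ i ≫ pullback.fst a c = p) →
      f ≫ p = p →
      x ≫ p = 𝟙 B →
      (∀ n m : ℕ, n ≠ m →
        (fun g : B ⟶ X => g ≫ f)^[n] x ≠ (fun g : B ⟶ X => g ≫ f)^[m] x) →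
      ∃ b : Spec (CommRingCat.of (AlgebraicClosure ℚ)) ⟶ B,
        b ≫ s = 𝟙 _ ∧
        ∀ n m : ℕ, n ≠ m →
          (fun g : Spec (CommRingCat.of (AlgebraicClosure ℚ)) ⟶ X => g ≫ f)^[n] (b ≫ x) ≠
            (fun g : Spec (CommRingCat.of (AlgebraicClosure ℚ)) ⟶ X => g ≫ f)^[m] (b ≫ x) := by
  intro B X s p f x hB hs1 _ _ hP hf hx hne
  have hsep : IsSeparated p := sepP hP
  obtain ⟨A, i1, i2, i3, i4, j, hj, hjs, N, I, 𝓕, x₀, hD, hiff⟩ :=
    Bridge B X s p f x hB hs1 hP hf hx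
  obtain ⟨b', hb'⟩ := hCMT A N I 𝓕 x₀ hD (by
    intro w hw n m hnm hpar
    have h1 := (hiff (FractionRing A) (algebraMap A (FractionRing A)) w hw n m).mpr hpar
    rw [← Category.assoc, iter_comm, iter_comm] at h1
    exact hne n m hnm (iter_eq p j _ _ (iter_p f p hf x hx n) (iter_p f p hf x hx m)
      (by simpa using h1)))
  obtain ⟨w, hw⟩ := hD.exists_orbit (b' : A →+* AlgebraicClosure ℚ)
  refine ⟨Spec.map (CommRingCat.ofHom (b' : A →+* AlgebraicClosure ℚ)) ≫ j, ?_, ?_⟩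
  · rw [Category.assoc, hjs, ← Spec.map_comp, ← CommRingCat.ofHom_comp]
    have : (b' : A →+* AlgebraicClosure ℚ).comp (algebraMap (AlgebraicClosure ℚ) A) =
        RingHom.id _ := by
      ext r
      exact b'.commutes r
    rw [this, CommRingCat.ofHom_id, Spec.map_id]
  · intro n m hnm heq
    rw [Category.assoc] at heq
    exact hb' w hw n m hnm ((hiff _ _ w hw n m).mp heq)

end Pool.Agent.TH148
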