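import Mathlib

set_option autoImplicit false

namespace Pool.Agent.TH148

section

variable {R : Type} [CommRing R] {N : ℕ}

/-- A submodule of `R^{N+1}` all of whose vectors are pairwise proportional. -/
def Par (W : Submodule R (Fin (N + 1) → R)) : Prop :=
  ∀ w ∈ W, ∀ w' ∈ W, ∀ a b, w a * w' b = w b * w' a

lemma Par.span {s : Set (Fin (N + 1) → R)}
    (h : ∀ v ∈ s, ∀ v' ∈ s, ∀ a b, v a * v' b = v b * v' a) : Par (Submodule.span R s) := by
  intro w hw w' hw' a b
  induction hw using Submodule.span_induction with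
  | mem v hv =>
    induction hw' using Submodule.span_induction with
    | mem v' hv' => exact h v hv v' hv' a b
    | zero => simp
    | add x y _ _ hx hy =>
      simp only [Pi.add_apply, mul_add, hx, hy]
    | smul r x _ hx =>
      simp only [Pi.smul_apply, smul_eq_mul]
      linear_combination r * hx
  | zero => simp
  | add x y _ _ hx hy => simp only [Pi.add_apply, add_mul, hx, hy]
  | smul r x _ hx =>
    simp only [Pi.smul_apply, smul_eq_mul]
    linear_combination r * hx

lemma span_map_mem {R' : Type} [CommRing R'] (f : R →+* R') (s : Set (Fin (N + 1) → R))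
    (W' : Submodule R' (Fin (N + 1) → R')) (h : ∀ v ∈ s, (fun a => f (v a)) ∈ W') :
    ∀ w ∈ Submodule.span R s, (fun a => f (w a)) ∈ W' := by
  intro w hw
  induction hw using Submodule.span_induction with
  | mem v hv => exact h v hv
  | zero =>
    have : (fun a : Fin (N + 1) => f ((0 : Fin (N + 1) → R) a)) = 0 := by
      funext a; simp
    rw [this]; exact W'.zero_mem
  | add x y _ _ hx hy =>
    have : (fun a => f ((x + y) a)) = (fun a => f (x a)) + fun a => f (y a) := by
      funext a; simp
    rw [this]; exact W'.add_mem hx hy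
  | smul r x _ hx =>
    have : (fun a => f ((r • x) a)) = f r • fun a => f (x a) := by
      funext a; simp
    rw [this]; exact W'.smul_mem _ hx

lemma exists_E {s : Set (Fin (N + 1) → R)} (c : R)
    (h : c ∈ Ideal.span {r | ∃ v ∈ s, ∃ b, r = v b}) :
    ∃ e : Fin (N + 1) → Fin (N + 1) → R, (∀ b, (fun l => e l b) ∈ Submodule.span R s) ∧
      ∑ b, e b b = c := by
  induction h using Submodule.span_induction with
  | mem r hr =>
    obtain ⟨v, hv, b₀, rfl⟩ := hr
    refine ⟨fun l b => if b = b₀ then v l else 0, fun b => ?_, ?_⟩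
    · by_cases hb : b = b₀
      · simp only [hb, if_true]
        exact Submodule.subset_span hv
      · simp only [hb, if_false]
        exact Submodule.zero_mem _
    · simp
  | zero => exact ⟨fun _ _ => 0, fun b => Submodule.zero_mem _, by simp⟩
  | add x y _ _ hx hy =>
    obtain ⟨e, he, hex⟩ := hx
    obtain ⟨e', he', hey⟩ := hy
    refine ⟨fun l b => e l b + e' l b, fun b => Submodule.add_mem _ (he b) (he' b), ?_⟩
    rw [Finset.sum_add_distrib, hex, hey]
  | smul r x _ hx =>
    obtain ⟨e, he, hex⟩ := hx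
    refine ⟨fun l b => r * e l b, fun b => Submodule.smul_mem _ r (he b), ?_⟩
    rw [← Finset.mul_sum, hex, smul_eq_mul]

variable {W : Submodule R (Fin (N + 1) → R)}

lemma Par.e_mul (hW : Par W) (e : Fin (N + 1) → Fin (N + 1) → R)
    (he : ∀ b, (fun l => e l b) ∈ W) (te : ∑ b, e b b = 1) (w : Fin (N + 1) → R) (hw : w ∈ W)
    (b : Fin (N + 1)) : ∑ c, e b c * w c = w b := by
  have : ∀ c, e b c * w c = e c c * w b := fun c => hW _ (he c) w hw b c
  simp only [this]
  rw [← Finset.sum_mul, te, one_mul]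

lemma Par.mul_e (hW : Par W) (e P : Fin (N + 1) → Fin (N + 1) → R)
    (he : ∀ b, (fun l => e l b) ∈ W) (hP : ∀ b, (fun l => P l b) ∈ W) (a b : Fin (N + 1)) :
    ∑ c, P a c * e c b = (∑ c, P c c) * e a b := by
  have : ∀ c, P a c * e c b = P c c * e a b := fun c => hW _ (hP c) _ (he b) a c
  simp only [this]
  rw [← Finset.sum_mul]

lemma Par.trace_mul (hW : Par W) (e P : Fin (N + 1) → Fin (N + 1) → R)
    (he : ∀ b, (fun l => e l b) ∈ W) (te : ∑ b, e b b = 1) (hP : ∀ b, (fun l => P l b) ∈ W) :
    ∑ a, ∑ b, e a b * P b a = ∑ a, P a a := by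
  refine Finset.sum_congr rfl fun a _ => ?_
  exact hW.e_mul e he te _ (hP a) a

lemma Par.alg_id {K Ω : Type} [CommRing K] [Algebra K R] [AddCommGroup Ω] [Module K Ω]
    [Module R Ω]
    (D : Derivation K R Ω) (hW : Par W) (e e' P : Fin (N + 1) → Fin (N + 1) → R)
    (he : ∀ b, (fun l => e l b) ∈ W) (he' : ∀ b, (fun l => e' l b) ∈ W)
    (hP : ∀ b, (fun l => P l b) ∈ W) (te : ∑ b, e b b = 1) (te' : ∑ b, e' b b = 1) :
    ∑ a, ∑ b, e a b • D (P b a) =
      ∑ a, ∑ b, e' a b • D (P b a) + (∑ c, P c c) • ∑ a, ∑ b, e a b • D (e' b a) := by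
  have h1 : ∀ a b, D (P b a) = ∑ c, (e' b c • D (P c a) + P c a • D (e' b c)) := by
    intro a b
    conv_lhs => rw [← hW.e_mul e' he' te' _ (hP a) b]
    rw [map_sum]
    refine Finset.sum_congr rfl fun c _ => ?_
    rw [Derivation.leibniz]
  have h2 : ∑ a, ∑ b, e a b • D (P b a) =
      ∑ a, ∑ b, ∑ c, (e a b * e' b c) • D (P c a) + ∑ a, ∑ b, ∑ c, (e a b * P c a) • D (e' b c) := by
    rw [← Finset.sum_add_distrib]
    refine Finset.sum_congr rfl fun a _ => ?_
    rw [← Finset.sum_add_distrib]
    refine Finset.sum_congr rfl fun b _ => ?_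
    rw [← Finset.sum_add_distrib, h1, Finset.smul_sum]
    refine Finset.sum_congr rfl fun c _ => ?_
    rw [smul_add, smul_smul, smul_smul]
  rw [h2]
  congr 1
  · refine Finset.sum_congr rfl fun a _ => ?_
    rw [Finset.sum_comm]
    refine Finset.sum_congr rfl fun c _ => ?_
    rw [← Finset.sum_smul, hW.e_mul e he te _ (he' c) a]
  · have h3 : ∀ b c, ∑ a, (e a b * P c a) • D (e' b c) = (∑ c, P c c) • e c b • D (e' b c) := by
      intro b c
      rw [← Finset.sum_smul, smul_smul, ← hW.mul_e e P he hP c b]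
      congr 1
      exact Finset.sum_congr rfl fun a _ => mul_comm _ _
    rw [Finset.sum_comm]
    rw [Finset.smul_sum]
    simp only [Finset.smul_sum]
    rw [Finset.sum_comm (f := fun a b => (∑ c, P c c) • e a b • D (e' b a))]
    refine Finset.sum_congr rfl fun b _ => ?_
    rw [Finset.sum_comm]
    refine Finset.sum_congr rfl fun c _ => ?_
    exact h3 b c

end

end Pool.Agent.TH148
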