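import Mathlib
import Pool.Agent.TH148.Q2

set_option autoImplicit false

namespace Pool.Agent.TH148

section

variable {R : Type} [CommRing R] {N : ℕ} {W : Submodule R (Fin (N + 1) → R)}

lemma x_smul_D_pow {K Ω : Type} [CommRing K] [Algebra K R] [AddCommGroup Ω] [Module K Ω]
    [Module R Ω] (D : Derivation K R Ω) (x : R) (s : ℕ) :
    x • D (x ^ s) = ((s : R) * x ^ s) • D x := by
  rw [Derivation.leibniz_pow]
  rcases s with _ | s
  · simp
  · rw [Nat.add_sub_cancel, ← Nat.cast_smul_eq_nsmul R, smul_smul, smul_smul]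
    congr 1
    ring

lemma entry_id {K Ω : Type} [CommRing K] [Algebra K R] [AddCommGroup Ω] [Module K Ω]
    [Module R Ω] (D : Derivation K R Ω) (x lam lam' p p' : R) (s : ℕ)
    (h1 : x * lam' = lam) (h2 : x ^ s * p' = p) :
    lam • D p - ((s : R) * p) • D lam =
      x ^ (s + 1) • (lam' • D p' - ((s : R) * p') • D lam') := by
  subst h1 h2
  have h3 : (x * lam') • D (x ^ s * p') = (x ^ (s + 1) * lam') • D p' +
      ((s : R) * x ^ s * lam' * p') • D x := by
    rw [Derivation.leibniz, smul_add, smul_smul, smul_smul]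
    congr 1
    · congr 1; ring
    · have : (x * lam' * p') • D (x ^ s) = (lam' * p') • (x • D (x ^ s)) := by
        rw [smul_smul]; congr 1; ring
      rw [this, x_smul_D_pow, smul_smul]; congr 1; ring
  have h4 : ((s : R) * (x ^ s * p')) • D (x * lam') = ((s : R) * x ^ (s + 1) * p') • D lam' +
      ((s : R) * x ^ s * lam' * p') • D x := by
    rw [Derivation.leibniz, smul_add, smul_smul, smul_smul]
    congr 1
    · congr 1; ring
    · congr 1; ring
  rw [h3, h4, smul_sub, smul_smul, smul_smul]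
  have h5 : x ^ (s + 1) * ((s : R) * p') = (s : R) * x ^ (s + 1) * p' := by ring
  rw [h5]
  abel

lemma Par.cb {K Ω : Type} [CommRing K] [Algebra K R] [AddCommGroup Ω] [Module K Ω]
    [Module R Ω] (D : Derivation K R Ω) (hW : Par W)
    (e e' p p' : Fin (N + 1) → Fin (N + 1) → R)
    (he : ∀ b, (fun l => e l b) ∈ W) (he' : ∀ b, (fun l => e' l b) ∈ W)
    (hp : ∀ b, (fun l => p l b) ∈ W) (te : ∑ b, e b b = 1) (te' : ∑ b, e' b b = 1)
    (x lam lam' : R) (s : ℕ) (h1 : x * lam' = lam) (h2 : ∀ a b, x ^ s * p' a b = p a b)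
    (tp : ∑ c, p c c = lam ^ s) :
    ∑ a, ∑ b, e a b • (lam • D (p b a) - ((s : R) * p b a) • D lam) -
      x ^ (s + 1) • ∑ a, ∑ b, e' a b • (lam' • D (p' b a) - ((s : R) * p' b a) • D lam') =
    lam ^ (s + 1) • ∑ a, ∑ b, e a b • D (e' b a) := by
  have h3 : x ^ (s + 1) • ∑ a, ∑ b, e' a b • (lam' • D (p' b a) - ((s : R) * p' b a) • D lam') =
      ∑ a, ∑ b, e' a b • (lam • D (p b a) - ((s : R) * p b a) • D lam) := by
    simp only [Finset.smul_sum]
    refine Finset.sum_congr rfl fun a _ => Finset.sum_congr rfl fun b _ => ?_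
    rw [entry_id D x lam lam' (p b a) (p' b a) s h1 (h2 b a), smul_comm]
  have h4 : ∀ f : Fin (N + 1) → Fin (N + 1) → R, (∀ b, (fun l => f l b) ∈ W) →
      (∑ b, f b b = 1) →
      ∑ a, ∑ b, f a b • (lam • D (p b a) - ((s : R) * p b a) • D lam) =
      lam • ∑ a, ∑ b, f a b • D (p b a) - ((s : R) * lam ^ s) • D lam := by
    intro f hf tf
    have h5 : ∑ a, ∑ b, f a b • (lam • D (p b a) - ((s : R) * p b a) • D lam) =
        lam • ∑ a, ∑ b, f a b • D (p b a) - ((s : R) * ∑ a, ∑ b, f a b * p b a) • D lam := by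
      rw [Finset.mul_sum, Finset.sum_smul, Finset.smul_sum, ← Finset.sum_sub_distrib]
      refine Finset.sum_congr rfl fun a _ => ?_
      rw [Finset.mul_sum, Finset.sum_smul, Finset.smul_sum, ← Finset.sum_sub_distrib]
      refine Finset.sum_congr rfl fun b _ => ?_
      rw [smul_sub, smul_comm, smul_smul (f a b)]
      congr 2; ring
    rw [h5, hW.trace_mul f p hf tf hp, tp]
  rw [h3, h4 e he te, h4 e' he' te', hW.alg_id D e e' p he he' hp te te', tp, smul_add, smul_smul,
    pow_succ']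
  abel

end

end Pool.Agent.TH148
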