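import Mathlib

set_option autoImplicit false

namespace Pool.Agent.TH148

open KaehlerDifferential TensorProduct

section

variable {K A B : Type} [CommRing K] [CommRing A] [CommRing B] [Algebra K A] [Algebra K B]

/-- additive maps out of `Ω` agree if they agree on `a • D b`. -/
lemma kext {M : Type} [AddCommGroup M] (f g : Ω[A⁄K] →+ M)
    (h : ∀ a b : A, f (a • D K A b) = g (a • D K A b)) : f = g := by
  ext x
  have hx : x ∈ Submodule.span A (Set.range (D K A)) := by
    rw [span_range_derivation]; trivial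
  induction hx using Submodule.closure_induction with
  | zero => rw [map_zero, map_zero]
  | add x y _ _ hx hy => rw [map_add, map_add, hx, hy]
  | smul_mem a x hx => 
    obtain ⟨b, rfl⟩ := hx
    exact h a b

/-- functoriality of `Ω` as an additive map. -/
noncomputable def kmap (τ : A →ₐ[K] B) : Ω[A⁄K] →+ Ω[B⁄K] :=
  letI := τ.toRingHom.toAlgebra
  haveI : IsScalarTower K A B := IsScalarTower.of_algebraMap_eq fun r => (τ.commutes r).symm
  (KaehlerDifferential.map K K A B).toAddMonoidHom

lemma kmap_smul (τ : A →ₐ[K] B) (a : A) (m : Ω[A⁄K]) : kmap τ (a • m) = τ a • kmap τ m := by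
  let := τ.toRingHom.toAlgebra
  have : IsScalarTower K A B := IsScalarTower.of_algebraMap_eq fun r => (τ.commutes r).symm
  change KaehlerDifferential.map K K A B (a • m) = τ a • KaehlerDifferential.map K K A B m
  rw [map_smul]
  rw [← algebraMap_smul B a]
  rfl

lemma kmap_D (τ : A →ₐ[K] B) (a : A) : kmap τ (D K A a) = D K B (τ a) := by
  let := τ.toRingHom.toAlgebra
  have : IsScalarTower K A B := IsScalarTower.of_algebraMap_eq fun r => (τ.commutes r).symm
  exact KaehlerDifferential.map_D K K A B a

lemma kmap_comp {C : Type} [CommRing C] [Algebra K C] (σ : B →ₐ[K] C) (τ : A →ₐ[K] B)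
    (m : Ω[A⁄K]) : kmap σ (kmap τ m) = kmap (σ.comp τ) m := by
  have : (kmap σ).comp (kmap τ) = kmap (σ.comp τ) := by
    apply kext
    intro a b
    simp only [AddMonoidHom.comp_apply, kmap_smul, kmap_D, AlgHom.comp_apply]
  exact DFunLike.congr_fun this m

/-- evaluation of differentials. -/
noncomputable def kev {L : Type} [Field L] [Algebra K L] (z : A →ₐ[K] L)
    (δ : Derivation K L L) : Ω[A⁄K] →+ L :=
  letI := z.toRingHom.toAlgebra
  haveI : IsScalarTower K A L := IsScalarTower.of_algebraMap_eq fun r => (z.commutes r).symm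
  (δ.compAlgebraMap A).liftKaehlerDifferential.toAddMonoidHom

lemma kev_smul {L : Type} [Field L] [Algebra K L] (z : A →ₐ[K] L)
    (δ : Derivation K L L) (a : A) (m : Ω[A⁄K]) : kev z δ (a • m) = z a * kev z δ m := by
  let := z.toRingHom.toAlgebra
  have : IsScalarTower K A L := IsScalarTower.of_algebraMap_eq fun r => (z.commutes r).symm
  change (δ.compAlgebraMap A).liftKaehlerDifferential (a • m) =
    z a * (δ.compAlgebraMap A).liftKaehlerDifferential m
  rw [map_smul, Algebra.smul_def]
  rfl

lemma kev_D {L : Type} [Field L] [Algebra K L] (z : A →ₐ[K] L)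
    (δ : Derivation K L L) (a : A) : kev z δ (D K A a) = δ (z a) := by
  let := z.toRingHom.toAlgebra
  have : IsScalarTower K A L := IsScalarTower.of_algebraMap_eq fun r => (z.commutes r).symm
  exact Derivation.liftKaehlerDifferential_comp_D _ a

lemma kev_kmap {L : Type} [Field L] [Algebra K L] (z : B →ₐ[K] L) (τ : A →ₐ[K] B)
    (δ : Derivation K L L) (m : Ω[A⁄K]) : kev z δ (kmap τ m) = kev (z.comp τ) δ m := by
  have : (kev z δ).comp (kmap τ) = kev (z.comp τ) δ := by
    apply kext
    intro a b
    simp only [AddMonoidHom.comp_apply, kmap_smul, kmap_D, kev_smul, kev_D, AlgHom.comp_apply]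
  exact DFunLike.congr_fun this m

end

section loc

variable {K A : Type} [CommRing K] [CommRing A] [Algebra K A] (u : A) 
  (B : Type) [CommRing B] [Algebra K B] [Algebra A B] [IsScalarTower K A B]
  [IsLocalization.Away u B]

lemma kloc_ker (m : Ω[A⁄K]) (hm : KaehlerDifferential.map K K A B m = 0) :
    ∃ t : ℕ, u ^ t • m = 0 := by
  obtain ⟨⟨_, t, rfl⟩, h⟩ := (IsLocalizedModule.eq_zero_iff (Submonoid.powers u)
    (KaehlerDifferential.map K K A B)).mp hm
  exact ⟨t, h⟩

lemma kloc_surj (c : Ω[B⁄K]) :
    ∃ (t : ℕ) (m : Ω[A⁄K]), KaehlerDifferential.map K K A B m = u ^ t • c := by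
  obtain ⟨⟨m, ⟨_, t, rfl⟩⟩, h⟩ := IsLocalizedModule.surj (Submonoid.powers u)
    (KaehlerDifferential.map K K A B) c
  exact ⟨t, m, h.symm⟩

end loc

end Pool.Agent.TH148
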