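import Mathlib
import Pool.Agent.TH148.Q1
import Pool.Agent.TH148.Q2

set_option autoImplicit false

namespace Pool.Agent.TH148

open MvPolynomial KaehlerDifferential

section

variable {K : Type} [Field K] {N : ℕ}

lemma aeval_smul_hom {R : Type} [CommRing R] [Algebra K R]
    (P : MvPolynomial (Fin (N + 1)) K) {d : ℕ} (hP : P.IsHomogeneous d) (c : R)
    (v : Fin (N + 1) → R) :
    aeval (fun l => c * v l) P = c ^ d * aeval v P := by
  rw [aeval_def, aeval_def, eval₂_eq, eval₂_eq, Finset.mul_sum]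
  refine Finset.sum_congr rfl fun m hm => ?_
  have hd : m.degree = d := (hP.degree_eq_sum_deg_support hm).symm
  have : ∏ i ∈ m.support, (c * v i) ^ m i = c ^ d * ∏ i ∈ m.support, v i ^ m i := by
    rw [← hd, Finsupp.degree_apply, ← Finset.prod_pow_eq_pow_sum, ← Finset.prod_mul_distrib]
    exact Finset.prod_congr rfl fun i _ => mul_pow _ _ _
  rw [this]; ring

/-- homogeneous ideals -/
def HomI (I : Ideal (MvPolynomial (Fin (N + 1)) K)) : Prop :=
  ∃ G : Set (MvPolynomial (Fin (N + 1)) K), (∀ g ∈ G, ∃ d, g.IsHomogeneous d) ∧ I = Ideal.span G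

/-- `v` is a point of the cone `V(I)`. -/
def OnI (I : Ideal (MvPolynomial (Fin (N + 1)) K)) {R : Type} [CommRing R] [Algebra K R]
    (v : Fin (N + 1) → R) : Prop := ∀ P ∈ I, aeval v P = 0

lemma OnI.smul {I : Ideal (MvPolynomial (Fin (N + 1)) K)} (hI : HomI I) {R : Type} [CommRing R]
    [Algebra K R] {v : Fin (N + 1) → R} (hv : OnI I v) (c : R) : OnI I (fun l => c * v l) := by
  obtain ⟨G, hG, rfl⟩ := hI
  have hle : Ideal.span G ≤ RingHom.ker (aeval (R := K) (fun l => c * v l)).toRingHom := by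
    rw [Ideal.span_le]
    intro g hg
    obtain ⟨d, hd⟩ := hG g hg
    change aeval (fun l => c * v l) g = 0
    rw [aeval_smul_hom g hd, hv g (Ideal.subset_span hg), mul_zero]
  exact fun P hP => hle hP

lemma OnI.map {I : Ideal (MvPolynomial (Fin (N + 1)) K)} {R R' : Type} [CommRing R]
    [Algebra K R] [CommRing R'] [Algebra K R'] {v : Fin (N + 1) → R} (hv : OnI I v)
    (f : R →ₐ[K] R') : OnI I (fun l => f (v l)) := by
  intro P hP
  have : aeval (fun l => f (v l)) P = f (aeval v P) := by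
    rw [← AlgHom.comp_apply, comp_aeval]
  rw [this, hv P hP, map_zero]

variable (I : Ideal (MvPolynomial (Fin (N + 1)) K))

/-- chart rings -/
abbrev AA (i : Fin (N + 1)) : Type :=
  MvPolynomial (Fin (N + 1)) K ⧸ (I ⊔ Ideal.span {(X i - 1 : MvPolynomial (Fin (N + 1)) K)})

/-- coordinates -/
noncomputable def uu (i l : Fin (N + 1)) : AA I i := Ideal.Quotient.mk _ (X l)

lemma uu_self (i : Fin (N + 1)) : uu I i i = 1 := by
  rw [← sub_eq_zero, uu, ← map_one (Ideal.Quotient.mk _), ← map_sub,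
    Ideal.Quotient.eq_zero_iff_mem]
  exact Ideal.mem_sup_right (Ideal.subset_span rfl)

lemma aeval_uu (i : Fin (N + 1)) (P : MvPolynomial (Fin (N + 1)) K) :
    aeval (uu I i) P = Ideal.Quotient.mk _ P := by
  have : aeval (uu I i) = Ideal.Quotient.mkₐ K (I ⊔ Ideal.span {(X i - 1)}) := by
    apply MvPolynomial.algHom_ext
    intro l; rw [aeval_X]; rfl
  rw [this]; rfl

lemma OnI_uu (i : Fin (N + 1)) : OnI I (uu I i) := by
  intro P hP
  rw [aeval_uu, Ideal.Quotient.eq_zero_iff_mem]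
  exact Ideal.mem_sup_left hP

variable {I}

lemma AAlift_aux {R : Type} [CommRing R] [Algebra K R] (i : Fin (N + 1))
    (t : Fin (N + 1) → R) (ht : OnI I t) (h1 : t i = 1)
    (a : MvPolynomial (Fin (N + 1)) K)
    (ha : a ∈ I ⊔ Ideal.span {(X i - 1 : MvPolynomial (Fin (N + 1)) K)}) :
    aeval t a = 0 := by
  have hle : I ⊔ Ideal.span {(X i - 1 : MvPolynomial (Fin (N + 1)) K)} ≤
      RingHom.ker (aeval (R := K) t).toRingHom := by
    rw [sup_le_iff, Ideal.span_le]
    refine ⟨fun P hP => ht P hP, ?_⟩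
    rintro _ rfl
    change aeval t (X i - 1) = 0
    rw [map_sub, aeval_X, h1, map_one, sub_self]
  exact hle ha

/-- points of the charts -/
noncomputable def AAlift {R : Type} [CommRing R] [Algebra K R] (i : Fin (N + 1))
    (t : Fin (N + 1) → R) (ht : OnI I t) (h1 : t i = 1) : AA I i →ₐ[K] R :=
  Ideal.Quotient.liftₐ _ (aeval t) (AAlift_aux i t ht h1)

lemma AAlift_mk {R : Type} [CommRing R] [Algebra K R] (i : Fin (N + 1))
    (t : Fin (N + 1) → R) (ht : OnI I t) (h1 : t i = 1) (P : MvPolynomial (Fin (N + 1)) K) :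
    AAlift i t ht h1 (Ideal.Quotient.mk _ P) = aeval t P := by
  rfl

lemma AAlift_uu {R : Type} [CommRing R] [Algebra K R] (i l : Fin (N + 1))
    (t : Fin (N + 1) → R) (ht : OnI I t) (h1 : t i = 1) :
    AAlift i t ht h1 (uu I i l) = t l := by
  rw [uu, AAlift_mk, aeval_X]

lemma AA_ext {R : Type} [CommRing R] [Algebra K R] (i : Fin (N + 1))
    (f g : AA I i →ₐ[K] R) (h : ∀ l, f (uu I i l) = g (uu I i l)) : f = g := by
  apply Ideal.Quotient.algHom_ext
  apply MvPolynomial.algHom_ext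
  intro l
  exact h l

variable (I)

/-- overlaps -/
abbrev AB (i j : Fin (N + 1)) : Type := Localization.Away (uu I i j)

/-- inclusion `A_i → A_ij` -/
noncomputable def iot (i j : Fin (N + 1)) : AA I i →ₐ[K] AB I i j :=
  IsScalarTower.toAlgHom K (AA I i) (AB I i j)

lemma iot_unit (i j : Fin (N + 1)) : IsUnit (iot I i j (uu I i j)) :=
  IsLocalization.Away.algebraMap_isUnit (uu I i j)

/-- transition functions -/
noncomputable def tt (i j l : Fin (N + 1)) : AB I i j :=
  ((iot_unit I i j).unit⁻¹ : (AB I i j)ˣ) * iot I i j (uu I i l)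

lemma tt_mul (i j l : Fin (N + 1)) : iot I i j (uu I i j) * tt I i j l = iot I i j (uu I i l) := by
  rw [tt, ← mul_assoc, IsUnit.mul_val_inv, one_mul]

lemma tt_self (i j : Fin (N + 1)) : tt I i j j = 1 := by
  rw [tt, IsUnit.val_inv_mul]

variable {I}

lemma OnI_tt (hI : HomI I) (i j : Fin (N + 1)) : OnI I (tt I i j) :=
  ((OnI_uu I i).map (iot I i j)).smul hI _

/-- `A_j → A_ij` -/
noncomputable def tau (hI : HomI I) (i j : Fin (N + 1)) : AA I j →ₐ[K] AB I i j :=
  AAlift j (tt I i j) (OnI_tt hI i j) (tt_self I i j)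

lemma tau_uu (hI : HomI I) (i j l : Fin (N + 1)) : tau hI i j (uu I j l) = tt I i j l :=
  AAlift_uu _ _ _ _ _

lemma tau_hom (hI : HomI I) (i j : Fin (N + 1)) (P : MvPolynomial (Fin (N + 1)) K) {d : ℕ}
    (hP : P.IsHomogeneous d) :
    iot I i j (uu I i j) ^ d * tau hI i j (Ideal.Quotient.mk _ P) =
      iot I i j (Ideal.Quotient.mk _ P) := by
  rw [tau, AAlift_mk, ← aeval_smul_hom P hP]
  have h1 : (fun l => iot I i j (uu I i j) * tt I i j l) = fun l => iot I i j (uu I i l) :=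
    funext fun l => tt_mul I i j l
  rw [h1, ← aeval_uu, ← AlgHom.comp_apply, comp_aeval]

end

section pts

variable {K : Type} [Field K] {N : ℕ} {I : Ideal (MvPolynomial (Fin (N + 1)) K)}
  {L : Type} [Field L] [Algebra K L] 

/-- point of chart `i`. -/
noncomputable def zp (hI : HomI I) {z : Fin (N + 1) → L} (hz : OnI I z) (i : Fin (N + 1))
    (hi : z i ≠ 0) : AA I i →ₐ[K] L :=
  AAlift i (fun l => (z i)⁻¹ * z l) (hz.smul hI _) (inv_mul_cancel₀ hi)

lemma zp_uu (hI : HomI I) {z : Fin (N + 1) → L} (hz : OnI I z) (i l : Fin (N + 1))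
    (hi : z i ≠ 0) : zp hI hz i hi (uu I i l) = (z i)⁻¹ * z l := AAlift_uu _ _ _ _ _

lemma zp_mk (hI : HomI I) {z : Fin (N + 1) → L} (hz : OnI I z) (i : Fin (N + 1))
    (hi : z i ≠ 0) (P : MvPolynomial (Fin (N + 1)) K) {d : ℕ} (hP : P.IsHomogeneous d) :
    zp hI hz i hi (Ideal.Quotient.mk _ P) = ((z i)⁻¹) ^ d * aeval z P := by
  rw [zp, AAlift_mk, aeval_smul_hom P hP]

/-- point of the overlap. -/
noncomputable def zp2 (hI : HomI I) {z : Fin (N + 1) → L} (hz : OnI I z) (i j : Fin (N + 1))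
    (hi : z i ≠ 0) (hj : z j ≠ 0) : AB I i j →ₐ[K] L :=
  IsLocalization.liftAlgHom (M := Submonoid.powers (uu I i j)) (f := zp hI hz i hi) (by
    rintro ⟨_, t, rfl⟩
    rw [map_pow, zp_uu]
    exact (isUnit_iff_ne_zero.mpr (mul_ne_zero (inv_ne_zero hi) hj)).pow t)

lemma zp2_iot (hI : HomI I) {z : Fin (N + 1) → L} (hz : OnI I z) (i j : Fin (N + 1))
    (hi : z i ≠ 0) (hj : z j ≠ 0) : (zp2 hI hz i j hi hj).comp (iot I i j) = zp hI hz i hi := by
  ext x
  rw [AlgHom.comp_apply, zp2, iot, IsScalarTower.toAlgHom_apply]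
  exact IsLocalization.lift_eq _ _

lemma zp2_tau (hI : HomI I) {z : Fin (N + 1) → L} (hz : OnI I z) (i j : Fin (N + 1))
    (hi : z i ≠ 0) (hj : z j ≠ 0) : (zp2 hI hz i j hi hj).comp (tau hI i j) = zp hI hz j hj := by
  apply AA_ext
  intro l
  rw [AlgHom.comp_apply, tau_uu, zp_uu]
  have h1 := congrArg (zp2 hI hz i j hi hj) (tt_mul I i j l)
  rw [map_mul, ← AlgHom.comp_apply, ← AlgHom.comp_apply, zp2_iot, zp_uu, zp_uu] at h1
  field_simp at h1 ⊢
  linear_combination h1

end pts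

end Pool.Agent.TH148
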