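import Mathlib
import Pool.Agent.TH148.Q3

set_option autoImplicit false

namespace Pool.Agent.TH148

open MvPolynomial

section

variable {K : Type} [Field K] {N : ℕ}

attribute [local instance] MvPolynomial.gradedAlgebra

lemma hc_mul (r F : MvPolynomial (Fin (N + 1)) K) {d : ℕ} (hF : F.IsHomogeneous d) (s : ℕ) :
    homogeneousComponent s (r * F) = if d ≤ s then homogeneousComponent (s - d) r * F else 0 := by
  have key : ∀ (φ : MvPolynomial (Fin (N + 1)) K) (i : ℕ),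
      ((DirectSum.decompose (homogeneousSubmodule (Fin (N + 1)) K) φ) i :
        MvPolynomial (Fin (N + 1)) K) = homogeneousComponent i φ := fun φ i =>
    decomposition.decompose'_apply φ i
  rw [← key, ← key]
  exact DirectSum.coe_decompose_mul_of_right_mem (homogeneousSubmodule (Fin (N + 1)) K) s
    ((mem_homogeneousSubmodule _ _).mpr hF)

lemma HomI.comp {I : Ideal (MvPolynomial (Fin (N + 1)) K)} (hI : HomI I)
    {p : MvPolynomial (Fin (N + 1)) K} (hp : p ∈ I) (n : ℕ) :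
    homogeneousComponent n p ∈ I := by
  obtain ⟨G, hG, rfl⟩ := hI
  apply homogeneousComponent_mem_of_mem _ hp
  apply Ideal.homogeneous_span
  intro x hx
  obtain ⟨d, hd⟩ := hG x hx
  exact ⟨d, (mem_homogeneousSubmodule _ _).mpr hd⟩

lemma hc_span {𝓖 : Set (Fin (N + 1) → MvPolynomial (Fin (N + 1)) K)}
    (hhom : ∀ F ∈ 𝓖, ∃ d, ∀ a, (F a).IsHomogeneous d) (s : ℕ)
    (w : Fin (N + 1) → MvPolynomial (Fin (N + 1)) K)
    (hw : w ∈ Submodule.span (MvPolynomial (Fin (N + 1)) K) 𝓖) :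
    (fun l => homogeneousComponent s (w l)) ∈ Submodule.span (MvPolynomial (Fin (N + 1)) K) 𝓖 := by
  induction hw using Submodule.closure_induction with
  | zero => 
    have : (fun l : Fin (N + 1) => homogeneousComponent s
      ((0 : Fin (N + 1) → MvPolynomial (Fin (N + 1)) K) l)) = 0 := by
      funext l; simp
    rw [this]; exact Submodule.zero_mem _
  | add x y _ _ hx hy =>
    have : (fun l : Fin (N + 1) => homogeneousComponent s ((x + y) l)) =
      (fun l => homogeneousComponent s (x l)) + fun l => homogeneousComponent s (y l) := by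
      funext l; simp
    rw [this]; exact Submodule.add_mem _ hx hy
  | smul_mem r F hF =>
    obtain ⟨d, hd⟩ := hhom F hF
    by_cases hds : d ≤ s
    · have : (fun l : Fin (N + 1) => homogeneousComponent s ((r • F) l)) =
        homogeneousComponent (s - d) r • F := by
        funext l
        rw [Pi.smul_apply, smul_eq_mul, hc_mul r (F l) (hd l), if_pos hds]
        rfl
      rw [this]; exact Submodule.smul_mem _ _ (Submodule.subset_span hF)
    · have : (fun l : Fin (N + 1) => homogeneousComponent s ((r • F) l)) = 0 := by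
        funext l
        rw [Pi.smul_apply, smul_eq_mul, hc_mul r (F l) (hd l), if_neg hds]
        rfl
      rw [this]; exact Submodule.zero_mem _

/-- the matrix `P` -/
lemma exists_P {I : Ideal (MvPolynomial (Fin (N + 1)) K)} (hI : HomI I)
    {𝓖 : Set (Fin (N + 1) → MvPolynomial (Fin (N + 1)) K)}
    (hhom : ∀ F ∈ 𝓖, ∃ d, ∀ a, (F a).IsHomogeneous d)
    (huni : ∀ i, ∃ M : ℕ, (X i : MvPolynomial (Fin (N + 1)) K) ^ M ∈
      I ⊔ Ideal.span {P | ∃ F ∈ 𝓖, ∃ a, P = F a}) (c : Fin (N + 1) → K) :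
    ∃ (s : ℕ) (P : Fin (N + 1) → Fin (N + 1) → MvPolynomial (Fin (N + 1)) K),
      (∀ a b, (P a b).IsHomogeneous s) ∧
      (∀ b, (fun l => P l b) ∈ Submodule.span (MvPolynomial (Fin (N + 1)) K) 𝓖) ∧
      ∑ b, P b b - (∑ a, C (c a) * X a) ^ s ∈ I := by
  set ℓ : MvPolynomial (Fin (N + 1)) K := ∑ a, C (c a) * X a with hℓ
  have h1 : ℓ ∈ (I ⊔ Ideal.span {P | ∃ F ∈ 𝓖, ∃ a, P = F a}).radical := by
    rw [hℓ]
    refine Ideal.sum_mem _ fun a _ => Ideal.mul_mem_left _ _ ?_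
    exact huni a
  obtain ⟨s, hs⟩ := h1
  obtain ⟨u, hu, v, hv, huv⟩ := Submodule.mem_sup.mp hs
  obtain ⟨e, he, hev⟩ := exists_E (s := 𝓖) v hv
  refine ⟨s, fun a b => homogeneousComponent s (e a b),
    fun a b => homogeneousComponent_isHomogeneous _ _, fun b => hc_span hhom s _ (he b), ?_⟩
  have hℓh : (ℓ ^ s).IsHomogeneous s := by
    have h2 : ℓ.IsHomogeneous 1 := by
      rw [hℓ]
      refine IsHomogeneous.sum _ _ _ fun a _ => ?_
      exact isHomogeneous_C_mul_X _ _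
    simpa using h2.pow s
  have h3 : ∑ b, homogeneousComponent s (e b b) = homogeneousComponent s (ℓ ^ s - u) := by
    rw [← map_sum, hev, ← huv]
    congr 1; ring
  rw [h3, map_sub, homogeneousComponent_eq_self hℓh, sub_sub_cancel_left]
  exact I.neg_mem (hI.comp hu s)

end

section

variable {K : Type} [Field K] {N : ℕ} (I : Ideal (MvPolynomial (Fin (N + 1)) K))
  (𝓖 : Set (Fin (N + 1) → MvPolynomial (Fin (N + 1)) K))

/-- vectors on the chart -/
def Vs (i : Fin (N + 1)) : Set (Fin (N + 1) → AA I i) :=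
  {w | ∃ F ∈ 𝓖, w = fun l => Ideal.Quotient.mk _ (F l)}

/-- vectors on the overlap -/
def Vs2 (i j : Fin (N + 1)) : Set (Fin (N + 1) → AB I i j) :=
  {w | ∃ F ∈ 𝓖, w = fun l => iot I i j (Ideal.Quotient.mk _ (F l))}

variable {I 𝓖}

lemma mk_eq_of_X (i : Fin (N + 1)) {P Q : MvPolynomial (Fin (N + 1)) K} {M : ℕ}
    (h : (X i : MvPolynomial (Fin (N + 1)) K) ^ M * (P - Q) ∈ I) :
    (Ideal.Quotient.mk (I ⊔ Ideal.span {(X i - 1 : MvPolynomial (Fin (N + 1)) K)}) P) =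
      Ideal.Quotient.mk _ Q := by
  have h1 : (Ideal.Quotient.mk (I ⊔ Ideal.span {(X i - 1 : MvPolynomial (Fin (N + 1)) K)}))
      ((X i) ^ M * (P - Q)) = 0 := by
    rw [Ideal.Quotient.eq_zero_iff_mem]; exact Ideal.mem_sup_left h
  have h2 : (Ideal.Quotient.mk (I ⊔ Ideal.span {(X i - 1 : MvPolynomial (Fin (N + 1)) K)}))
      (X i) = 1 := uu_self I i
  rw [map_mul, map_pow, h2, one_pow, one_mul, map_sub, sub_eq_zero] at h1
  exact h1

lemma par_Vs (hprop : ∀ F ∈ 𝓖, ∀ F' ∈ 𝓖, ∀ a b i, ∃ M : ℕ,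
      (X i : MvPolynomial (Fin (N + 1)) K) ^ M * (F a * F' b - F b * F' a) ∈ I)
      (i : Fin (N + 1)) : Par (Submodule.span (AA I i) (Vs I 𝓖 i)) := by
  apply Par.span
  rintro _ ⟨F, hF, rfl⟩ _ ⟨F', hF', rfl⟩ a b
  obtain ⟨M, hM⟩ := hprop F hF F' hF' a b i
  have := mk_eq_of_X i hM
  rwa [map_mul, map_mul] at this

lemma par_Vs2 (hprop : ∀ F ∈ 𝓖, ∀ F' ∈ 𝓖, ∀ a b i, ∃ M : ℕ,
      (X i : MvPolynomial (Fin (N + 1)) K) ^ M * (F a * F' b - F b * F' a) ∈ I)
      (i j : Fin (N + 1)) : Par (Submodule.span (AB I i j) (Vs2 I 𝓖 i j)) := by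
  apply Par.span
  rintro _ ⟨F, hF, rfl⟩ _ ⟨F', hF', rfl⟩ a b
  obtain ⟨M, hM⟩ := hprop F hF F' hF' a b i
  have := mk_eq_of_X i hM
  rw [map_mul, map_mul] at this
  have h2 := congrArg (iot I i j) this
  rw [map_mul, map_mul] at h2
  exact h2

lemma iot_Vs (i j : Fin (N + 1)) (w) (hw : w ∈ Submodule.span (AA I i) (Vs I 𝓖 i)) :
    (fun l => iot I i j (w l)) ∈ Submodule.span (AB I i j) (Vs2 I 𝓖 i j) := by
  refine span_map_mem (iot I i j : AA I i →+* AB I i j) _ _ ?_ w hw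
  rintro _ ⟨F, hF, rfl⟩
  exact Submodule.subset_span ⟨F, hF, rfl⟩

lemma tau_Vs (hI : HomI I) (hhom : ∀ F ∈ 𝓖, ∃ d, ∀ a, (F a).IsHomogeneous d)
    (i j : Fin (N + 1)) (w) (hw : w ∈ Submodule.span (AA I j) (Vs I 𝓖 j)) :
    (fun l => tau hI i j (w l)) ∈ Submodule.span (AB I i j) (Vs2 I 𝓖 i j) := by
  refine span_map_mem (tau hI i j : AA I j →+* AB I i j) _ _ ?_ w hw
  rintro _ ⟨F, hF, rfl⟩
  obtain ⟨d, hd⟩ := hhom F hF
  have hu := (iot_unit I i j).pow d
  have : (fun a => tau hI i j (Ideal.Quotient.mk _ (F a))) =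
      ((hu.unit⁻¹ : (AB I i j)ˣ) : AB I i j) • fun a => iot I i j (Ideal.Quotient.mk _ (F a)) := by
    funext a
    rw [Pi.smul_apply, smul_eq_mul, ← tau_hom hI i j (F a) (hd a), ← mul_assoc,
      IsUnit.val_inv_mul, one_mul]
  change (fun a => tau hI i j (Ideal.Quotient.mk _ (F a))) ∈ _
  rw [this]
  exact Submodule.smul_mem _ _ (Submodule.subset_span ⟨F, hF, rfl⟩)

lemma mk_span (i : Fin (N + 1)) (w) (hw : w ∈ Submodule.span (MvPolynomial (Fin (N + 1)) K) 𝓖) :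
    (fun l => (Ideal.Quotient.mk (I ⊔ Ideal.span {(X i - 1 : MvPolynomial (Fin (N + 1)) K)}) (w l) :
      AA I i)) ∈ Submodule.span (AA I i) (Vs I 𝓖 i) := by
  refine span_map_mem (Ideal.Quotient.mk (I ⊔ Ideal.span {(X i - 1)})) _ _ ?_ w hw
  intro F hF
  exact Submodule.subset_span ⟨F, hF, rfl⟩

lemma exists_Emat (huni : ∀ i, ∃ M : ℕ, (X i : MvPolynomial (Fin (N + 1)) K) ^ M ∈
      I ⊔ Ideal.span {P | ∃ F ∈ 𝓖, ∃ a, P = F a}) (i : Fin (N + 1)) :
    ∃ e : Fin (N + 1) → Fin (N + 1) → AA I i,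
      (∀ b, (fun l => e l b) ∈ Submodule.span (AA I i) (Vs I 𝓖 i)) ∧ ∑ b, e b b = 1 := by
  apply exists_E
  obtain ⟨M, hM⟩ := huni i
  obtain ⟨u, hu, v, hv, huv⟩ := Submodule.mem_sup.mp hM
  have h1 : (Ideal.Quotient.mk (I ⊔ Ideal.span {(X i - 1 : MvPolynomial (Fin (N + 1)) K)})) v = 1 := by
    have h2 : (Ideal.Quotient.mk (I ⊔ Ideal.span {(X i - 1 : MvPolynomial (Fin (N + 1)) K)}))
      (X i) = 1 := uu_self I i
    have h3 := congrArg (Ideal.Quotient.mk (I ⊔ Ideal.span {(X i - 1 : MvPolynomial (Fin (N + 1)) K)})) huv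
    rw [map_add, Ideal.Quotient.eq_zero_iff_mem.mpr (Ideal.mem_sup_left hu), zero_add, map_pow, h2,
      one_pow] at h3
    exact h3
  rw [← h1]
  have h4 : Ideal.span {P | ∃ F ∈ 𝓖, ∃ a, P = F a} ≤
      Ideal.comap (Ideal.Quotient.mk (I ⊔ Ideal.span {(X i - 1 : MvPolynomial (Fin (N + 1)) K)}))
        (Ideal.span {r | ∃ v ∈ Vs I 𝓖 i, ∃ b, r = v b}) := by
    rw [Ideal.span_le]
    rintro _ ⟨F, hF, a, rfl⟩
    exact Ideal.subset_span ⟨_, ⟨F, hF, rfl⟩, a, rfl⟩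
  exact h4 hv

end

end Pool.Agent.TH148
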