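import Mathlib
import Pool.Agent.TH148.Q1
import Pool.Agent.TH997.J69

set_option autoImplicit false
set_option backward.isDefEq.respectTransparency.types true

namespace Pool.Agent.TH148

open MvPolynomial KaehlerDifferential

section

variable {K : Type} [Field K] [CharZero K] {N : ℕ}

theorem FDapp (A : Fin (N + 1) → Type) [∀ i, CommRing (A i)] [∀ i, Algebra K (A i)]
    [∀ i, Algebra (MvPolynomial (Fin (N + 1)) K) (A i)]
    [∀ i, IsScalarTower K (MvPolynomial (Fin (N + 1)) K) (A i)]
    (hsurj : ∀ i, Function.Surjective (algebraMap (MvPolynomial (Fin (N + 1)) K) (A i)))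
    (hX : ∀ i, algebraMap (MvPolynomial (Fin (N + 1)) K) (A i) (X i) = 1)
    (B : Fin (N + 1) → Fin (N + 1) → Type) [∀ i j, CommRing (B i j)] [∀ i j, Algebra K (B i j)]
    [∀ i j, Algebra (MvPolynomial (Fin (N + 1)) K) (B i j)]
    [∀ i j, Algebra (A i) (B i j)]
    [∀ i j, IsScalarTower K (MvPolynomial (Fin (N + 1)) K) (B i j)]
    [∀ i j, IsScalarTower (MvPolynomial (Fin (N + 1)) K) (A i) (B i j)]
    [∀ i j, IsScalarTower K (A i) (B i j)]
    [∀ i j, IsLocalization.Away (algebraMap (MvPolynomial (Fin (N + 1)) K) (A i) (X j)) (B i j)]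
    (τ : ∀ i j, A j →ₐ[K] B i j)
    (hτ : ∀ i j l, algebraMap (MvPolynomial (Fin (N + 1)) K) (B i j) (X j) *
      τ i j (algebraMap (MvPolynomial (Fin (N + 1)) K) (A j) (X l)) =
        algebraMap (MvPolynomial (Fin (N + 1)) K) (B i j) (X l)) :
    ∃ l : Fin (N + 1) → K, ∃ h : ℕ, ∀ θ : Fin h → ∀ i j, Ω[B i j⁄K],
      (∀ n, ∃ (t : ℕ) (b : ∀ i, Ω[A i⁄K]), ∀ i j,
        kmap (IsScalarTower.toAlgHom K (A i) (B i j)) (b i) -
          (algebraMap (MvPolynomial (Fin (N + 1)) K) (B i j) (X j)) ^ t • kmap (τ i j) (b j) =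
          (algebraMap (MvPolynomial (Fin (N + 1)) K) (B i j) (∑ a, C (l a) * X a)) ^ t • θ n i j) →
      ∃ a : Fin h → K, a ≠ 0 ∧ ∃ η : ∀ i, Ω[A i⁄K], ∀ i j,
        ∑ n, algebraMap K (B i j) (a n) • θ n i j =
          kmap (IsScalarTower.toAlgHom K (A i) (B i j)) (η i) - kmap (τ i j) (η j) := by
  classical
  have hfin : ∀ i, Algebra.FiniteType K (A i) := fun i =>
    Algebra.FiniteType.of_surjective (IsScalarTower.toAlgHom K (MvPolynomial (Fin (N + 1)) K) (A i))
      (hsurj i)
  have hfinM : ∀ i, Module.Finite (MvPolynomial (Fin (N + 1)) K) (Ω[A i⁄K]) := by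
    intro i
    have h1 : Module.Finite (MvPolynomial (Fin (N + 1)) K) (A i) :=
      Module.Finite.of_surjective (Algebra.linearMap (MvPolynomial (Fin (N + 1)) K) (A i)) (hsurj i)
    exact Module.Finite.trans (A i) (Ω[A i⁄K])
  have hact : ∀ i (P : MvPolynomial (Fin (N + 1)) K) (m : Ω[A i⁄K]),
      P • m = (algebraMap (MvPolynomial (Fin (N + 1)) K) (A i) P) • m := fun i P m =>
    (algebraMap_smul (A i) P m).symm
  have hact2 : ∀ i j (P : MvPolynomial (Fin (N + 1)) K) (m : Ω[B i j⁄K]),
      P • m = (algebraMap (MvPolynomial (Fin (N + 1)) K) (B i j) P) • m := fun i j P m =>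
    (algebraMap_smul (B i j) P m).symm
  have hunit : ∀ i j, IsUnit (algebraMap (MvPolynomial (Fin (N + 1)) K) (B i j) (X j)) := by
    intro i j
    rw [IsScalarTower.algebraMap_apply (MvPolynomial (Fin (N + 1)) K) (A i) (B i j)]
    exact IsLocalization.Away.algebraMap_isUnit _
  -- the map r
  let r : ∀ i j, (Ω[A i⁄K]) →ₗ[MvPolynomial (Fin (N + 1)) K] (Ω[B i j⁄K]) := fun i j =>
    { toFun := kmap (IsScalarTower.toAlgHom K (A i) (B i j))
      map_add' := map_add _
      map_smul' := by
        intro P m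
        rw [RingHom.id_apply, hact, hact2, kmap_smul, IsScalarTower.toAlgHom_apply,
          ← IsScalarTower.algebraMap_apply] }
  have hr : ∀ i j m, r i j m = kmap (IsScalarTower.toAlgHom K (A i) (B i j)) m := fun _ _ _ => rfl
  have hkm : ∀ i j (m : Ω[A i⁄K]), kmap (IsScalarTower.toAlgHom K (A i) (B i j)) m =
      KaehlerDifferential.map K K (A i) (B i j) m := by
    intro i j m
    have : kmap (IsScalarTower.toAlgHom K (A i) (B i j)) =
        (KaehlerDifferential.map K K (A i) (B i j)).toAddMonoidHom := by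
      apply kext
      intro a b
      rw [kmap_smul, kmap_D]
      simp only [LinearMap.toAddMonoidHom_coe, map_smul, KaehlerDifferential.map_D,
        IsScalarTower.toAlgHom_apply, algebraMap_smul]
    exact DFunLike.congr_fun this m
  -- sections
  let e := @finProdFinEquiv (N + 1) (N + 1)
  let U : ∀ i, Fin (N + 1) → A i := fun i l => algebraMap (MvPolynomial (Fin (N + 1)) K) (A i) (X l)
  let σ : Fin ((N + 1) * (N + 1)) → ∀ i, Ω[A i⁄K] := fun s i =>
    U i (e.symm s).1 • D K (A i) (U i (e.symm s).2) - U i (e.symm s).2 • D K (A i) (U i (e.symm s).1)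
  have main := Pool.Agent.TH997.FD (K := K) (N := N) (fun i => Ω[A i⁄K]) (by
      intro i m
      rw [hact, hX, one_smul])
    (fun i j => Ω[B i j⁄K]) r (fun i j => kmap (τ i j)) ?_ ?_ ?_ ?_ ?_ 2 _ σ ?_ ?_
  · obtain ⟨l, h, H⟩ := main
    refine ⟨l, h, fun θ hθ => ?_⟩
    obtain ⟨a, ha, η, hη⟩ := H θ (by
      intro n
      obtain ⟨t, b, hb⟩ := hθ n
      refine ⟨t, b, fun i j => ?_⟩
      rw [hr, hact2, hact2, map_pow, map_pow]
      exact hb i j)
    refine ⟨a, ha, η, fun i j => ?_⟩
    rw [← hr, ← hη i j]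
    refine Finset.sum_congr rfl fun n _ => ?_
    rw [hact2, IsScalarTower.algebraMap_apply K (MvPolynomial (Fin (N + 1)) K) (B i j),
      MvPolynomial.algebraMap_eq]
  · -- hrker
    intro i j m hm
    rw [hr, hkm] at hm
    obtain ⟨t, ht⟩ := kloc_ker (algebraMap (MvPolynomial (Fin (N + 1)) K) (A i) (X j)) (B i j) m hm
    exact ⟨t, by rw [hact, map_pow]; exact ht⟩
  · -- hrsurj
    intro i j c
    obtain ⟨t, m, ht⟩ := kloc_surj (algebraMap (MvPolynomial (Fin (N + 1)) K) (A i) (X j)) (B i j) c
    refine ⟨t, m, ?_⟩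
    rw [hr, hkm, ht, ← map_pow, algebraMap_smul]
  · -- hinj
    intro i j c hc
    rw [hact2] at hc
    exact (hunit i j).smul_eq_zero.mp hc
  · -- hr'
    intro i j l m
    rw [hact2, hact2, hact, kmap_smul, smul_smul, hτ]
  · -- hr'C
    intro i j a m
    rw [hact2, hact, kmap_smul]
    congr 1
    rw [← MvPolynomial.algebraMap_eq, ← IsScalarTower.algebraMap_apply,
      ← IsScalarTower.algebraMap_apply, AlgHom.commutes]
  · -- hσ
    intro s i j
    rw [hr, hact2, map_pow]
    simp only [σ]
    set x := algebraMap (MvPolynomial (Fin (N + 1)) K) (B i j) (X j) with hx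
    have h1 : ∀ l, IsScalarTower.toAlgHom K (A i) (B i j) (U i l) = x * τ i j (U j l) := by
      intro l
      rw [hx, hτ, IsScalarTower.toAlgHom_apply, ← IsScalarTower.algebraMap_apply]
    rw [map_sub, map_sub, kmap_smul, kmap_smul, kmap_smul, kmap_smul, kmap_D, kmap_D, kmap_D,
      kmap_D, h1, h1, Derivation.leibniz, Derivation.leibniz]
    module
  · -- hgen
    intro i
    rw [eq_top_iff]
    have h1 : Submodule.span (A i) (Set.range fun s => σ s i) = ⊤ := by
      rw [eq_top_iff, ← span_range_derivation, Submodule.span_le]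
      rintro _ ⟨a, rfl⟩
      obtain ⟨P, rfl⟩ := hsurj i a
      induction P using MvPolynomial.induction_on with
      | C c =>
        have : algebraMap (MvPolynomial (Fin (N + 1)) K) (A i) (C c) = algebraMap K (A i) c := by
          rw [IsScalarTower.algebraMap_apply K (MvPolynomial (Fin (N + 1)) K) (A i),
            MvPolynomial.algebraMap_eq]
        rw [this, Derivation.map_algebraMap]
        exact Submodule.zero_mem _
      | add p q hp hq => rw [map_add, map_add]; exact Submodule.add_mem _ hp hq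
      | mul_X p l hp =>
        rw [map_mul, Derivation.leibniz]
        refine Submodule.add_mem _ (Submodule.smul_mem _ _ ?_) (Submodule.smul_mem _ _ hp)
        apply Submodule.subset_span
        refine ⟨e (i, l), ?_⟩
        simp only [σ, Equiv.symm_apply_apply, U, hX, one_smul, Derivation.map_one_eq_zero, smul_zero,
          sub_zero]
    have h2 := Submodule.restrictScalars_span (MvPolynomial (Fin (N + 1)) K) (A i) (hsurj i)
      (Set.range fun s => σ s i)
    rw [← h2, h1]
    exact le_of_eq rfl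

end

end Pool.Agent.TH148
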