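import Mathlib
import Pool.Agent.TH148.Q4a
import Pool.Agent.TH148.Q4b
import Pool.Agent.TH148.Q4c

set_option autoImplicit false

namespace Pool.Agent.TH148

open MvPolynomial KaehlerDifferential

section

variable {K : Type} [Field K] [CharZero K] {N : ℕ}

theorem FDchart (I : Ideal (MvPolynomial (Fin (N + 1)) K)) (hI : HomI I) :
    ∃ l : Fin (N + 1) → K, ∃ h : ℕ, ∀ θ : Fin h → ∀ i j, Ω[AB I i j⁄K],
      (∀ n, ∃ (t : ℕ) (b : ∀ i, Ω[AA I i⁄K]), ∀ i j,
        kmap (iot I i j) (b i) - (iot I i j (uu I i j)) ^ t • kmap (tau hI i j) (b j) =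
          (iot I i j (Ideal.Quotient.mk _ (∑ a, C (l a) * X a))) ^ t • θ n i j) →
      ∃ a : Fin h → K, a ≠ 0 ∧ ∃ η : ∀ i, Ω[AA I i⁄K], ∀ i j,
        ∑ n, algebraMap K (AB I i j) (a n) • θ n i j =
          kmap (iot I i j) (η i) - kmap (tau hI i j) (η j) := by
  have hloc : ∀ i j, IsLocalization.Away
      (algebraMap (MvPolynomial (Fin (N + 1)) K) (AA I i) (X j)) (AB I i j) := fun i j =>
    inferInstanceAs (IsLocalization.Away (uu I i j) (Localization.Away (uu I i j)))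
  exact FDapp (K := K) (N := N) (fun i => AA I i) (fun i => Ideal.Quotient.mk_surjective)
    (fun i => uu_self I i) (fun i j => AB I i j) (fun i j => tau hI i j) (by
      intro i j l
      have h1 := tau_hom hI i j (X l) (isHomogeneous_X _ l)
      rw [pow_one] at h1
      exact h1)

theorem REL (I : Ideal (MvPolynomial (Fin (N + 1)) K)) (hI : HomI I)
    (𝓕 : ℕ → Set (Fin (N + 1) → MvPolynomial (Fin (N + 1)) K))
    (hhom : ∀ n, ∀ F ∈ 𝓕 n, ∃ d, ∀ a, (F a).IsHomogeneous d)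
    (huni : ∀ n i, ∃ M : ℕ, (X i : MvPolynomial (Fin (N + 1)) K) ^ M ∈
      I ⊔ Ideal.span {P | ∃ F ∈ 𝓕 n, ∃ a, P = F a})
    (hprop : ∀ n, ∀ F ∈ 𝓕 n, ∀ F' ∈ 𝓕 n, ∀ a b i, ∃ M : ℕ,
      (X i : MvPolynomial (Fin (N + 1)) K) ^ M * (F a * F' b - F b * F' a) ∈ I) :
    ∃ (h : ℕ) (a : Fin h → K), a ≠ 0 ∧
      ∃ (E : ∀ (_ : ℕ) (i : Fin (N + 1)), Fin (N + 1) → Fin (N + 1) → AA I i)
        (η : ∀ i, Ω[AA I i⁄K]),
        (∀ n i b, (fun l => E n i l b) ∈ Submodule.span (AA I i) (Vs I (𝓕 n) i)) ∧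
        (∀ n i, ∑ b, E n i b b = 1) ∧
        ∀ i j, ∑ n : Fin h, algebraMap K (AB I i j) (a n) •
            (∑ l, ∑ b, iot I i j (E n i l b) • D K _ (tau hI i j (E n j b l))) =
          kmap (iot I i j) (η i) - kmap (tau hI i j) (η j) := by
  choose E hE1 hE2 using fun n i => exists_Emat (I := I) (𝓖 := 𝓕 n) (huni n) i
  obtain ⟨c, h, H⟩ := FDchart I hI
  obtain ⟨a, ha, η, hη⟩ := H (fun n i j =>
    ∑ l, ∑ b, iot I i j (E n i l b) • D K _ (tau hI i j (E n j b l))) (by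
    intro n
    obtain ⟨s, P, hPh, hP1, hP2⟩ := exists_P hI (hhom n) (huni n) c
    set ℓ : MvPolynomial (Fin (N + 1)) K := ∑ a, C (c a) * X a with hℓ
    have hℓ1 : ℓ.IsHomogeneous 1 := by
      rw [hℓ]
      exact IsHomogeneous.sum _ _ _ fun a _ => isHomogeneous_C_mul_X _ _
    let pp : ∀ i, Fin (N + 1) → Fin (N + 1) → AA I i := fun i a b => Ideal.Quotient.mk _ (P a b)
    let ll : ∀ i, AA I i := fun i => Ideal.Quotient.mk _ ℓ
    refine ⟨s + 1, fun i => ∑ a, ∑ b, E n i a b •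
      (ll i • D K _ (pp i b a) - ((s : AA I i) * pp i b a) • D K _ (ll i)), ?_⟩
    intro i j
    have key := Par.cb (D K (AB I i j)) (par_Vs2 (hprop n) i j)
      (fun a b => iot I i j (E n i a b)) (fun a b => tau hI i j (E n j a b))
      (fun a b => iot I i j (pp i a b)) (fun a b => tau hI i j (pp j a b))
      (fun b => iot_Vs i j _ (hE1 n i b)) (fun b => tau_Vs hI (hhom n) i j _ (hE1 n j b))
      (fun b => iot_Vs i j _ (mk_span i _ (hP1 b)))
      (by rw [← map_sum, hE2, map_one]) (by rw [← map_sum, hE2, map_one])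
      (iot I i j (uu I i j)) (iot I i j (ll i)) (tau hI i j (ll j)) s
      (by have := tau_hom hI i j ℓ hℓ1; rwa [pow_one] at this)
      (fun a b => tau_hom hI i j (P a b) (hPh a b))
      (by
        rw [← map_sum, ← map_pow]
        congr 1
        have h1 : (Ideal.Quotient.mk (I ⊔ Ideal.span {(X i - 1 : MvPolynomial (Fin (N + 1)) K)}))
          (∑ b, P b b - ℓ ^ s) = 0 := by
          rw [Ideal.Quotient.eq_zero_iff_mem]; exact Ideal.mem_sup_left hP2
        rw [map_sub, sub_eq_zero, map_sum, map_pow] at h1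
        exact h1)
    simp only [map_sum, map_sub, kmap_smul, kmap_D, map_mul, map_natCast]
    exact key)
  exact ⟨h, a, ha, E, η, hE1, hE2, hη⟩

end

end Pool.Agent.TH148
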