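import Mathlib

set_option autoImplicit false

namespace Pool.Agent.TH148

open Cardinal

section

variable {k L : Type} [Field k] [Field L] [Algebra k L]

lemma TR2 (T₀ T : L) (h0 : FiniteDimensional (IntermediateField.adjoin k {T₀}) L)
    (hT : Transcendental k T) : FiniteDimensional (IntermediateField.adjoin k {T}) L := by
  have halg' : Algebra.IsAlgebraic (Algebra.adjoin k ({T₀} : Set L)) L := by
    constructor
    intro x
    have h1 := (Algebra.IsAlgebraic.of_finite (IntermediateField.adjoin k {T₀}) L).isAlgebraic x
    exact IntermediateField.isAlgebraic_adjoin_iff.mp h1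
  have hind : AlgebraicIndependent k (fun _ : Unit => T) :=
    (algebraicIndependent_unique_type_iff).mpr hT
  have h3 : Algebra.trdeg k L ≤ #({T₀} : Set L) := Algebra.IsAlgebraic.trdeg_le_cardinalMk k {T₀}
  rw [Cardinal.mk_singleton] at h3
  have hb : IsTranscendenceBasis k (fun _ : Unit => T) :=
    hind.isTranscendenceBasis_of_trdeg_le_of_finite (by simpa using h3)
  have halg : Algebra.IsAlgebraic (IntermediateField.adjoin k {T}) L := by
    constructor
    intro x
    have h4 := hb.isAlgebraic.isAlgebraic x
    rw [Set.range_const] at h4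
    exact IntermediateField.isAlgebraic_adjoin_iff.mpr h4
  have e1 : Algebra.EssFiniteType k (IntermediateField.adjoin k {T₀}) :=
    IntermediateField.essFiniteType_iff.mpr (by
      have := IntermediateField.fg_adjoin_finset (F := k) ({T₀} : Finset L)
      simpa using this)
  have e2 : Algebra.EssFiniteType k L :=
    Algebra.EssFiniteType.comp k (IntermediateField.adjoin k {T₀}) L
  have e3 : Algebra.EssFiniteType (IntermediateField.adjoin k {T}) L :=
    Algebra.EssFiniteType.of_comp k _ L
  exact Algebra.finite_of_essFiniteType_of_isAlgebraic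

lemma mem_all_iff (x : L) : (∀ O : ValuationSubring L, (∀ c : k, algebraMap k L c ∈ O) → x ∈ O) ↔
    IsIntegral k x := by
  have key := iInf_valuationSubring_superset (K := L) (s := Set.range (algebraMap k L))
  have hcl : Subring.closure (Set.range (algebraMap k L)) = (algebraMap k L).range := by
    apply le_antisymm
    · rw [Subring.closure_le]
      rintro _ ⟨c, rfl⟩; exact ⟨c, rfl⟩
    · rintro _ ⟨c, rfl⟩; exact Subring.subset_closure ⟨c, rfl⟩
  have h1 : (∀ O : ValuationSubring L, (∀ c : k, algebraMap k L c ∈ O) → x ∈ O) ↔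
      x ∈ (⨅ V : {V : ValuationSubring L // Set.range (algebraMap k L) ⊆ V.toSubring},
        V.1.toSubring) := by
    rw [Subring.mem_iInf]
    constructor
    · rintro h ⟨V, hV⟩
      exact h V fun c => hV ⟨c, rfl⟩
    · intro h O hO
      exact h ⟨O, by rintro _ ⟨c, rfl⟩; exact hO c⟩
  rw [h1, key]
  constructor
  · intro h
    have h2 : IsIntegral (Subring.closure (Set.range (algebraMap k L))) x := h
    obtain ⟨p, hp, hpx⟩ := h2
    have hlift : p ∈ Polynomial.lifts ((algebraMap k L).codRestrict
        (Subring.closure (Set.range (algebraMap k L))) fun c => Subring.subset_closure ⟨c, rfl⟩) := by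
      rw [Polynomial.lifts_iff_coeff_lifts]
      intro n
      obtain ⟨c, hc⟩ := hcl.le (p.coeff n).2
      exact ⟨c, Subtype.ext hc⟩
    obtain ⟨q, hq, hdeg, hmon⟩ := Polynomial.lifts_and_natDegree_eq_and_monic hlift hp
    refine ⟨q, hmon, ?_⟩
    rw [← hpx, ← hq, Polynomial.eval₂_map]
    rfl
  · intro h
    change IsIntegral (Subring.closure (Set.range (algebraMap k L))) x
    obtain ⟨q, hq, hqx⟩ := h
    refine ⟨q.map ((algebraMap k L).codRestrict
        (Subring.closure (Set.range (algebraMap k L))) fun c => Subring.subset_closure ⟨c, rfl⟩),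
        hq.map _, ?_⟩
    rw [Polynomial.eval₂_map]
    exact hqx

lemma TR1 (T₀ T : L) (hT₀ : Transcendental k T₀)
    (h : ∀ O : ValuationSubring L, (∀ c : k, algebraMap k L c ∈ O) → T ∈ O → T₀ ∈ O) :
    Transcendental k T := by
  intro hT
  apply hT₀
  rw [isAlgebraic_iff_isIntegral, ← mem_all_iff]
  intro O hO
  exact h O hO ((mem_all_iff T).mpr (isAlgebraic_iff_isIntegral.mp hT) O hO)

end

end Pool.Agent.TH148
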