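import Mathlib

set_option autoImplicit false

namespace Pool.Agent.TH148

/-- statement of QB0 -/
def QB0Stmt : Prop := ∀ {k L : Type} [Field k] [CharZero k] [Field L] [Algebra k L] (T : L)
    (_ : Transcendental k T) [FiniteDimensional (IntermediateField.adjoin k {T}) L],
    ∃ δ : Derivation k L L, δ T = 1

/-- statement of QB -/
def QBStmt : Prop := ∀ {k L : Type} [Field k] [CharZero k] [IsAlgClosed k] [Field L]
    [Algebra k L] (T : L)
    (_ : Transcendental k T) [FiniteDimensional (IntermediateField.adjoin k {T}) L]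
    (δ : Derivation k L L) (_ : δ T = 1) (f : L) (α : k) (_ : α ≠ 0)
    (_ : ∀ O : ValuationSubring L, (∀ c : k, algebraMap k L c ∈ O) → T ∈ O →
      f ∈ Submodule.span O (δ '' (O : Set L)))
    (_ : ∀ O : ValuationSubring L, (∀ c : k, algebraMap k L c ∈ O) → T ∉ O →
      f - algebraMap k L α * T⁻¹ ∈ Submodule.span O (δ '' (O : Set L))),
    False

end Pool.Agent.TH148
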