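import Mathlib
import Pool.Agent.TH148.Q4d
import Pool.Agent.TH148.Q5a
import Pool.Agent.TH148.QBstmt
import Pool.Agent.TH596.J66

set_option autoImplicit false

namespace Pool.Agent.TH148

open MvPolynomial KaehlerDifferential

section fieldlemmas

variable {k L : Type} [Field k] [Field L] [Algebra k L] {N : ℕ}

lemma exists_max_coord (O : ValuationSubring L) (v : Fin (N + 1) → L) (hv : v ≠ 0) :
    ∃ i, v i ≠ 0 ∧ ∀ l, (v i)⁻¹ * v l ∈ O := by
  obtain ⟨i, hi⟩ := Finite.exists_max (fun l => O.valuation (v l))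
  have hvi : v i ≠ 0 := by
    intro h0
    apply hv
    funext l
    have h1 := hi l
    simp only [h0, map_zero, le_zero_iff] at h1
    exact (map_eq_zero _).mp h1
  refine ⟨i, hvi, fun l => ?_⟩
  rw [← O.valuation_le_one_iff, map_mul, map_inv₀, mul_comm, ← div_eq_mul_inv]
  have h2 : 0 < O.valuation (v i) := by
    rw [Valuation.pos_iff]; exact hvi
  exact (div_le_one₀ h2).mpr (hi l)

lemma wformula (δ : Derivation k L L) (ξ ζ : Fin (N + 1) → L) (hs : ∑ b, ξ b * ζ b = 1)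
    (c : Fin (N + 1)) (hc : ξ c ≠ 0) :
    ∑ b, ζ b * δ (ξ b) = (ξ c)⁻¹ * δ (ξ c) + ∑ b, (ξ c * ζ b) * δ ((ξ c)⁻¹ * ξ b) := by
  have h1 : ∀ b, δ (ξ b) = ξ c * δ ((ξ c)⁻¹ * ξ b) + ((ξ c)⁻¹ * ξ b) * δ (ξ c) := by
    intro b
    have h2 : ξ b = ξ c * ((ξ c)⁻¹ * ξ b) := by field_simp
    conv_lhs => rw [h2, Derivation.leibniz]
    simp only [smul_eq_mul]
  have h3 : ∀ b, ζ b * δ (ξ b) = (ξ c * ζ b) * δ ((ξ c)⁻¹ * ξ b) +
      (ξ b * ζ b) * ((ξ c)⁻¹ * δ (ξ c)) := by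
    intro b; rw [h1 b]; ring
  simp only [h3]
  rw [Finset.sum_add_distrib, ← Finset.sum_mul, hs, one_mul, add_comm]

lemma theta_eval (δ : Derivation k L L) (ξ ζ ζ' : Fin (N + 1) → L)
    (hs : ∑ b, ξ b * ζ b = 1) (hs' : ∑ b, ξ b * ζ' b = 1) :
    ∑ l, ∑ b, (ξ l * ζ b) * δ (ξ b * ζ' l) = ∑ b, ζ b * δ (ξ b) - ∑ b, ζ' b * δ (ξ b) := by
  have h1 : ∑ l, (ξ l * δ (ζ' l) + ζ' l * δ (ξ l)) = 0 := by
    have := congrArg δ hs'
    rw [map_sum, Derivation.map_one_eq_zero] at this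
    rw [← this]
    refine Finset.sum_congr rfl fun l _ => ?_
    rw [Derivation.leibniz]; simp only [smul_eq_mul]
  rw [Finset.sum_add_distrib] at h1
  have h2 : ∀ l b, (ξ l * ζ b) * δ (ξ b * ζ' l) =
      (ξ l * ζ' l) * (ζ b * δ (ξ b)) + (ξ b * ζ b) * (ξ l * δ (ζ' l)) := by
    intro l b
    rw [Derivation.leibniz]; simp only [smul_eq_mul]; ring
  simp only [h2, Finset.sum_add_distrib]
  have h3 : ∑ l, ∑ b, (ξ l * ζ' l) * (ζ b * δ (ξ b)) = ∑ b, ζ b * δ (ξ b) := by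
    simp only [← Finset.mul_sum]
    rw [← Finset.sum_mul, hs', one_mul]
  have h4 : ∑ l, ∑ b, (ξ b * ζ b) * (ξ l * δ (ζ' l)) = ∑ l, ξ l * δ (ζ' l) := by
    refine Finset.sum_congr rfl fun l _ => ?_
    rw [← Finset.sum_mul, hs, one_mul]
  rw [h3, h4]
  linear_combination h1

lemma mul_mem_SP (O : ValuationSubring L) (S : Submodule O L) {x y : L} (hx : x ∈ O)
    (hy : y ∈ S) : x * y ∈ S := S.smul_mem (⟨x, hx⟩ : O) hy

end fieldlemmas

section

variable {K k L : Type} [Field K] [Field k] [Field L] [Algebra K k] [Algebra k L] [Algebra K L]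
  [IsScalarTower K k L] {N : ℕ}

lemma kev_mem {A : Type} [CommRing A] [Algebra K A] (O : ValuationSubring L)
    (δ : Derivation k L L) (zi : A →ₐ[K] L) (hz : ∀ x, zi x ∈ O) (η : Ω[A⁄K]) :
    kev zi (δ.restrictScalars K) η ∈ Submodule.span O (δ '' (O : Set L)) := by
  have hx : η ∈ Submodule.span A (Set.range (D K A)) := by
    rw [span_range_derivation]; trivial
  induction hx using Submodule.closure_induction with
  | zero => rw [map_zero]; exact Submodule.zero_mem _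
  | add x y _ _ hx hy => rw [map_add]; exact Submodule.add_mem _ hx hy
  | smul_mem a x hx =>
    obtain ⟨b, rfl⟩ := hx
    rw [kev_smul, kev_D]
    exact mul_mem_SP O _ (hz a) (Submodule.subset_span ⟨zi b, hz b, rfl⟩)

lemma zp_mem {I : Ideal (MvPolynomial (Fin (N + 1)) K)} (hI : HomI I) {z : Fin (N + 1) → L}
    (hz : OnI I z) (i : Fin (N + 1)) (hi : z i ≠ 0) (O : ValuationSubring L)
    (hO : ∀ c : K, algebraMap K L c ∈ O) (hiO : ∀ l, (z i)⁻¹ * z l ∈ O) (x : AA I i) :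
    zp hI hz i hi x ∈ O := by
  obtain ⟨P, rfl⟩ := Ideal.Quotient.mk_surjective x
  rw [zp, AAlift_mk]
  induction P using MvPolynomial.induction_on with
  | C c => rw [aeval_C]; exact hO c
  | add p q hp hq => rw [map_add]; exact add_mem hp hq
  | mul_X p l hp => rw [map_mul, aeval_X]; exact mul_mem hp (hiO l)

end

end Pool.Agent.TH148
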