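import Mathlib
import Pool.Agent.TH148.Q5b

set_option autoImplicit false

namespace Pool.Agent.TH148

open MvPolynomial KaehlerDifferential

section

variable {K L : Type} [Field K] [Field L] [Algebra K L] {N : ℕ}

/-- vectors over `L` -/
def VL (𝓖 : Set (Fin (N + 1) → MvPolynomial (Fin (N + 1)) K)) (z : Fin (N + 1) → L) :
    Set (Fin (N + 1) → L) :=
  {w | ∃ F ∈ 𝓖, w = fun l => aeval z (F l)}

lemma par_VL {I : Ideal (MvPolynomial (Fin (N + 1)) K)}
    {𝓖 : Set (Fin (N + 1) → MvPolynomial (Fin (N + 1)) K)} {z : Fin (N + 1) → L}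
    (hprop : ∀ F ∈ 𝓖, ∀ F' ∈ 𝓖, ∀ a b i, ∃ M : ℕ,
      (X i : MvPolynomial (Fin (N + 1)) K) ^ M * (F a * F' b - F b * F' a) ∈ I)
    (hz : OnI I z) (hz0 : z ≠ 0) : Par (Submodule.span L (VL 𝓖 z)) := by
  apply Par.span
  rintro _ ⟨F, hF, rfl⟩ _ ⟨F', hF', rfl⟩ a b
  obtain ⟨i, hi⟩ := Function.ne_iff.mp hz0
  obtain ⟨M, hM⟩ := hprop F hF F' hF' a b i
  have h1 := hz _ hM
  rw [map_mul, map_pow, aeval_X, map_sub, map_mul, map_mul] at h1
  rcases mul_eq_zero.mp h1 with h2 | h2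
  · exact absurd (eq_zero_of_pow_eq_zero h2) hi
  · exact sub_eq_zero.mp h2

lemma zp_Vs {I : Ideal (MvPolynomial (Fin (N + 1)) K)} (hI : HomI I)
    {𝓖 : Set (Fin (N + 1) → MvPolynomial (Fin (N + 1)) K)} {z : Fin (N + 1) → L}
    (hhom : ∀ F ∈ 𝓖, ∃ d, ∀ a, (F a).IsHomogeneous d)
    (hz : OnI I z) (i : Fin (N + 1)) (hi : z i ≠ 0) (w)
    (hw : w ∈ Submodule.span (AA I i) (Vs I 𝓖 i)) :
    (fun l => zp hI hz i hi (w l)) ∈ Submodule.span L (VL 𝓖 z) := by
  refine span_map_mem (zp hI hz i hi : AA I i →+* L) _ _ ?_ w hw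
  rintro _ ⟨F, hF, rfl⟩
  obtain ⟨d, hd⟩ := hhom F hF
  have : (fun a => zp hI hz i hi (Ideal.Quotient.mk _ (F a))) =
      (((z i)⁻¹) ^ d) • fun a => aeval z (F a) := by
    funext a
    rw [Pi.smul_apply, smul_eq_mul, zp_mk hI hz i hi (F a) (hd a)]
  change (fun a => zp hI hz i hi (Ideal.Quotient.mk _ (F a))) ∈ _
  rw [this]
  exact Submodule.smul_mem _ _ (Submodule.subset_span ⟨F, hF, rfl⟩)

end

theorem QEV (hQB0 : QB0Stmt) (hQB : QBStmt)
    {K k L : Type} [Field K] [CharZero K] [Field k] [IsAlgClosed k] [Field L] [Algebra K k]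
    [Algebra k L] [Algebra K L] [IsScalarTower K k L] {N : ℕ}
    (I : Ideal (MvPolynomial (Fin (N + 1)) K)) (hI : HomI I)
    (𝓕 : ℕ → Set (Fin (N + 1) → MvPolynomial (Fin (N + 1)) K))
    (hhom : ∀ n, ∀ F ∈ 𝓕 n, ∃ d, ∀ a, (F a).IsHomogeneous d)
    (hprop : ∀ n, ∀ F ∈ 𝓕 n, ∀ F' ∈ 𝓕 n, ∀ a b i, ∃ M : ℕ,
      (X i : MvPolynomial (Fin (N + 1)) K) ^ M * (F a * F' b - F b * F' a) ∈ I)
    (h : ℕ) (a : Fin h → K)
    (E : ∀ (_ : ℕ) (i : Fin (N + 1)), Fin (N + 1) → Fin (N + 1) → AA I i)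
    (η : ∀ i, Ω[AA I i⁄K])
    (hE1 : ∀ n i b, (fun l => E n i l b) ∈ Submodule.span (AA I i) (Vs I (𝓕 n) i))
    (hE2 : ∀ n i, ∑ b, E n i b b = 1)
    (hrel : ∀ i j, ∑ n : Fin h, algebraMap K (AB I i j) (a n) •
            (∑ l, ∑ b, iot I i j (E n i l b) • D K _ (tau hI i j (E n j b l))) =
          kmap (iot I i j) (η i) - kmap (tau hI i j) (η j))
    (T : L) (hT : Transcendental k T) (hfd : FiniteDimensional (IntermediateField.adjoin k {T}) L)
    (z : Fin (N + 1) → L) (hz : OnI I z) (hz0 : z ≠ 0)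
    (m : Fin h) (hm : a m ≠ 0) (hmlt : ∀ n < m, a n = 0)
    (ξ : Fin h → Fin (N + 1) → L)
    (hξ : ∀ n : Fin h, ∃ F ∈ 𝓕 n, ∃ c, ξ n = fun l => c * aeval z (F l))
    (hξ1 : ∀ n, ∃ α, ξ n α = 1)
    (hconst : ∀ n, m < n → ∀ l, ∃ c : k, ξ n l = algebraMap k L c)
    (hnc : ∃ b, ξ m b = T) : False := by
  classical
  have hck : CharZero k := charZero_of_injective_algebraMap (algebraMap K k).injective
  have halg : Algebra.IsAlgebraic (IntermediateField.adjoin k {T}) L :=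
    Algebra.IsAlgebraic.of_finite _ _
  obtain ⟨b₀, hb₀⟩ := hnc
  obtain ⟨lam, hlam⟩ := Pool.Agent.TH596.J66.QT T halg (ξ m)
  set T' : L := ∑ b, algebraMap k L (lam b) * ξ m b with hT'def
  have hT' : Transcendental k T' := TR1 T T' hT (fun O hO hO' => by
    rw [← hb₀]; exact (hlam O hO).1 hO' b₀)
  have hfd' : FiniteDimensional (IntermediateField.adjoin k {T'}) L := TR2 T T' hfd hT'
  obtain ⟨δ, hδ⟩ := hQB0 T' hT'
  let δK : Derivation K L L := δ.restrictScalars K
  have hδK : ∀ x, δK x = δ x := fun _ => rfl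
  choose α hα using hξ1
  -- matrices
  have hpar : ∀ n : ℕ, Par (Submodule.span L (VL (𝓕 n) z)) := fun n => par_VL (hprop n) hz hz0
  have hcol : ∀ (n : ℕ) i (hi : z i ≠ 0) b, (fun l => zp hI hz i hi (E n i l b)) ∈
      Submodule.span L (VL (𝓕 n) z) := fun n i hi b => zp_Vs hI (hhom n) hz i hi _ (hE1 n i b)
  have hξm : ∀ n : Fin h, ξ n ∈ Submodule.span L (VL (𝓕 n) z) := by
    intro n
    obtain ⟨F, hF, c, hc⟩ := hξ n
    have : ξ n = c • fun l => aeval z (F l) := by rw [hc]; rfl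
    rw [this]
    exact Submodule.smul_mem _ _ (Submodule.subset_span ⟨F, hF, rfl⟩)
  have hrank : ∀ (n : Fin h) i (hi : z i ≠ 0) l b, zp hI hz i hi (E n i l b) =
      ξ n l * zp hI hz i hi (E n i (α n) b) := by
    intro n i hi l b
    have := hpar n _ (hcol n i hi b) _ (hξm n) l (α n)
    rw [hα, mul_one] at this
    rw [this]; ring
  have htr : ∀ (n : Fin h) i (hi : z i ≠ 0), ∑ b, ξ n b * zp hI hz i hi (E n i (α n) b) = 1 := by
    intro n i hi
    have h1 := congrArg (zp hI hz i hi) (hE2 n i)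
    rw [map_sum, map_one] at h1
    rw [← h1]
    exact Finset.sum_congr rfl fun b _ => (hrank n i hi b b).symm
  let W : ∀ (_ : Fin h) (i : Fin (N + 1)) (_ : z i ≠ 0), L := fun n i hi =>
    ∑ b, zp hI hz i hi (E n i (α n) b) * δ (ξ n b)
  -- evaluation of the relation
  have hev : ∀ i j (hi : z i ≠ 0) (hj : z j ≠ 0),
      ∑ n : Fin h, algebraMap K L (a n) * (W n i hi - W n j hj) =
        kev (zp hI hz i hi) δK (η i) - kev (zp hI hz j hj) δK (η j) := by
    intro i j hi hj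
    have h1 := congrArg (kev (zp2 hI hz i j hi hj) δK) (hrel i j)
    rw [map_sub, kev_kmap, kev_kmap, zp2_iot, zp2_tau, map_sum] at h1
    rw [← h1]
    refine Finset.sum_congr rfl fun n _ => ?_
    rw [kev_smul, AlgHom.commutes]
    congr 1
    rw [map_sum]
    have h2 := theta_eval δ (ξ n) (fun b => zp hI hz i hi (E n i (α n) b))
      (fun b => zp hI hz j hj (E n j (α n) b)) (htr n i hi) (htr n j hj)
    simp only [W]
    rw [← h2]
    refine Finset.sum_congr rfl fun l _ => ?_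
    rw [map_sum]
    refine Finset.sum_congr rfl fun b _ => ?_
    rw [kev_smul, kev_D, hδK, ← AlgHom.comp_apply, ← AlgHom.comp_apply, zp2_iot, zp2_tau,
      hrank n i hi l b, hrank n j hj b l]
  have hWconst : ∀ n, m < n → ∀ i hi, W n i hi = 0 := by
    intro n hn i hi
    simp only [W]
    apply Finset.sum_eq_zero
    intro b _
    obtain ⟨c, hc⟩ := hconst n hn b
    rw [hc, Derivation.map_algebraMap, mul_zero]
  have hev2 : ∀ i j (hi : z i ≠ 0) (hj : z j ≠ 0),
      algebraMap K L (a m) * W m i hi - kev (zp hI hz i hi) δK (η i) =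
        algebraMap K L (a m) * W m j hj - kev (zp hI hz j hj) δK (η j) := by
    intro i j hi hj
    have h1 := hev i j hi hj
    rw [Finset.sum_eq_single m] at h1
    · linear_combination h1
    · intro n _ hn
      rcases lt_or_gt_of_ne hn with h2 | h2
      · rw [hmlt n h2, map_zero, zero_mul]
      · rw [hWconst n h2, hWconst n h2, sub_zero, mul_zero]
    · intro h2; exact absurd (Finset.mem_univ m) h2
  obtain ⟨i₀, hi₀⟩ := Function.ne_iff.mp hz0
  let f : L := algebraMap K L (a m) * W m i₀ hi₀ - kev (zp hI hz i₀ hi₀) δK (η i₀)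
  -- local analysis
  have hloc : ∀ O : ValuationSubring L, (∀ c : k, algebraMap k L c ∈ O) →
      ∃ c, ξ m c ≠ 0 ∧ (∀ l, (ξ m c)⁻¹ * ξ m l ∈ O) ∧
        f - algebraMap K L (a m) * ((ξ m c)⁻¹ * δ (ξ m c)) ∈
          Submodule.span O (δ '' (O : Set L)) := by
    intro O hO
    have hOK : ∀ c : K, algebraMap K L c ∈ O := by
      intro c
      rw [IsScalarTower.algebraMap_apply K k L]
      exact hO _
    obtain ⟨i, hi, hiO⟩ := exists_max_coord O z hz0
    have hξm0 : ξ m ≠ 0 := by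
      intro h0
      have := hα m
      rw [h0] at this
      exact zero_ne_one this
    obtain ⟨c, hc, hcO⟩ := exists_max_coord O (ξ m) hξm0
    refine ⟨c, hc, hcO, ?_⟩
    have hf : f = algebraMap K L (a m) * W m i hi - kev (zp hI hz i hi) δK (η i) :=
      hev2 i₀ i hi₀ hi
    have hW := wformula δ (ξ m) (fun b => zp hI hz i hi (E m i (α m) b)) (htr m i hi) c hc
    have h3 : f - algebraMap K L (a m) * ((ξ m c)⁻¹ * δ (ξ m c)) =
        algebraMap K L (a m) * (∑ b, zp hI hz i hi (E m i c b) * δ ((ξ m c)⁻¹ * ξ m b)) -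
          kev (zp hI hz i hi) δK (η i) := by
      rw [hf]
      simp only [W]
      rw [hW]
      have h4 : ∀ b, ξ m c * zp hI hz i hi (E m i (α m) b) = zp hI hz i hi (E m i c b) :=
        fun b => (hrank m i hi c b).symm
      simp only [h4]
      ring
    rw [h3]
    refine Submodule.sub_mem _ (mul_mem_SP O _ (hOK _) (Submodule.sum_mem _ fun b _ => ?_))
      (kev_mem O δ _ (zp_mem hI hz i hi O hOK hiO) _)
    exact mul_mem_SP O _ (zp_mem hI hz i hi O hOK hiO _) (Submodule.subset_span ⟨_, hcO b, rfl⟩)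
  refine hQB T' hT' δ hδ f (algebraMap K k (a m)) ?_ ?_ ?_
  · exact (map_ne_zero _).mpr hm
  · intro O hO hTO
    obtain ⟨c, hc, hcO, hfO⟩ := hloc O hO
    have hall := (hlam O hO).1 hTO
    have hinv : (ξ m c)⁻¹ ∈ O := by
      have := hcO (α m)
      rwa [hα, mul_one] at this
    have h5 : algebraMap K L (a m) * ((ξ m c)⁻¹ * δ (ξ m c)) ∈
        Submodule.span O (δ '' (O : Set L)) := by
      refine mul_mem_SP O _ ?_ (mul_mem_SP O _ hinv (Submodule.subset_span ⟨_, hall c, rfl⟩))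
      rw [IsScalarTower.algebraMap_apply K k L]; exact hO _
    have := Submodule.add_mem _ hfO h5
    rwa [sub_add_cancel] at this
  · intro O hO hTO
    obtain ⟨c, hc, hcO, hfO⟩ := hloc O hO
    have hall := (hlam O hO).2 hTO
    have hT0 : T' ≠ 0 := by
      rintro h0
      apply hTO
      rw [h0]; exact zero_mem _
    set u : L := ξ m c * T'⁻¹ with hu
    have huO : u ∈ O := hall c
    have huinv : u⁻¹ ∈ O := by
      have h6 : u⁻¹ = ∑ b, algebraMap k L (lam b) * ((ξ m c)⁻¹ * ξ m b) := by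
        rw [hu, mul_inv, inv_inv, hT'def, Finset.mul_sum]
        exact Finset.sum_congr rfl fun b _ => by ring
      rw [h6]
      exact sum_mem fun b _ => mul_mem (hO _) (hcO b)
    have hu0 : u ≠ 0 := mul_ne_zero hc (inv_ne_zero hT0)
    have h7 : (ξ m c)⁻¹ * δ (ξ m c) = u⁻¹ * δ u + T'⁻¹ := by
      have h8 : ξ m c = u * T' := by rw [hu]; field_simp
      have h9 : δ (ξ m c) = u * 1 + T' * δ u := by
        conv_lhs => rw [h8, Derivation.leibniz, hδ]
        simp only [smul_eq_mul]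
      rw [h9]
      conv_lhs => rw [h8]
      field_simp
      ring
    have h10 : f - algebraMap k L (algebraMap K k (a m)) * T'⁻¹ =
        (f - algebraMap K L (a m) * ((ξ m c)⁻¹ * δ (ξ m c))) +
          algebraMap K L (a m) * (u⁻¹ * δ u) := by
      rw [h7, ← IsScalarTower.algebraMap_apply K k L]; ring
    rw [h10]
    refine Submodule.add_mem _ hfO (mul_mem_SP O _ ?_ (mul_mem_SP O _ huinv
      (Submodule.subset_span ⟨_, huO, rfl⟩)))
    rw [IsScalarTower.algebraMap_apply K k L]; exact hO _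

end Pool.Agent.TH148
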