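import Mathlib
import Pool.Agent.TH148.Q5c
import Pool.Agent.TH596.J67

set_option autoImplicit false

namespace Pool.Agent.TH148

open MvPolynomial KaehlerDifferential

/-- QC: a projective scheme `V(I)` over a field `K` of characteristic zero does not carry infinitely
many morphisms `H_n` to `P^N` (given by the families of tuples `𝓕 n`) and curves `z_m` such that
`H_n (z_m)` is constant for `n > m` and `H_m (z_m)` is not constant. -/
theorem QC_of (hQB0 : QB0Stmt) (hQB : QBStmt)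
    {K κ : Type} [Field K] [CharZero K] [Field κ] [Algebra K κ] {N : ℕ}
    (I : Ideal (MvPolynomial (Fin (N + 1)) K))
    (hI : ∃ G : Set (MvPolynomial (Fin (N + 1)) K), (∀ g ∈ G, ∃ d, g.IsHomogeneous d) ∧
      I = Ideal.span G)
    (𝓕 : ℕ → Set (Fin (N + 1) → MvPolynomial (Fin (N + 1)) K))
    (hhom : ∀ n, ∀ F ∈ 𝓕 n, ∃ d, ∀ a, (F a).IsHomogeneous d)
    (huni : ∀ n i, ∃ M : ℕ, (X i : MvPolynomial (Fin (N + 1)) K) ^ M ∈
      I ⊔ Ideal.span {P | ∃ F ∈ 𝓕 n, ∃ a, P = F a})
    (hprop : ∀ n, ∀ F ∈ 𝓕 n, ∀ F' ∈ 𝓕 n, ∀ a b i, ∃ M : ℕ,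
      (X i : MvPolynomial (Fin (N + 1)) K) ^ M * (F a * F' b - F b * F' a) ∈ I)
    (E : ℕ → Type) [∀ m, Field (E m)] (ρ : ∀ m, κ →+* E m)
    (z : ∀ m, Fin (N + 1) → E m) (hz0 : ∀ m, z m ≠ 0)
    (hzI : ∀ m, ∀ P ∈ I, eval₂ ((ρ m).comp (algebraMap K κ)) (z m) P = 0)
    (hconst : ∀ m n, m < n → ∃ v : Fin (N + 1) → κ, v ≠ 0 ∧ ∀ F ∈ 𝓕 n, ∀ a b,
      eval₂ ((ρ m).comp (algebraMap K κ)) (z m) (F a) * ρ m (v b) =
        eval₂ ((ρ m).comp (algebraMap K κ)) (z m) (F b) * ρ m (v a))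
    (hnonconst : ∀ m, ∃ F ∈ 𝓕 m, ∃ a b,
      eval₂ ((ρ m).comp (algebraMap K κ)) (z m) (F a) ≠ 0 ∧
      ¬ (ρ m).IsIntegralElem (eval₂ ((ρ m).comp (algebraMap K κ)) (z m) (F b) /
        eval₂ ((ρ m).comp (algebraMap K κ)) (z m) (F a))) :
    False := by
  classical
  obtain ⟨h, a, ha, Em, η, hE1, hE2, hrel⟩ := REL I hI 𝓕 hhom huni hprop
  -- least index
  obtain ⟨m, hm, hmlt⟩ : ∃ m : Fin h, a m ≠ 0 ∧ ∀ n < m, a n = 0 := by
    obtain ⟨n₀, hn₀⟩ := Function.ne_iff.mp ha
    let S : Finset (Fin h) := Finset.univ.filter (fun n => a n ≠ 0)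
    have hS : S.Nonempty := ⟨n₀, by simpa [S] using hn₀⟩
    refine ⟨S.min' hS, ?_, ?_⟩
    · have := S.min'_mem hS
      simpa [S] using this
    · intro n hn
      by_contra hne
      have : n ∈ S := by simpa [S] using hne
      exact absurd (S.min'_le n this) (not_le.mpr hn)
  let EE : Type := E m
  let algκE : Algebra κ EE := (ρ m).toAlgebra
  let algKE : Algebra K EE := ((ρ m).comp (algebraMap K κ)).toAlgebra
  let zz : Fin (N + 1) → EE := z m
  have haev : ∀ P, eval₂ ((ρ m).comp (algebraMap K κ)) (z m) P = aeval zz P := fun _ => rfl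
  have hzz : OnI I zz := fun P hP => hzI m P hP
  have hex : ∀ n : Fin h, ∃ F ∈ 𝓕 n, ∃ α, aeval zz (F α) ≠ 0 ∧
      (n = m → ∃ b, Transcendental κ (aeval zz (F b) / aeval zz (F α))) := by
    intro n
    by_cases hnm : n = m
    · obtain ⟨F, hF, α, b, h1, h2⟩ := hnonconst m
      refine ⟨F, by rw [hnm]; exact hF, α, h1, fun _ => ⟨b, ?_⟩⟩
      intro h3
      exact h2 (isAlgebraic_iff_isIntegral.mp h3)
    · obtain ⟨i, hi⟩ := Function.ne_iff.mp (hz0 m)
      obtain ⟨M, hM⟩ := huni n i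
      by_contra hcon
      have hall : ∀ F ∈ 𝓕 n, ∀ α, aeval zz (F α) = 0 := by
        intro F hF α
        by_contra hne
        exact hcon ⟨F, hF, α, hne, fun h => absurd h hnm⟩
      have hle : I ⊔ Ideal.span {P | ∃ F ∈ 𝓕 n, ∃ a, P = F a} ≤
          RingHom.ker (aeval (R := K) zz).toRingHom := by
        rw [sup_le_iff, Ideal.span_le]
        refine ⟨fun P hP => hzz P hP, ?_⟩
        rintro _ ⟨F, hF, a, rfl⟩
        exact hall F hF a
      have h4 := hle hM
      change aeval zz ((X i) ^ M) = 0 at h4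
      rw [map_pow, aeval_X] at h4
      exact hi (eq_zero_of_pow_eq_zero h4)
  choose F hF α hα htr using hex
  obtain ⟨b, hb⟩ := htr m rfl
  let r : EE := aeval zz (F m b) / aeval zz (F m (α m))
  let s : Finset EE := Finset.univ.image zz ∪ Finset.univ.image (fun i => (zz i)⁻¹) ∪
    Finset.univ.image (fun n : Fin h => (aeval zz (F n (α n)))⁻¹)
  let R₀ := Algebra.adjoin κ (s : Set EE)
  have hz1 : ∀ l, zz l ∈ R₀ := fun l => Algebra.subset_adjoin (by simp [s])
  have hz2 : ∀ l, (zz l)⁻¹ ∈ R₀ := fun l => Algebra.subset_adjoin (by simp [s])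
  have hinv : ∀ n, (aeval zz (F n (α n)))⁻¹ ∈ R₀ := fun n => Algebra.subset_adjoin (by simp [s])
  let zR : Fin (N + 1) → R₀ := fun l => ⟨zz l, hz1 l⟩
  let iR : Fin h → R₀ := fun n => ⟨(aeval zz (F n (α n)))⁻¹, hinv n⟩
  let aevR : MvPolynomial (Fin (N + 1)) K →+* R₀ :=
    eval₂Hom ((algebraMap κ R₀).comp (algebraMap K κ)) zR
  have haevR : ∀ P, ((aevR P : R₀) : EE) = aeval zz P := by
    intro P
    have : (R₀.val : R₀ →+* EE).comp aevR = (aeval (R := K) zz).toRingHom := by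
      apply MvPolynomial.ringHom_ext
      · intro c
        simp only [aevR, RingHom.comp_apply, eval₂Hom_C, AlgHom.toRingHom_eq_coe, RingHom.coe_coe,
          aeval_C]
        rfl
      · intro l
        simp only [aevR, RingHom.comp_apply, eval₂Hom_X', AlgHom.toRingHom_eq_coe, RingHom.coe_coe,
          aeval_X]
        rfl
    exact congrArg (fun q => q P) this
  have hreq : ((iR m * aevR (F m b) : R₀) : EE) = r := by
    rw [Subalgebra.coe_mul, haevR]
    simp only [iR, r]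
    rw [div_eq_mul_inv, mul_comm]
  have hrs : r ∈ R₀ := by rw [← hreq]; exact Subtype.prop _
  obtain ⟨k, ik1, ik2, ik3, L, iL1, iL2, iL3, iL4, T, hT, hfd, ψ, hψ⟩ :=
    Pool.Agent.TH596.J67.QS s r hb hrs
  let algKk : Algebra K k := ((algebraMap κ k).comp (algebraMap K κ)).toAlgebra
  let algKL : Algebra K L := ((algebraMap κ L).comp (algebraMap K κ)).toAlgebra
  have tow : IsScalarTower K k L := IsScalarTower.of_algebraMap_eq fun c => by
    change algebraMap κ L (algebraMap K κ c) = algebraMap k L (algebraMap κ k (algebraMap K κ c))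
    exact IsScalarTower.algebraMap_apply κ k L _
  let zL : Fin (N + 1) → L := fun l => ψ (zR l)
  have hzL : ∀ P : MvPolynomial (Fin (N + 1)) K, aeval zL P = ψ (aevR P) := by
    intro P
    have : (aeval (R := K) zL).toRingHom = (ψ : R₀ →+* L).comp aevR := by
      apply MvPolynomial.ringHom_ext
      · intro c
        simp only [aevR, RingHom.comp_apply, eval₂Hom_C, AlgHom.toRingHom_eq_coe, RingHom.coe_coe,
          aeval_C]
        exact (ψ.commutes _).symm
      · intro l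
        simp only [aevR, RingHom.comp_apply, eval₂Hom_X', AlgHom.toRingHom_eq_coe, RingHom.coe_coe,
          aeval_X]
        rfl
    exact congrArg (fun q => q P) this
  have hOnL : OnI I zL := by
    intro P hP
    rw [hzL]
    have : aevR P = 0 := by
      apply Subtype.ext
      rw [haevR]
      exact hzz P hP
    rw [this, map_zero]
  have hzL0 : zL ≠ 0 := by
    obtain ⟨i, hi⟩ := Function.ne_iff.mp (hz0 m)
    intro h0
    have h1 : zR i * ⟨(zz i)⁻¹, hz2 i⟩ = 1 := Subtype.ext (mul_inv_cancel₀ hi)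
    have h2 := congrArg ψ h1
    rw [map_mul, map_one] at h2
    have h3 : ψ (zR i) = 0 := congrFun h0 i
    rw [h3, zero_mul] at h2
    exact zero_ne_one h2
  have hξ1 : ∀ n, ψ (iR n) * aeval zL (F n (α n)) = 1 := by
    intro n
    rw [hzL, ← map_mul]
    have : iR n * aevR (F n (α n)) = 1 := by
      apply Subtype.ext
      rw [Subalgebra.coe_mul, haevR]
      exact inv_mul_cancel₀ (hα n)
    rw [this, map_one]
  refine QEV hQB0 hQB (K := K) (k := k) (L := L) I hI 𝓕 hhom hprop h a Em η hE1 hE2 hrel T hT hfd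
    zL hOnL hzL0 m hm hmlt (fun n l => ψ (iR n) * aeval zL (F n l))
    (fun n => ⟨F n, hF n, ψ (iR n), rfl⟩) (fun n => ⟨α n, hξ1 n⟩) ?_ ?_
  · intro n hn l
    obtain ⟨v, hv0, hv⟩ := hconst m n hn
    have h1 := hv (F n) (hF n)
    have hvα : v (α n) ≠ 0 := by
      intro h2
      apply hv0
      funext l
      have h3 := h1 (α n) l
      rw [h2, map_zero, mul_zero, haev] at h3
      rcases mul_eq_zero.mp h3 with h4 | h4
      · exact absurd h4 (hα n)
      · exact (map_eq_zero _).mp h4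
    refine ⟨algebraMap κ k (v l / v (α n)), ?_⟩
    rw [← IsScalarTower.algebraMap_apply κ k L, ← ψ.commutes, hzL, ← map_mul]
    congr 1
    apply Subtype.ext
    rw [Subalgebra.coe_mul, haevR]
    have h3 := h1 l (α n)
    rw [haev, haev] at h3
    change (aeval zz (F n (α n)))⁻¹ * aeval zz (F n l) = ρ m (v l / v (α n))
    rw [map_div₀]
    have h5 : ρ m (v (α n)) ≠ 0 := (map_ne_zero _).mpr hvα
    have h6 := hα n
    rw [inv_mul_eq_div, div_eq_div_iff h6 h5]
    exact h3.trans (mul_comm _ _)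
  · refine ⟨b, ?_⟩
    rw [hzL, ← map_mul, ← hψ]
    congr 1
    exact Subtype.ext hreq

end Pool.Agent.TH148
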