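import Mathlib
import Pool.Agent.TH148.FinalAsm
import Pool.Agent.TH148.Q5d
import Pool.Agent.TH350.CA4
import Pool.Agent.TH596.J94
import Pool.Agent.TH649.J65
import Pool.Agent.TH997.QBa
import Pool.Agent.TH997.J68

set_option autoImplicit false

namespace Pool.Agent.TH148

open MvPolynomial

theorem cd_to {A : Type} [CommRing A] {N : ℕ} {I : Ideal (MvPolynomial (Fin (N + 1)) A)}
    {𝓕 : Set (Fin (N + 1) → MvPolynomial (Fin (N + 1)) A)} {x₀ : Fin (N + 1) → A}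
    (h : CData A N I 𝓕 x₀) : Pool.Agent.TH554.J92.CData A N I 𝓕 x₀ :=
  ⟨h.hom, h.fin, h.tup, h.uni, h.prop, h.stab, h.x1, h.xI⟩

theorem cd_from {A : Type} [CommRing A] {N : ℕ} {I : Ideal (MvPolynomial (Fin (N + 1)) A)}
    {𝓕 : Set (Fin (N + 1) → MvPolynomial (Fin (N + 1)) A)} {x₀ : Fin (N + 1) → A}
    (h : Pool.Agent.TH554.J92.CData A N I 𝓕 x₀) : Pool.Agent.TH596.J94.CData A N I 𝓕 x₀ :=
  ⟨h.hom, h.fin, h.tup, h.uni, h.prop, h.stab, h.x1, h.xI⟩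

theorem comp_eq {R : Type} [CommRing R] {N : ℕ}
    (𝓕 : Set (Fin (N + 1) → MvPolynomial (Fin (N + 1)) R)) (n : ℕ) :
    Pool.Agent.TH554.J92.Comp 𝓕 n = Pool.Agent.TH596.J94.Comp 𝓕 n := by
  induction n with
  | zero => rfl
  | succ n ih =>
    rw [Pool.Agent.TH554.J92.Comp, Pool.Agent.TH596.J94.Comp, ih]

theorem QCS : Pool.Agent.TH596.J94.QCStatement :=
  fun I hI 𝓕 h1 h2 h3 E _ ρ z h4 h5 h6 h7 =>
    QC_of (fun T hT => Pool.Agent.TH997.QB0 T hT)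
      (fun T hT _ δ hδ f α hα g1 g2 => Pool.Agent.TH997.QB T hT δ hδ f α hα g1 g2)
      I hI 𝓕 h1 h2 h3 E ρ z h4 h5 h6 h7

theorem CMT : CMTStmt := by
  intro A _ _ _ _ N I 𝓕 x₀ hD hdist
  by_contra hneg
  push Not at hneg
  obtain ⟨R, i1, i2, i3, I', 𝓕', x, hD', K, Φ, hΦ, i, J, hJ, γ, 𝔮, c1, c2, c3, c4, c5, c6, c7,
    c8⟩ := Pool.Agent.TH350.CA.CA_of Pool.Agent.TH649.F A N I 𝓕 x₀ (cd_to hD) hdist hneg
  exact Pool.Agent.TH596.J94.CB QCS R N I' 𝓕' x (cd_from hD') K Φ (by rw [← comp_eq]; exact hΦ)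
    i J hJ γ 𝔮 c1 c2 c3 c4 c5 c6 c7 c8

end Pool.Agent.TH148
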