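import Pool.Agent.TH148.HTPQ.Basic

set_option autoImplicit false
set_option linter.unusedSectionVars false

/-!
# Bounded degrees and covering in the hypergraph process
-/

namespace Pool.Agent.TH948.HT

open Finset
open scoped Classical
open Pool.Agent.TH965.Spread Pool.Agent.TH948.KK Pool.Agent.TH948.BD

lemma pq_log_div : Filter.Tendsto (fun n : ℕ => Real.log n / (n : ℝ)) Filter.atTop (nhds 0) := by
  have h := (Real.tendsto_pow_log_div_mul_add_atTop 1 0 1 one_ne_zero).comp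
    (tendsto_natCast_atTop_atTop (R := ℝ))
  refine h.congr (fun n => ?_)
  simp

lemma pq_log : Filter.Tendsto (fun n : ℕ => Real.log n) Filter.atTop Filter.atTop :=
  Real.tendsto_log_atTop.comp tendsto_natCast_atTop_atTop

lemma pq_pp0 (k : ℕ) (δ : ℝ) : Filter.Tendsto (fun n : ℕ => pp k δ n) Filter.atTop (nhds 0) := by
  have h := pq_log_div.const_mul ((1 + δ) * ((k : ℝ) - 1))
  rw [mul_zero] at h
  refine h.congr (fun n => ?_)
  unfold pp; ring

lemma pq_pm0 (k : ℕ) (δ : ℝ) : Filter.Tendsto (fun n : ℕ => pm k δ n) Filter.atTop (nhds 0) := by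
  have h := pq_log_div.const_mul ((1 - δ) * ((k : ℝ) - 1))
  rw [mul_zero] at h
  refine h.congr (fun n => ?_)
  unfold pm; ring

lemma pq_exp0 (c : ℝ) (hc : 0 < c) :
    Filter.Tendsto (fun n : ℕ => Real.exp (-(c * Real.log n))) Filter.atTop (nhds 0) := by
  apply Real.tendsto_exp_neg_atTop_nhds_zero.comp
  exact pq_log.const_mul_atTop hc

/-- The number of facets. -/
lemma pq_facets_exp (n k : ℕ) (hk : 1 ≤ k) (hn : 1 ≤ n) :
    ((facets n k).card : ℝ) ≤ Real.exp (((k : ℝ) - 1) * Real.log n) := by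
  refine (pq_facets_le n k hk).trans (le_of_eq ?_)
  rw [Real.rpow_def_of_pos (by exact_mod_cast hn), mul_comm]

lemma pq_Q1 {k : ℕ} (hk : 2 ≤ k) (δ : ℝ) (h0 : 0 < δ) (h1 : δ ≤ 1 / 8) :
    Filter.Tendsto (fun n : ℕ => exs (edges n k) (pp k δ n) (fun W => ind (¬ Q1 k (5 * k) W)))
      Filter.atTop (nhds 0) := by
  have hk' : (2 : ℝ) ≤ k := by exact_mod_cast hk
  have hev : ∀ᶠ n : ℕ in Filter.atTop, pp k δ n < 1 :=
    (pq_pp0 k δ).eventually_lt_const (by norm_num)
  have hlim : Filter.Tendsto (fun n : ℕ => Real.exp (-(1 * Real.log n))) Filter.atTop (nhds 0) :=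
    pq_exp0 1 one_pos
  have hpp0 : ∀ n : ℕ, 0 ≤ pp k δ n := by
    intro n
    have := Real.log_natCast_nonneg n
    unfold pp
    have h2 : 0 ≤ (k : ℝ) - 1 := by linarith
    positivity
  refine squeeze_zero' (hev.mono fun n hn => exs_nonneg _ (hpp0 n) hn.le (fun W _ => ind_nonneg _))
    ?_ hlim
  filter_upwards [hev, Filter.eventually_ge_atTop 1] with n hp1 hn
  have hn' : (1 : ℝ) ≤ n := by exact_mod_cast hn
  have hL : 0 ≤ Real.log n := Real.log_natCast_nonneg n
  set L := Real.log n with hLdef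
  have he : Real.exp 1 - 1 ≤ 1.72 := by have := Real.exp_one_lt_d9; linarith
  have he0 : 0 ≤ Real.exp 1 - 1 := by
    have : 1 ≤ Real.exp 1 := Real.one_le_exp (by norm_num)
    linarith
  have hppn : pp k δ n * n = (1 + δ) * (((k : ℝ) - 1) * L) := by
    unfold pp; field_simp; rw [← hLdef]
  have key := pq_union (edges n k) (hpp0 n) hp1.le (facets n k)
    (fun f W => 5 * (k : ℝ) * L < (deg W f : ℝ)) (fun W => ¬ Q1 k (5 * k) W)
    (by
      intro W hW
      unfold Q1 at hW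
      push Not at hW
      exact hW)
    (Real.exp (-(5 * (k : ℝ) * L) + (1 + δ) * (((k : ℝ) - 1) * L) * (Real.exp 1 - 1)))
    (by
      intro f hf
      unfold deg
      refine (pq_chernoff (edges n k) (fun e => f ⊆ e) (hpp0 n) hp1.le (5 * (k : ℝ) * L)).trans ?_
      apply Real.exp_le_exp.mpr
      rw [pq_above hk f hf]
      have e2 : pp k δ n * ((n - (k - 1) : ℕ) : ℝ) ≤ (1 + δ) * (((k : ℝ) - 1) * L) := by
        rw [← hppn]
        apply mul_le_mul_of_nonneg_left _ (hpp0 n)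
        exact_mod_cast Nat.sub_le n (k - 1)
      have e3 := mul_le_mul_of_nonneg_right e2 he0
      linarith)
  refine key.trans ?_
  have hN := pq_facets_exp n k (by omega) hn
  calc ((facets n k).card : ℝ) *
        Real.exp (-(5 * (k : ℝ) * L) + (1 + δ) * (((k : ℝ) - 1) * L) * (Real.exp 1 - 1))
      ≤ Real.exp (((k : ℝ) - 1) * L) *
        Real.exp (-(5 * (k : ℝ) * L) + (1 + δ) * (((k : ℝ) - 1) * L) * (Real.exp 1 - 1)) :=
        mul_le_mul_of_nonneg_right hN (Real.exp_pos _).le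
    _ = Real.exp (((k : ℝ) - 1) * L +
        (-(5 * (k : ℝ) * L) + (1 + δ) * (((k : ℝ) - 1) * L) * (Real.exp 1 - 1))) := by
        rw [← Real.exp_add]
    _ ≤ Real.exp (-(1 * L)) := by
        apply Real.exp_le_exp.mpr
        have h2 : (1 + δ) * (Real.exp 1 - 1) ≤ 2 := by nlinarith
        have h3 : 0 ≤ ((k : ℝ) - 1) * L := mul_nonneg (by linarith) hL
        have h4 : (1 + δ) * (((k : ℝ) - 1) * L) * (Real.exp 1 - 1) ≤ 2 * (((k : ℝ) - 1) * L) := by
          calc (1 + δ) * (((k : ℝ) - 1) * L) * (Real.exp 1 - 1)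
              = ((1 + δ) * (Real.exp 1 - 1)) * (((k : ℝ) - 1) * L) := by ring
            _ ≤ 2 * (((k : ℝ) - 1) * L) := mul_le_mul_of_nonneg_right h2 h3
        nlinarith

lemma pq_Cov {k : ℕ} (hk : 2 ≤ k) (δ : ℝ) (h0 : 0 < δ) (h1 : δ ≤ 1 / 8) :
    Filter.Tendsto (fun n : ℕ => exs (edges n k) (pp k δ n) (fun W => ind (¬ Cov k W)))
      Filter.atTop (nhds 0) := by
  have hk' : (2 : ℝ) ≤ k := by exact_mod_cast hk
  have hev : ∀ᶠ n : ℕ in Filter.atTop, pp k δ n < 1 :=
    (pq_pp0 k δ).eventually_lt_const (by norm_num)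
  have hlim : Filter.Tendsto (fun n : ℕ => Real.exp (-((δ / 2 * ((k : ℝ) - 1)) * Real.log n)))
      Filter.atTop (nhds 0) :=
    pq_exp0 _ (mul_pos (by linarith) (by linarith))
  have hpp0 : ∀ n : ℕ, 0 ≤ pp k δ n := by
    intro n
    have := Real.log_natCast_nonneg n
    unfold pp
    have h2 : 0 ≤ (k : ℝ) - 1 := by linarith
    positivity
  have hkn : ∀ᶠ n : ℕ in Filter.atTop, ((k : ℝ) - 1) / n < δ / 4 :=
    (tendsto_const_div_atTop_nhds_zero_nat ((k : ℝ) - 1)).eventually_lt_const (by linarith)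
  refine squeeze_zero' (hev.mono fun n hn => exs_nonneg _ (hpp0 n) hn.le (fun W _ => ind_nonneg _))
    ?_ hlim
  filter_upwards [hev, Filter.eventually_ge_atTop 1, hkn, Filter.eventually_ge_atTop k] with
    n hp1 hn hkn hnk
  have hn' : (1 : ℝ) ≤ n := by exact_mod_cast hn
  have hL : 0 ≤ Real.log n := Real.log_natCast_nonneg n
  set L := Real.log n with hLdef
  have hppn : pp k δ n * n = (1 + δ) * (((k : ℝ) - 1) * L) := by
    unfold pp; field_simp; rw [← hLdef]
  have h3 : 0 ≤ ((k : ℝ) - 1) * L := mul_nonneg (by linarith) hL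
  have key := pq_union (edges n k) (hpp0 n) hp1.le (facets n k)
    (fun f W => ∀ x ∈ (edges n k).filter (fun e => f ⊆ e), x ∉ W) (fun W => ¬ Cov k W)
    (by
      intro W hW
      unfold Cov at hW
      push Not at hW
      obtain ⟨f, hf, hW⟩ := hW
      refine ⟨f, hf, fun x hx hxW => hW x hxW ?_⟩
      exact (Finset.mem_filter.mp hx).2)
    (Real.exp (-(1 + δ / 2) * (((k : ℝ) - 1) * L)))
    (by
      intro f hf
      rw [pq_avoid _ _ (Finset.filter_subset _ _), pq_above hk f hf]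
      have e1 : (1 - pp k δ n) ^ (n - (k - 1)) ≤ Real.exp (-(pp k δ n) * ((n - (k - 1) : ℕ) : ℝ)) := by
        rw [mul_comm, Real.exp_nat_mul]
        apply pow_le_pow_left₀ (by linarith)
        have := Real.add_one_le_exp (-(pp k δ n))
        linarith
      refine e1.trans (Real.exp_le_exp.mpr ?_)
      have e2 : ((n - (k - 1) : ℕ) : ℝ) = n * (1 - ((k : ℝ) - 1) / n) := by
        rw [Nat.cast_sub (by omega), Nat.cast_sub (by omega)]
        field_simp
        push_cast
        ring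
      rw [e2]
      have e3 : -(pp k δ n) * (n * (1 - ((k : ℝ) - 1) / n))
          = -((1 + δ) * (1 - ((k : ℝ) - 1) / n)) * (((k : ℝ) - 1) * L) := by
        calc -(pp k δ n) * (n * (1 - ((k : ℝ) - 1) / n))
            = -(pp k δ n * n) * (1 - ((k : ℝ) - 1) / n) := by ring
          _ = _ := by rw [hppn]; ring
      rw [e3]
      apply mul_le_mul_of_nonneg_right _ h3
      have e4 : (1 + δ) * (1 - δ / 4) ≤ (1 + δ) * (1 - ((k : ℝ) - 1) / n) :=
        mul_le_mul_of_nonneg_left (by linarith) (by linarith)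
      nlinarith)
  refine key.trans ?_
  have hN := pq_facets_exp n k (by omega) hn
  calc ((facets n k).card : ℝ) * Real.exp (-(1 + δ / 2) * (((k : ℝ) - 1) * L))
      ≤ Real.exp (((k : ℝ) - 1) * L) * Real.exp (-(1 + δ / 2) * (((k : ℝ) - 1) * L)) :=
        mul_le_mul_of_nonneg_right hN (Real.exp_pos _).le
    _ = Real.exp (-((δ / 2 * ((k : ℝ) - 1)) * L)) := by
        rw [← Real.exp_add]; congr 1; ring

lemma pq_noCov {k : ℕ} (hk : 2 ≤ k) (δ : ℝ) (h0 : 0 < δ) (h1 : δ ≤ 1 / 8) :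
    Filter.Tendsto (fun n : ℕ => exs (edges n k) (pm k δ n) (fun W => ind (Cov k W)))
      Filter.atTop (nhds 0) := by
  have hk' : (2 : ℝ) ≤ k := by exact_mod_cast hk
  have hev : ∀ᶠ n : ℕ in Filter.atTop, pm k δ n < δ / 2 :=
    (pq_pm0 k δ).eventually_lt_const (by linarith)
  have hpm0 : ∀ n : ℕ, 0 ≤ pm k δ n := by
    intro n
    have := Real.log_natCast_nonneg n
    unfold pm
    have h2 : 0 ≤ (k : ℝ) - 1 := by linarith
    have h3 : 0 ≤ 1 - δ := by linarith
    positivity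
  set c : ℝ := 2 ^ (k - 1) * ((k - 1).factorial : ℝ) with hc
  have hc0 : 0 < c := by positivity
  have hlim : Filter.Tendsto (fun n : ℕ => c * Real.exp (-((δ / 2 * ((k : ℝ) - 1)) * Real.log n))
      + 2 * pm k δ n) Filter.atTop (nhds 0) := by
    have := ((pq_exp0 (δ / 2 * ((k : ℝ) - 1)) (mul_pos (by linarith) (by linarith))).const_mul
      c).add ((pq_pm0 k δ).const_mul 2)
    simpa using this
  refine squeeze_zero' (hev.mono fun n hn => exs_nonneg _ (hpm0 n) (by linarith)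
    (fun W _ => ind_nonneg _)) ?_ hlim
  filter_upwards [hev, Filter.eventually_ge_atTop 1, Filter.eventually_ge_atTop (2 * k)] with
    n hp1 hn hnk
  have hn' : (1 : ℝ) ≤ n := by exact_mod_cast hn
  have hL : 0 ≤ Real.log n := Real.log_natCast_nonneg n
  set L := Real.log n with hLdef
  set p := pm k δ n with hp
  have hp0 : 0 ≤ p := hpm0 n
  have hpmn : p * n = (1 - δ) * (((k : ℝ) - 1) * L) := by
    rw [hp]; unfold pm; field_simp; rw [← hLdef]
  have h3 : 0 ≤ ((k : ℝ) - 1) * L := mul_nonneg (by linarith) hL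
  have hq : 0 < 1 - p := by linarith
  -- the expectation is large
  have hne : (facets n k).Nonempty := by
    rw [← Finset.card_pos, pq_facets_card]
    exact Nat.choose_pos (by omega)
  have hN : Real.exp (((k : ℝ) - 1) * L) ≤ c * ((facets n k).card : ℝ) := by
    rw [pq_facets_card]
    have e1 : ((n + 1 - (k - 1) : ℕ) ^ (k - 1) : ℝ) ≤ (k - 1).factorial * (n.choose (k - 1) : ℝ) := by
      have := Nat.pow_le_choose (α := ℝ) (k - 1) n
      rw [div_le_iff₀ (by positivity)] at this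
      rw [mul_comm]
      exact_mod_cast this
    have e2 : Real.exp (((k : ℝ) - 1) * L) = (n : ℝ) ^ (k - 1) := by
      have : (k : ℝ) - 1 = ((k - 1 : ℕ) : ℝ) := by push_cast [Nat.cast_sub (show 1 ≤ k by omega)]; ring
      rw [this, Real.exp_nat_mul, hLdef, Real.exp_log (by linarith)]
    rw [e2, hc]
    have e3 : (n : ℝ) ≤ 2 * ((n + 1 - (k - 1) : ℕ) : ℝ) := by
      have : n ≤ 2 * (n + 1 - (k - 1)) := by omega
      exact_mod_cast this
    calc (n : ℝ) ^ (k - 1) ≤ (2 * ((n + 1 - (k - 1) : ℕ) : ℝ)) ^ (k - 1) :=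
          pow_le_pow_left₀ (by positivity) e3 _
      _ = 2 ^ (k - 1) * ((n + 1 - (k - 1) : ℕ) : ℝ) ^ (k - 1) := by rw [mul_pow]
      _ ≤ 2 ^ (k - 1) * ((k - 1).factorial * (n.choose (k - 1) : ℝ)) :=
          mul_le_mul_of_nonneg_left e1 (by positivity)
      _ = _ := by ring
  have hpow : Real.exp (-((1 - δ / 2) * (((k : ℝ) - 1) * L))) ≤ (1 - p) ^ (n - (k - 1)) := by
    have e1 : (1 - p) ^ n ≤ (1 - p) ^ (n - (k - 1)) :=
      pow_le_pow_of_le_one hq.le (by linarith) (Nat.sub_le _ _)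
    refine le_trans ?_ e1
    have e2 : (1 - p) ^ n = Real.exp (n * Real.log (1 - p)) := by
      rw [Real.exp_nat_mul, Real.exp_log hq]
    rw [e2]
    apply Real.exp_le_exp.mpr
    have e3 := Real.one_sub_inv_le_log_of_pos hq
    have e4 : 1 - (1 - p)⁻¹ = -(p / (1 - p)) := by field_simp; ring
    rw [e4] at e3
    have e5 : (n : ℝ) * (-(p / (1 - p))) ≤ n * Real.log (1 - p) :=
      mul_le_mul_of_nonneg_left e3 (by linarith)
    refine le_trans ?_ e5
    have e6 : (n : ℝ) * (-(p / (1 - p))) = -((1 - δ) / (1 - p) * (((k : ℝ) - 1) * L)) := by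
      calc (n : ℝ) * (-(p / (1 - p))) = -((p * n) / (1 - p)) := by ring
        _ = _ := by rw [hpmn]; ring
    rw [e6]
    apply neg_le_neg
    apply mul_le_mul_of_nonneg_right _ h3
    rw [div_le_iff₀ hq]
    nlinarith
  have hμ : Real.exp (δ / 2 * ((k : ℝ) - 1) * L) ≤ c * ((facets n k).card * (1 - p) ^ (n - (k - 1)))
      := by
    calc Real.exp (δ / 2 * ((k : ℝ) - 1) * L)
        = Real.exp (((k : ℝ) - 1) * L) * Real.exp (-((1 - δ / 2) * (((k : ℝ) - 1) * L))) := by
          rw [← Real.exp_add]; congr 1; ring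
      _ ≤ (c * ((facets n k).card : ℝ)) * (1 - p) ^ (n - (k - 1)) :=
          mul_le_mul hN hpow (Real.exp_pos _).le (by positivity)
      _ = _ := by ring
  have hmono : exs (edges n k) p (fun W => ind (Cov k W)) ≤ exs (edges n k) p (fun W =>
      ind (∀ f ∈ facets n k, ∃ x ∈ (edges n k).filter (fun e => f ⊆ e), x ∈ W)) := by
    apply exs_mono _ hp0 (by linarith)
    intro W hW
    apply ind_mono
    intro hcov f hf
    obtain ⟨e, he, hfe⟩ := hcov f hf
    exact ⟨e, Finset.mem_filter.mpr ⟨hW he, hfe⟩, he⟩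
  have hsec := pq_second (edges n k) hp0 (by linarith) (facets n k)
    (fun f => (edges n k).filter (fun e => f ⊆ e)) (n - (k - 1)) hne
    (fun f _ => Finset.filter_subset _ _) (fun f hf => pq_above hk f hf)
    (fun f hf g hg hfg a ha b hb ha' hb' => pq_two hk f g hf hg hfg a b ha hb ha' hb')
  refine (hmono.trans hsec).trans ?_
  have hN0 : (0 : ℝ) < (facets n k).card := by exact_mod_cast hne.card_pos
  have hμ0 : 0 < ((facets n k).card : ℝ) * (1 - p) ^ (n - (k - 1)) := by positivity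
  apply add_le_add
  · rw [div_le_iff₀ hμ0]
    have e1 : Real.exp (-(δ / 2 * ((k : ℝ) - 1) * L)) * Real.exp (δ / 2 * ((k : ℝ) - 1) * L) = 1 := by
      rw [← Real.exp_add]; simp
    calc (1 : ℝ) = Real.exp (-(δ / 2 * ((k : ℝ) - 1) * L)) *
          Real.exp (δ / 2 * ((k : ℝ) - 1) * L) := e1.symm
      _ ≤ Real.exp (-(δ / 2 * ((k : ℝ) - 1) * L)) *
          (c * ((facets n k).card * (1 - p) ^ (n - (k - 1)))) :=
          mul_le_mul_of_nonneg_left hμ (Real.exp_pos _).le
      _ = _ := by ring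
  · rw [div_le_iff₀ hq]
    nlinarith

/-- Bounded degrees and covering. -/
theorem prob_Q1_cov {k : ℕ} (hk : 2 ≤ k) (δ : ℝ) (h0 : 0 < δ) (h1 : δ ≤ 1 / 8) :
    Filter.Tendsto (fun n : ℕ => exs (edges n k) (pp k δ n) (fun W => ind (¬ Q1 k (5 * k) W)))
      Filter.atTop (nhds 0) ∧
    Filter.Tendsto (fun n : ℕ => exs (edges n k) (pp k δ n) (fun W => ind (¬ Cov k W)))
      Filter.atTop (nhds 0) ∧
    Filter.Tendsto (fun n : ℕ => exs (edges n k) (pm k δ n) (fun W => ind (Cov k W)))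
      Filter.atTop (nhds 0) :=
  ⟨pq_Q1 hk δ h0 h1, pq_Cov hk δ h0 h1, pq_noCov hk δ h0 h1⟩

end Pool.Agent.TH948.HT
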