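import Pool.Agent.TH83.DC.GDefs

/-! Job 2347 (DC-expt1): base experiment and one re-splitting step. -/

set_option autoImplicit false

namespace Pool.Agent.TH148.DC2347

open Pool.Agent.TH83.DC
open Finset
open scoped Classical

theorem expt_base (A : Finset ℕ) (hA : A.Nonempty) : ∃ E : Expt A, Fintype.card E.Λ = 1 := by
  refine ⟨⟨A, Unit, inferInstance, inferInstance, fun _ => 1 / (A.card : ℝ), fun a => a.1,
    fun a _ => a.1, fun a _ => a.1, ?_, ?_, ?_, ?_, ?_, ?_⟩, ?_⟩
  · intro _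
    positivity
  · intro a
    exact a.2
  · intro f
    rw [← Finset.mul_sum, Finset.sum_coe_sort A f]
    ring
  · intro h
    simp only [Finset.univ_unique, Finset.prod_singleton]
    rw [← Finset.mul_sum, Finset.sum_coe_sort A (fun a => h default a)]
    ring
  · intro _ _
    exact dvd_rfl
  · intro a
    simp
  · exact Fintype.card_unit

/-- sum over the products -/
theorem sum_prod {k : ℕ} {Ω : Type} [Fintype Ω] (g : Fin k → Ω → ℝ) :
    ∑ z : Fin k → Ω, ∏ i, g i (z i) = ∏ i, ∑ ω, g i ω := by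
  rw [Finset.prod_univ_sum, Fintype.piFinset_univ]

theorem sum_tup {k : ℕ} (A : Finset ℕ) (g : Fin k → ℕ → ℝ) :
    ∑ x ∈ tup k A, ∏ i, g i (x i) = ∏ i, ∑ a ∈ A, g i a := by
  rw [Finset.prod_univ_sum]
  rfl

theorem law_tup {A : Finset ℕ} (E : Expt A) (k : ℕ) (F : (Fin k → ℕ) → ℝ) :
    ∑ z : Fin k → E.Ω, (∏ i, E.w (z i)) * F (fun i => E.root (z i)) =
      (∑ x ∈ tup k A, F x) / (A.card : ℝ) ^ k := by
  have h1 : ∀ z : Fin k → E.Ω, F (fun i => E.root (z i)) =
      ∑ x ∈ tup k A, F x * ∏ i, (if E.root (z i) = x i then (1 : ℝ) else 0) := by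
    intro z
    have hz : (fun i => E.root (z i)) ∈ tup k A := by
      unfold tup
      rw [Fintype.mem_piFinset]
      exact fun i => E.root_mem _
    rw [Finset.sum_eq_single_of_mem _ hz]
    · simp
    · intro x _ hx
      have : ∃ i, E.root (z i) ≠ x i := by
        by_contra hc
        push Not at hc
        exact hx (funext fun i => (hc i).symm)
      obtain ⟨i, hi⟩ := this
      rw [Finset.prod_eq_zero (Finset.mem_univ i) (if_neg hi), mul_zero]
  have h2 : ∀ x ∈ tup k A, ∑ z : Fin k → E.Ω, (∏ i, E.w (z i)) *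
      (F x * ∏ i, (if E.root (z i) = x i then (1 : ℝ) else 0)) = F x * (1 / (A.card : ℝ)) ^ k := by
    intro x hx
    have h3 : ∀ z : Fin k → E.Ω, (∏ i, E.w (z i)) *
        (F x * ∏ i, (if E.root (z i) = x i then (1 : ℝ) else 0)) =
        F x * ∏ i, (E.w (z i) * (if E.root (z i) = x i then (1 : ℝ) else 0)) := by
      intro z
      rw [Finset.prod_mul_distrib]
      ring
    simp only [h3]
    rw [← Finset.mul_sum, sum_prod (fun i ω => E.w ω * (if E.root ω = x i then (1 : ℝ) else 0))]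
    congr 1
    have h4 : ∀ i : Fin k, ∑ ω, E.w ω * (if E.root ω = x i then (1 : ℝ) else 0) =
        1 / (A.card : ℝ) := by
      intro i
      have hxi : x i ∈ A := by
        unfold tup at hx
        rw [Fintype.mem_piFinset] at hx
        exact hx i
      rw [E.root_law (fun a => if a = x i then (1 : ℝ) else 0)]
      congr 1
      rw [Finset.sum_ite_eq' A (x i), if_pos hxi]
    rw [Finset.prod_congr rfl fun i _ => h4 i]
    simp
  calc ∑ z : Fin k → E.Ω, (∏ i, E.w (z i)) * F (fun i => E.root (z i))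
      = ∑ z : Fin k → E.Ω, ∑ x ∈ tup k A, (∏ i, E.w (z i)) *
          (F x * ∏ i, (if E.root (z i) = x i then (1 : ℝ) else 0)) := by
        refine Finset.sum_congr rfl fun z _ => ?_
        rw [h1 z, Finset.mul_sum]
    _ = ∑ x ∈ tup k A, F x * (1 / (A.card : ℝ)) ^ k := by
        rw [Finset.sum_comm]
        exact Finset.sum_congr rfl h2
    _ = _ := by
        rw [← Finset.sum_mul, one_div, inv_pow, div_eq_mul_inv]

theorem mem_rep {k : ℕ} {A : Finset ℕ} {x y : Fin k → ℕ} :
    y ∈ rep A x ↔ y ∈ tup k A ∧ ∏ i, y i = ∏ i, x i := by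
  unfold rep
  rw [Finset.mem_filter]

theorem rep_congr {k : ℕ} {A : Finset ℕ} {x y : Fin k → ℕ} (h : ∏ i, y i = ∏ i, x i) :
    rep A y = rep A x := by
  unfold rep
  rw [h]

theorem self_mem_rep {k : ℕ} {A : Finset ℕ} {x : Fin k → ℕ} (h : x ∈ tup k A) :
    x ∈ rep A x := mem_rep.mpr ⟨h, rfl⟩

/-- averages over the classes do not change the sum -/
theorem avg {k : ℕ} (A : Finset ℕ) (f : (Fin k → ℕ) → ℝ) :
    ∑ x ∈ tup k A, (∑ y ∈ rep A x, f y) / ((rep A x).card : ℝ) = ∑ y ∈ tup k A, f y := by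
  have h1 : ∑ x ∈ tup k A, (∑ y ∈ rep A x, f y) / ((rep A x).card : ℝ) =
      ∑ x ∈ tup k A, ∑ y ∈ rep A x, f y / ((rep A y).card : ℝ) := by
    refine Finset.sum_congr rfl fun x _ => ?_
    rw [Finset.sum_div]
    refine Finset.sum_congr rfl fun y hy => ?_
    rw [rep_congr (mem_rep.mp hy).2]
  rw [h1, Finset.sum_comm' (t' := tup k A) (s' := fun y => rep A y)]
  · refine Finset.sum_congr rfl fun y hy => ?_
    rw [Finset.sum_const, nsmul_eq_mul]
    have : 0 < ((rep A y).card : ℝ) := by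
      exact_mod_cast Finset.card_pos.mpr ⟨y, self_mem_rep hy⟩
    field_simp
  · intro x y
    rw [mem_rep, mem_rep]
    constructor
    · rintro ⟨hx, hy, h⟩
      exact ⟨⟨hx, h.symm⟩, hy⟩
    · rintro ⟨⟨hx, h⟩, hy⟩
      exact ⟨hx, hy, h.symm⟩

theorem sum_coord {k : ℕ} (A : Finset ℕ) (i0 : Fin k) (f : ℕ → ℝ) :
    (∑ y ∈ tup k A, f (y i0)) * A.card = (∑ a ∈ A, f a) * (A.card : ℝ) ^ k := by
  have h1 : ∀ y : Fin k → ℕ, f (y i0) = ∏ i, (if i = i0 then f (y i) else 1) := by
    intro y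
    rw [Finset.prod_ite_eq' Finset.univ i0 (fun i => f (y i)), if_pos (Finset.mem_univ _)]
  simp only [h1]
  rw [sum_tup A (fun i a => if i = i0 then f a else 1)]
  have h2 : ∀ i : Fin k, ∑ a ∈ A, (if i = i0 then f a else 1) =
      if i = i0 then ∑ a ∈ A, f a else (A.card : ℝ) := by
    intro i
    split_ifs <;> simp
  rw [Finset.prod_congr rfl fun i _ => h2 i, ← Finset.mul_prod_erase Finset.univ _ (Finset.mem_univ i0),
    if_pos rfl]
  have h3 : ∏ i ∈ Finset.univ.erase i0, (if i = i0 then ∑ a ∈ A, f a else (A.card : ℝ)) =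
      (A.card : ℝ) ^ (k - 1) := by
    rw [Finset.prod_congr rfl fun i hi => if_neg (Finset.ne_of_mem_erase hi)]
    rw [Finset.prod_const, Finset.card_erase_of_mem (Finset.mem_univ _), Finset.card_univ,
      Fintype.card_fin]
  have hk : 0 < k := i0.pos
  have h4 : (A.card : ℝ) ^ k = (A.card : ℝ) ^ (k - 1) * A.card := by
    rw [← pow_succ]
    congr 1
    omega
  rw [h3, h4]
  ring

/-- the new experiment -/
noncomputable def stepE {A : Finset ℕ} (hA : A.Nonempty) (E : Expt A) (k : ℕ) (hk : 0 < k)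
    (R : (Fin k → E.Ω) → (Fin k → ℕ) → Fin k → E.Λ → Fin k → ℕ)
    (hR1 : ∀ z, ∀ y ∈ rep A (fun i => E.root (z i)), ∀ i l, ∏ j, R z y i l j = E.piece (z i) l)
    (hR2 : ∀ z, ∀ y ∈ rep A (fun i => E.root (z i)), ∀ j, ∏ i, ∏ l, R z y i l j = y j) :
    Expt A where
  Ω := (Σ z : Fin k → E.Ω, {y // y ∈ rep A (fun i => E.root (z i))}) × Fin k
  Λ := Fin k × E.Λ
  iΩ := inferInstance
  iΛ := inferInstance
  w := fun p => (∏ i, E.w (p.1.1 i)) / ((rep A (fun i => E.root (p.1.1 i))).card : ℝ) / (k : ℝ)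
  root := fun p => p.1.2.1 p.2
  leaf := fun p q => E.leaf (p.1.1 q.1) q.2
  piece := fun p q => R p.1.1 p.1.2.1 q.1 q.2 p.2
  w_nonneg := fun p => div_nonneg
    (div_nonneg (Finset.prod_nonneg fun i _ => E.w_nonneg _) (by positivity)) (by positivity)
  root_mem := fun p => by
    have h := (mem_rep.mp p.1.2.2).1
    unfold tup at h
    rw [Fintype.mem_piFinset] at h
    exact h p.2
  root_law := fun f => by
    have hAc : (0 : ℝ) < A.card := by exact_mod_cast hA.card_pos
    have hk' : (0 : ℝ) < k := by exact_mod_cast hk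
    rw [Fintype.sum_prod_type_right]
    have key : ∀ j : Fin k,
        ∑ p : (Σ z : Fin k → E.Ω, {y // y ∈ rep A (fun i => E.root (z i))}),
          (∏ i, E.w (p.1 i)) / ((rep A (fun i => E.root (p.1 i))).card : ℝ) / (k : ℝ) *
            f (p.2.1 j) = (∑ a ∈ A, f a) / A.card / k := by
      intro j
      rw [Fintype.sum_sigma]
      have h1 : ∀ z : Fin k → E.Ω,
          ∑ y : {y // y ∈ rep A (fun i => E.root (z i))},
            (∏ i, E.w (z i)) / ((rep A (fun i => E.root (z i))).card : ℝ) / (k : ℝ) * f (y.1 j) =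
          (∏ i, E.w (z i)) * ((fun x : Fin k → ℕ =>
            (∑ y ∈ rep A x, f (y j)) / ((rep A x).card : ℝ) / k) (fun i => E.root (z i))) := by
        intro z
        rw [Finset.sum_coe_sort (rep A (fun i => E.root (z i)))
          (fun y => (∏ i, E.w (z i)) / ((rep A (fun i => E.root (z i))).card : ℝ) / (k : ℝ) *
            f (y j)),
          ← Finset.mul_sum]
        simp only
        ring
      refine (Finset.sum_congr rfl fun z _ => h1 z).trans ((law_tup E k (fun x =>
        (∑ y ∈ rep A x, f (y j)) / ((rep A x).card : ℝ) / k)).trans ?_)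
      rw [← Finset.sum_div, avg A (fun y => f (y j))]
      have h2 := sum_coord A j f
      rw [div_right_comm]
      congr 1
      rw [div_eq_div_iff (by positivity) hAc.ne']
      exact h2
    rw [Finset.sum_congr rfl fun j _ => key j, Finset.sum_const, nsmul_eq_mul, Finset.card_univ,
      Fintype.card_fin]
    field_simp
  leaf_law := fun h => by
    have hk' : (0 : ℝ) < k := by exact_mod_cast hk
    rw [Fintype.sum_prod_type_right]
    have key : ∀ j : Fin k,
        ∑ p : (Σ z : Fin k → E.Ω, {y // y ∈ rep A (fun i => E.root (z i))}),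
          (∏ i, E.w (p.1 i)) / ((rep A (fun i => E.root (p.1 i))).card : ℝ) / (k : ℝ) *
            ∏ q : Fin k × E.Λ, h q (E.leaf (p.1 q.1) q.2) =
        (∏ q, ((∑ a ∈ A, h q a) / A.card)) / k := by
      intro j
      rw [Fintype.sum_sigma]
      have h1 : ∀ z : Fin k → E.Ω,
          ∑ y : {y // y ∈ rep A (fun i => E.root (z i))},
            (∏ i, E.w (z i)) / ((rep A (fun i => E.root (z i))).card : ℝ) / (k : ℝ) *
              ∏ q : Fin k × E.Λ, h q (E.leaf (z q.1) q.2) =
          (∏ i, (E.w (z i) * ∏ l, h (i, l) (E.leaf (z i) l))) / k := by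
        intro z
        rw [Finset.sum_const, nsmul_eq_mul, Finset.card_univ, Fintype.card_coe,
          Fintype.prod_prod_type, Finset.prod_mul_distrib]
        have hz : (fun i => E.root (z i)) ∈ tup k A := by
          unfold tup
          rw [Fintype.mem_piFinset]
          exact fun i => E.root_mem _
        have hpos : 0 < ((rep A (fun i => E.root (z i))).card : ℝ) := by
          exact_mod_cast Finset.card_pos.mpr ⟨_, self_mem_rep hz⟩
        field_simp
      rw [Finset.sum_congr rfl fun z _ => h1 z, ← Finset.sum_div,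
        sum_prod (fun i ω => E.w ω * ∏ l, h (i, l) (E.leaf ω l)), Fintype.prod_prod_type]
      congr 1
      refine Finset.prod_congr rfl fun i _ => ?_
      exact E.leaf_law fun l => h (i, l)
    refine (Finset.sum_congr rfl fun j _ => key j).trans ?_
    rw [Finset.sum_const, nsmul_eq_mul, Finset.card_univ,
      Fintype.card_fin]
    field_simp
  piece_leaf := fun p q => by
    refine dvd_trans ?_ (E.piece_leaf (p.1.1 q.1) q.2)
    rw [← hR1 p.1.1 p.1.2.1 p.1.2.2 q.1 q.2]
    exact Finset.dvd_prod_of_mem _ (Finset.mem_univ p.2)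
  prod_piece := fun p => by
    rw [Fintype.prod_prod_type]
    exact hR2 p.1.1 p.1.2.1 p.1.2.2 p.2

theorem expt_step {A : Finset ℕ} (hA : A.Nonempty) (E : Expt A) (k : ℕ) (hk : 0 < k)
    (R : (Fin k → E.Ω) → (Fin k → ℕ) → Fin k → E.Λ → Fin k → ℕ)
    (hR1 : ∀ z, ∀ y ∈ rep A (fun i => E.root (z i)), ∀ i l, ∏ j, R z y i l j = E.piece (z i) l)
    (hR2 : ∀ z, ∀ y ∈ rep A (fun i => E.root (z i)), ∀ j, ∏ i, ∏ l, R z y i l j = y j) :
    ∃ E' : Expt A, Fintype.card E'.Λ = k * Fintype.card E.Λ ∧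
      E'.pot = (∑ z : Fin k → E.Ω, (∏ i, E.w (z i)) *
        ((∑ y ∈ rep A (fun i => E.root (z i)), ∑ i, ∑ l, ∑ j, Real.sqrt (wt (R z y i l j))) /
            (rep A (fun i => E.root (z i))).card)) / k := by
  refine ⟨stepE hA E k hk R hR1 hR2, ?_, ?_⟩
  · show Fintype.card (Fin k × E.Λ) = _
    rw [Fintype.card_prod, Fintype.card_fin]
  · have hk' : (0 : ℝ) < k := by exact_mod_cast hk
    have e1 : (stepE hA E k hk R hR1 hR2).pot =
        ∑ p : (Σ z : Fin k → E.Ω, {y // y ∈ rep A (fun i => E.root (z i))}) × Fin k,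
          (∏ i, E.w (p.1.1 i)) / ((rep A (fun i => E.root (p.1.1 i))).card : ℝ) / (k : ℝ) *
            ∑ q : Fin k × E.Λ, Real.sqrt (wt (R p.1.1 p.1.2.1 q.1 q.2 p.2)) := rfl
    rw [e1, Fintype.sum_prod_type, Fintype.sum_sigma, Finset.sum_div]
    refine Finset.sum_congr rfl fun z _ => ?_
    rw [Finset.sum_coe_sort (rep A (fun i => E.root (z i)))
      (fun y => ∑ j : Fin k, (∏ i, E.w (z i)) / ((rep A (fun i => E.root (z i))).card : ℝ) /
        (k : ℝ) * ∑ q : Fin k × E.Λ, Real.sqrt (wt (R z y q.1 q.2 j)))]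
    have h2 : ∀ y : Fin k → ℕ, ∑ j : Fin k, (∏ i, E.w (z i)) /
        ((rep A (fun i => E.root (z i))).card : ℝ) /
        (k : ℝ) * ∑ q : Fin k × E.Λ, Real.sqrt (wt (R z y q.1 q.2 j)) =
        (∏ i, E.w (z i)) / ((rep A (fun i => E.root (z i))).card : ℝ) / (k : ℝ) *
          ∑ i, ∑ l, ∑ j : Fin k, Real.sqrt (wt (R z y i l j)) := by
      intro y
      rw [← Finset.mul_sum, Finset.sum_comm, Fintype.sum_prod_type]
    rw [Finset.sum_congr rfl fun y _ => h2 y, ← Finset.mul_sum]
    ring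

end Pool.Agent.TH148.DC2347
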