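import Pool.Agent.TH625.GM.Props

set_option autoImplicit false

open Complex MeasureTheory
open UpperHalfPlane hiding I
open scoped Real MatrixGroups ModularForm

open Pool.Agent.TH625.GM

namespace Pool.Agent.TH148.J701

noncomputable section

/-- the growth condition on coefficients -/
def PG (d : ℕ → ℂ) : Prop := d 0 = 0 ∧ ∃ (C : ℝ) (k : ℕ), ∀ n : ℕ, ‖d n‖ ≤ C * (n : ℝ) ^ k

/-- shifted coefficients -/
def up (d : ℕ → ℂ) (n : ℕ) : ℂ := ((2 * π * n : ℝ) : ℂ) * d n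

theorem PG.up {d : ℕ → ℂ} (h : PG d) : PG (up d) := by
  obtain ⟨h0, C, k, hC⟩ := h
  refine ⟨by simp [J701.up], 2 * π * C, k + 1, fun n => ?_⟩
  unfold J701.up
  rw [norm_mul, Complex.norm_real, Real.norm_of_nonneg (by positivity)]
  have := mul_le_mul_of_nonneg_left (hC n) (by positivity : 0 ≤ 2 * π * (n : ℝ))
  calc 2 * π * (n : ℝ) * ‖d n‖ ≤ 2 * π * (n : ℝ) * (C * (n : ℝ) ^ k) := this
    _ = _ := by ring

/-- terms -/
def tm (d : ℕ → ℂ) (q j : ℕ) (t : ℝ) (n : ℕ) (p : ℝ × ℝ) : ℂ :=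
  ((Real.cos (2 * π * n * p.1 + q * (π / 2)) * KBj j t (2 * π * n * p.2) : ℝ) : ℂ) * d n

/-- the series -/
def S (d : ℕ → ℂ) (q j : ℕ) (t : ℝ) (p : ℝ × ℝ) : ℂ := ∑' n : ℕ, tm d q j t n p

theorem tm_bound (h : Bessel) {d : ℕ → ℂ} (hd : PG d) (q j : ℕ) (t y₀ : ℝ) (hy : 0 < y₀) :
    ∃ u : ℕ → ℝ, Summable u ∧ ∀ n (p : ℝ × ℝ), y₀ < p.2 → ‖tm d q j t n p‖ ≤ u n := by
  obtain ⟨h0, C, k, hC⟩ := hd
  obtain ⟨B, hB⟩ := h.bound j (2 * π * y₀) (by positivity)
  refine ⟨fun n => |B| * |C| * ((n : ℝ) ^ k * Real.exp (-((2 * π * y₀)) * n)), ?_, ?_⟩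
  · exact (Real.summable_pow_mul_exp_neg_nat_mul k (by positivity : 0 < 2 * π * y₀)).mul_left _
  · intro n p hp
    rcases Nat.eq_zero_or_pos n with hn | hn
    · subst hn
      have : tm d q j t 0 p = 0 := by unfold tm; rw [h0, mul_zero]
      rw [this, norm_zero]
      positivity
    · have hn1 : (1 : ℝ) ≤ n := by exact_mod_cast hn
      have hx : 2 * π * y₀ ≤ 2 * π * n * p.2 := by
        have h1 : 2 * π * y₀ ≤ 2 * π * p.2 := by
          have := hp.le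
          gcongr
        have h2 : 2 * π * p.2 * 1 ≤ 2 * π * p.2 * n := by
          have : 0 < p.2 := hy.trans hp
          gcongr
        nlinarith
      have hK := hB t _ hx
      unfold tm
      rw [norm_mul, Complex.norm_real, norm_mul, Real.norm_eq_abs, Real.norm_eq_abs]
      have hc : |Real.cos (2 * π * n * p.1 + q * (π / 2))| ≤ 1 := Real.abs_cos_le_one _
      have hcn : ‖d n‖ ≤ |C| * (n : ℝ) ^ k := (hC n).trans (by gcongr; exact le_abs_self C)
      have hK' : |KBj j t (2 * π * n * p.2)| ≤ |B| * Real.exp (-(2 * π * y₀) * n) := by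
        refine hK.trans ?_
        have he : Real.exp (-(2 * π * n * p.2)) ≤ Real.exp (-(2 * π * y₀) * n) := by
          apply Real.exp_le_exp.mpr
          have : 2 * π * n * y₀ ≤ 2 * π * n * p.2 := by
            have := hp.le
            gcongr
          nlinarith
        have := le_abs_self B
        have hpos := Real.exp_pos (-(2 * π * n * p.2))
        calc B * Real.exp (-(2 * π * n * p.2)) ≤ |B| * Real.exp (-(2 * π * n * p.2)) := by gcongr
          _ ≤ _ := by gcongr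
      calc |Real.cos (2 * π * n * p.1 + q * (π / 2))| * |KBj j t (2 * π * n * p.2)| * ‖d n‖
          ≤ 1 * (|B| * Real.exp (-(2 * π * y₀) * n)) * (|C| * (n : ℝ) ^ k) := by
            gcongr
        _ = _ := by ring

theorem tm_summable (h : Bessel) {d : ℕ → ℂ} (hd : PG d) (q j : ℕ) (t : ℝ) {p : ℝ × ℝ}
    (hp : 0 < p.2) : Summable (fun n => tm d q j t n p) := by
  obtain ⟨u, hu, hb⟩ := tm_bound h hd q j t (p.2 / 2) (by positivity)
  exact Summable.of_norm_bounded hu (fun n => hb n p (by linarith))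

/-- the Frechet derivative of one term -/
def tm' (d : ℕ → ℂ) (q j : ℕ) (t : ℝ) (n : ℕ) (p : ℝ × ℝ) : ℝ × ℝ →L[ℝ] ℂ :=
  (ContinuousLinearMap.fst ℝ ℝ ℝ).smulRight (tm (up d) (q + 1) j t n p) +
    (ContinuousLinearMap.snd ℝ ℝ ℝ).smulRight (tm (up d) q (j + 1) t n p)

theorem tm_hasFDerivAt (h : Bessel) {d : ℕ → ℂ} (hd : PG d) (q j : ℕ) (t : ℝ) (n : ℕ)
    {p : ℝ × ℝ} (hp : 0 < p.2) : HasFDerivAt (tm d q j t n) (tm' d q j t n p) p := by
  rcases Nat.eq_zero_or_pos n with hn | hn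
  · subst hn
    have e1 : tm d q j t 0 = fun _ => 0 := by
      funext p; unfold tm; rw [hd.1, mul_zero]
    have e2 : tm' d q j t 0 p = 0 := by
      unfold tm' tm up
      simp [hd.1]
    rw [e1, e2]
    exact hasFDerivAt_const _ _
  · have hn' : (0 : ℝ) < n := by exact_mod_cast hn
    have hc : HasDerivAt (fun x : ℝ => Real.cos (2 * π * n * x + q * (π / 2)))
        (2 * π * n * Real.cos (2 * π * n * p.1 + (q + 1 : ℕ) * (π / 2))) p.1 := by
      have h1 : HasDerivAt (fun x : ℝ => 2 * π * n * x + q * (π / 2)) (2 * π * n) p.1 := by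
        simpa using ((hasDerivAt_id p.1).const_mul (2 * π * n)).add_const (q * (π / 2))
      have h2 := h1.cos
      convert h2 using 1
      have : 2 * π * n * p.1 + ((q + 1 : ℕ) : ℝ) * (π / 2)
          = (2 * π * n * p.1 + q * (π / 2)) + π / 2 := by push_cast; ring
      rw [this, Real.cos_add_pi_div_two]
      ring
    have hk : HasDerivAt (fun y : ℝ => KBj j t (2 * π * n * y))
        (2 * π * n * KBj (j + 1) t (2 * π * n * p.2)) p.2 := by
      have h1 : HasDerivAt (fun x : ℝ => 2 * π * n * x) (2 * π * n) p.2 := by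
        simpa using ((hasDerivAt_id p.2).const_mul (2 * π * n))
      have h2 := (h.deriv j t (2 * π * n * p.2) (by positivity)).comp p.2 h1
      exact h2.congr_deriv (by ring)
    have hc' : HasFDerivAt (fun p : ℝ × ℝ => Real.cos (2 * π * n * p.1 + q * (π / 2)))
        ((2 * π * n * Real.cos (2 * π * n * p.1 + (q + 1 : ℕ) * (π / 2))) •
          ContinuousLinearMap.fst ℝ ℝ ℝ) p := by
      exact hc.comp_hasFDerivAt p hasFDerivAt_fst
    have hk' : HasFDerivAt (fun p : ℝ × ℝ => KBj j t (2 * π * n * p.2))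
        ((2 * π * n * KBj (j + 1) t (2 * π * n * p.2)) • ContinuousLinearMap.snd ℝ ℝ ℝ) p := by
      exact hk.comp_hasFDerivAt p hasFDerivAt_snd
    have hm := hc'.mul hk'
    have hof := (Complex.ofRealCLM.hasFDerivAt).comp p hm
    have hfin := hof.mul_const (d n)
    refine hfin.congr_fderiv ?_
    ext
    · unfold tm' tm up
      simp
      ring
    · unfold tm' tm up
      simp
      ring

/-- the upper half plane as a subset of the plane -/
def U : Set (ℝ × ℝ) := {p | 0 < p.2}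

theorem isOpen_U : IsOpen U := isOpen_lt continuous_const continuous_snd

theorem S_hasFDerivAt (h : Bessel) {d : ℕ → ℂ} (hd : PG d) (q j : ℕ) (t : ℝ)
    {p : ℝ × ℝ} (hp : 0 < p.2) : HasFDerivAt (S d q j t)
      ((ContinuousLinearMap.fst ℝ ℝ ℝ).smulRight (S (up d) (q + 1) j t p) +
        (ContinuousLinearMap.snd ℝ ℝ ℝ).smulRight (S (up d) q (j + 1) t p)) p := by
  obtain ⟨u1, hu1, hb1⟩ := tm_bound h hd.up (q + 1) j t (p.2 / 2) (by positivity)
  obtain ⟨u2, hu2, hb2⟩ := tm_bound h hd.up q (j + 1) t (p.2 / 2) (by positivity)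
  have hopen : IsOpen {r : ℝ × ℝ | p.2 / 2 < r.2} := isOpen_lt continuous_const continuous_snd
  have hconv : Convex ℝ {r : ℝ × ℝ | p.2 / 2 < r.2} := by
    have : {r : ℝ × ℝ | p.2 / 2 < r.2} = (ContinuousLinearMap.snd ℝ ℝ ℝ) ⁻¹' (Set.Ioi (p.2 / 2)) := by
      ext r; simp
    rw [this]
    exact (convex_Ioi _).linear_preimage (ContinuousLinearMap.snd ℝ ℝ ℝ).toLinearMap
  have hF := hasFDerivAt_tsum_of_isPreconnected (𝕜 := ℝ) (f := fun n r => tm d q j t n r)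
    (f' := fun n r => tm' d q j t n r) (u := fun n => u1 n + u2 n) (x := p) (x₀ := p)
    (hu1.add hu2) hopen hconv.isPreconnected
    (fun n r hr => tm_hasFDerivAt h hd q j t n (by
      have : p.2 / 2 < r.2 := hr
      linarith))
    (fun n r hr => by
      have hr' : p.2 / 2 < r.2 := hr
      refine (norm_add_le _ _).trans ?_
      have hf : ‖(ContinuousLinearMap.fst ℝ ℝ ℝ).smulRight (tm (up d) (q + 1) j t n r)‖ ≤ u1 n := by
        rw [ContinuousLinearMap.norm_smulRight_apply]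
        have h1 := ContinuousLinearMap.norm_fst_le ℝ ℝ ℝ
        calc _ ≤ 1 * ‖tm (up d) (q + 1) j t n r‖ := by gcongr
          _ ≤ _ := by rw [one_mul]; exact hb1 n r hr'
      have hs : ‖(ContinuousLinearMap.snd ℝ ℝ ℝ).smulRight (tm (up d) q (j + 1) t n r)‖ ≤ u2 n := by
        rw [ContinuousLinearMap.norm_smulRight_apply]
        have h1 := ContinuousLinearMap.norm_snd_le ℝ ℝ ℝ
        calc _ ≤ 1 * ‖tm (up d) q (j + 1) t n r‖ := by gcongr
          _ ≤ _ := by rw [one_mul]; exact hb2 n r hr'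
      linarith)
    (by show p.2 / 2 < p.2; linarith) (tm_summable h hd q j t hp)
    (by show p.2 / 2 < p.2; linarith)
  refine hF.congr_fderiv ?_
  have s1 := tm_summable h hd.up (q + 1) j t hp
  have s2 := tm_summable h hd.up q (j + 1) t hp
  have m1 := (ContinuousLinearMap.smulRightL ℝ (ℝ × ℝ) ℂ (ContinuousLinearMap.fst ℝ ℝ ℝ)).map_tsum s1
  have m2 := (ContinuousLinearMap.smulRightL ℝ (ℝ × ℝ) ℂ (ContinuousLinearMap.snd ℝ ℝ ℝ)).map_tsum s2
  have t1 := s1.mapL (ContinuousLinearMap.smulRightL ℝ (ℝ × ℝ) ℂ (ContinuousLinearMap.fst ℝ ℝ ℝ))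
  have t2 := s2.mapL (ContinuousLinearMap.smulRightL ℝ (ℝ × ℝ) ℂ (ContinuousLinearMap.snd ℝ ℝ ℝ))
  have hadd := t1.tsum_add t2
  rw [← m1, ← m2] at hadd
  exact hadd

theorem S_contDiffOn (h : Bessel) (t : ℝ) (m : ℕ) : ∀ (d : ℕ → ℂ), PG d → ∀ q j : ℕ,
    ContDiffOn ℝ m (S d q j t) U := by
  induction m with
  | zero =>
    intro d hd q j
    rw [Nat.cast_zero, contDiffOn_zero]
    intro p hp
    exact (S_hasFDerivAt h hd q j t hp).continuousAt.continuousWithinAt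
  | succ m ih =>
    intro d hd q j
    push_cast
    rw [contDiffOn_succ_iff_fderiv_of_isOpen isOpen_U]
    refine ⟨fun p hp => (S_hasFDerivAt h hd q j t hp).differentiableAt.differentiableWithinAt,
      by simp, ?_⟩
    have hc : ContDiffOn ℝ m (fun p =>
        ((ContinuousLinearMap.fst ℝ ℝ ℝ).smulRight (S (up d) (q + 1) j t p) +
        (ContinuousLinearMap.snd ℝ ℝ ℝ).smulRight (S (up d) q (j + 1) t p))) U := by
      have c1 := (ContinuousLinearMap.smulRightL ℝ (ℝ × ℝ) ℂ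
        (ContinuousLinearMap.fst ℝ ℝ ℝ)).contDiff.comp_contDiffOn (ih (up d) hd.up (q + 1) j)
      have c2 := (ContinuousLinearMap.smulRightL ℝ (ℝ × ℝ) ℂ
        (ContinuousLinearMap.snd ℝ ℝ ℝ)).contDiff.comp_contDiffOn (ih (up d) hd.up q (j + 1))
      exact c1.add c2
    exact hc.congr (fun p hp => (S_hasFDerivAt h hd q j t hp).fderiv)

theorem S_smooth (h : Bessel) (t : ℝ) {d : ℕ → ℂ} (hd : PG d) (q j : ℕ) :
    ContDiffOn ℝ (⊤ : ℕ∞) (S d q j t) U := by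
  rw [contDiffOn_infty]
  intro m
  exact S_contDiffOn h t m d hd q j

theorem pg_of {c : ℕ → ℂ} (h0 : c 0 = 0) {C : ℝ} (hC : ∀ n, ‖c n‖ ≤ C * n) : PG c :=
  ⟨h0, C, 1, fun n => by simpa using hC n⟩

theorem term_eq (h : Bessel) (c : ℕ → ℂ) (t x y : ℝ) (n : ℕ) :
    ((2 * Real.sqrt y * KB t (2 * π * n * y) * Real.cos (2 * π * n * x) : ℝ) : ℂ) * c n =
      ((2 * Real.sqrt y : ℝ) : ℂ) * tm c 0 0 t n (x, y) := by
  unfold tm
  rw [h.zero]
  simp
  ring

theorem Ser_eq (h : Bessel) (c : ℕ → ℂ) (t x y : ℝ) :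
    Ser c t x y = ((2 * Real.sqrt y : ℝ) : ℂ) * S c 0 0 t (x, y) := by
  unfold Ser S
  rw [← tsum_mul_left]
  exact tsum_congr (fun n => term_eq h c t x y n)

theorem smooth_summable (h : Bessel) : ∀ (c : ℕ → ℂ), c 0 = 0 → ∀ C : ℝ,
    (∀ n, ‖c n‖ ≤ C * n) → ∀ t x y : ℝ, 0 < y →
    Summable fun n : ℕ =>
      ((2 * Real.sqrt y * KB t (2 * π * n * y) * Real.cos (2 * π * n * x) : ℝ) : ℂ) * c n := by
  intro c h0 C hC t x y hy
  simp_rw [term_eq h]
  exact (tm_summable h (pg_of h0 hC) 0 0 t (p := (x, y)) hy).mul_left _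

theorem smooth_contDiff (h : Bessel) : ∀ (c : ℕ → ℂ), c 0 = 0 → ∀ C : ℝ,
    (∀ n, ‖c n‖ ≤ C * n) → ∀ t : ℝ,
    ContDiffOn ℝ (⊤ : ℕ∞) (fun p : ℝ × ℝ => Ser c t p.1 p.2) {p | 0 < p.2} := by
  intro c h0 C hC t
  have h1 := S_smooth h t (pg_of h0 hC) 0 0
  have h2 : ContDiffOn ℝ (⊤ : ℕ∞) (fun p : ℝ × ℝ => ((2 * Real.sqrt p.2 : ℝ) : ℂ)) U := by
    have : ContDiffOn ℝ (⊤ : ℕ∞) (fun p : ℝ × ℝ => (2 * Real.sqrt p.2 : ℝ)) U := by
      refine contDiffOn_const.mul ?_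
      intro p hp
      refine ContDiffAt.contDiffWithinAt ?_
      have hp' : p.2 ≠ 0 := ne_of_gt hp
      exact (Real.contDiffAt_sqrt hp').comp p contDiffAt_snd
    exact Complex.ofRealCLM.contDiff.comp_contDiffOn this
  have h3 := h2.mul h1
  refine h3.congr (fun p _ => ?_)
  exact Ser_eq h c t p.1 p.2

theorem S_deriv_x (h : Bessel) {d : ℕ → ℂ} (hd : PG d) (q j : ℕ) (t x : ℝ) {y : ℝ} (hy : 0 < y) :
    HasDerivAt (fun u : ℝ => S d q j t (u, y)) (S (up d) (q + 1) j t (x, y)) x := by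
  have h1 := S_hasFDerivAt h hd q j t (p := (x, y)) hy
  have h2 : HasDerivAt (fun u : ℝ => (u, y)) ((1 : ℝ), (0 : ℝ)) x :=
    (hasDerivAt_id x).prodMk (hasDerivAt_const x y)
  have h3 := h1.comp_hasDerivAt x h2
  exact h3.congr_deriv (by simp)

theorem S_deriv_y (h : Bessel) {d : ℕ → ℂ} (hd : PG d) (q j : ℕ) (t x : ℝ) {y : ℝ} (hy : 0 < y) :
    HasDerivAt (fun v : ℝ => S d q j t (x, v)) (S (up d) q (j + 1) t (x, y)) y := by
  have h1 := S_hasFDerivAt h hd q j t (p := (x, y)) hy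
  have h2 : HasDerivAt (fun v : ℝ => (x, v)) ((0 : ℝ), (1 : ℝ)) y :=
    (hasDerivAt_const y x).prodMk (hasDerivAt_id y)
  have h3 := h1.comp_hasDerivAt y h2
  exact h3.congr_deriv (by simp)

theorem sqrt_deriv {y : ℝ} (hy : 0 < y) :
    HasDerivAt (fun v : ℝ => ((2 * Real.sqrt v : ℝ) : ℂ)) ((1 / Real.sqrt y : ℝ) : ℂ) y := by
  have h1 : HasDerivAt (fun v : ℝ => 2 * Real.sqrt v) (1 / Real.sqrt y) y := by
    have := (Real.hasDerivAt_sqrt hy.ne').const_mul 2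
    refine this.congr_deriv ?_
    have : Real.sqrt y ≠ 0 := (Real.sqrt_pos.mpr hy).ne'
    field_simp
  exact h1.ofReal_comp

theorem inv_sqrt_deriv {y : ℝ} (hy : 0 < y) :
    HasDerivAt (fun v : ℝ => ((1 / Real.sqrt v : ℝ) : ℂ))
      ((-(1 / (2 * y * Real.sqrt y)) : ℝ) : ℂ) y := by
  have h1 : HasDerivAt (fun v : ℝ => 1 / Real.sqrt v) (-(1 / (2 * y * Real.sqrt y))) y := by
    have hs : Real.sqrt y ≠ 0 := (Real.sqrt_pos.mpr hy).ne'
    have := (Real.hasDerivAt_sqrt hy.ne').inv hs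
    simp_rw [one_div]
    refine this.congr_deriv ?_
    have hsq : Real.sqrt y ^ 2 = y := Real.sq_sqrt hy.le
    field_simp
    rw [hsq]
  exact h1.ofReal_comp

theorem ode_term (h : Bessel) (c : ℕ → ℂ) (t x : ℝ) {y : ℝ} (hy : 0 < y) (h0 : c 0 = 0) (n : ℕ) :
    (y : ℂ) ^ 2 * tm (up (up c)) 2 0 t n (x, y) + (y : ℂ) * tm (up c) 0 1 t n (x, y) +
      (y : ℂ) ^ 2 * tm (up (up c)) 0 2 t n (x, y) = -((t ^ 2 : ℝ) : ℂ) * tm c 0 0 t n (x, y) := by
  rcases Nat.eq_zero_or_pos n with hn | hn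
  · subst hn
    unfold tm up
    simp [h0]
  · have hn' : (0 : ℝ) < n := by exact_mod_cast hn
    have ho := h.ode t (2 * π * n * y) (by positivity)
    have hcos : Real.cos (2 * π * n * x + (2 : ℕ) * (π / 2)) = - Real.cos (2 * π * n * x) := by
      have : 2 * π * n * x + ((2 : ℕ) : ℝ) * (π / 2) = 2 * π * n * x + π := by push_cast; ring
      rw [this, Real.cos_add_pi]
    have hcos0 : Real.cos (2 * π * n * x + (0 : ℕ) * (π / 2)) = Real.cos (2 * π * n * x) := by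
      simp
    unfold tm up
    simp only [hcos, hcos0]
    have ho' : ((2 * π * n * y : ℝ) : ℂ) ^ 2 * (KBj 2 t (2 * π * n * y) : ℂ) +
        ((2 * π * n * y : ℝ) : ℂ) * (KBj 1 t (2 * π * n * y) : ℂ) =
        (((2 * π * n * y : ℝ) : ℂ) ^ 2 - ((t : ℝ) : ℂ) ^ 2) * (KBj 0 t (2 * π * n * y) : ℂ) := by
      exact_mod_cast ho
    push_cast at ho' ⊢
    linear_combination (Complex.cos (2 * π * n * x) * c n) * ho'

theorem smooth_eigen (h : Bessel) : ∀ (c : ℕ → ℂ), c 0 = 0 → ∀ C : ℝ,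
    (∀ n, ‖c n‖ ≤ C * n) → ∀ t x y : ℝ, 0 < y →
    y ^ 2 * (iteratedDeriv 2 (fun u : ℝ => Ser c t u y) x +
      iteratedDeriv 2 (fun v : ℝ => Ser c t x v) y) =
      -(1 / 4 + t ^ 2 : ℝ) * Ser c t x y := by
  intro c h0 C hC t x y hy
  have hc := pg_of h0 hC
  -- x derivatives
  have hx1 : (fun u : ℝ => Ser c t u y) =
      fun u => ((2 * Real.sqrt y : ℝ) : ℂ) * S c 0 0 t (u, y) := by
    funext u; exact Ser_eq h c t u y
  have hxx : iteratedDeriv 2 (fun u : ℝ => Ser c t u y) x =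
      ((2 * Real.sqrt y : ℝ) : ℂ) * S (up (up c)) 2 0 t (x, y) := by
    rw [hx1, iteratedDeriv_succ, iteratedDeriv_one]
    have hd1 : deriv (fun u => ((2 * Real.sqrt y : ℝ) : ℂ) * S c 0 0 t (u, y)) =
        fun u => ((2 * Real.sqrt y : ℝ) : ℂ) * S (up c) 1 0 t (u, y) := by
      funext u
      exact ((S_deriv_x h hc 0 0 t u hy).const_mul _).deriv
    rw [hd1]
    exact ((S_deriv_x h hc.up 1 0 t x hy).const_mul _).deriv
  -- y derivatives
  have hy1 : (fun v : ℝ => Ser c t x v) =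
      fun v => ((2 * Real.sqrt v : ℝ) : ℂ) * S c 0 0 t (x, v) := by
    funext v; exact Ser_eq h c t x v
  have hyy : iteratedDeriv 2 (fun v : ℝ => Ser c t x v) y =
      ((-(1 / (2 * y * Real.sqrt y)) : ℝ) : ℂ) * S c 0 0 t (x, y) +
      2 * (((1 / Real.sqrt y : ℝ) : ℂ) * S (up c) 0 1 t (x, y)) +
      ((2 * Real.sqrt y : ℝ) : ℂ) * S (up (up c)) 0 2 t (x, y) := by
    rw [hy1, iteratedDeriv_succ, iteratedDeriv_one]
    have hev : deriv (fun v => ((2 * Real.sqrt v : ℝ) : ℂ) * S c 0 0 t (x, v)) =ᶠ[nhds y]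
        fun v => ((1 / Real.sqrt v : ℝ) : ℂ) * S c 0 0 t (x, v) +
          ((2 * Real.sqrt v : ℝ) : ℂ) * S (up c) 0 1 t (x, v) := by
      filter_upwards [lt_mem_nhds hy] with v hv
      exact ((sqrt_deriv hv).mul (S_deriv_y h hc 0 0 t x hv)).deriv
    rw [hev.deriv_eq]
    have hd := ((inv_sqrt_deriv hy).mul (S_deriv_y h hc 0 0 t x hy)).add
      ((sqrt_deriv hy).mul (S_deriv_y h hc.up 0 1 t x hy))
    refine hd.deriv.trans ?_
    ring
  rw [hxx, hyy, Ser_eq h c t x y]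
  have s1 := (tm_summable h hc.up.up 2 0 t (p := (x, y)) hy).mul_left ((y : ℂ) ^ 2)
  have s2 := (tm_summable h hc.up 0 1 t (p := (x, y)) hy).mul_left (y : ℂ)
  have s3 := (tm_summable h hc.up.up 0 2 t (p := (x, y)) hy).mul_left ((y : ℂ) ^ 2)
  have hode : (y : ℂ) ^ 2 * S (up (up c)) 2 0 t (x, y) + (y : ℂ) * S (up c) 0 1 t (x, y) +
      (y : ℂ) ^ 2 * S (up (up c)) 0 2 t (x, y) = -((t ^ 2 : ℝ) : ℂ) * S c 0 0 t (x, y) := by
    unfold S
    rw [← tsum_mul_left, ← tsum_mul_left, ← tsum_mul_left, ← tsum_mul_left, ← s1.tsum_add s2,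
      ← (s1.add s2).tsum_add s3]
    exact tsum_congr (fun n => ode_term h c t x hy h0 n)
  have hs : Real.sqrt y ≠ 0 := (Real.sqrt_pos.mpr hy).ne'
  have hsC : ((Real.sqrt y : ℝ) : ℂ) ≠ 0 := by exact_mod_cast hs
  have hyC : (y : ℂ) ≠ 0 := by exact_mod_cast hy.ne'
  have hsq : ((Real.sqrt y : ℝ) : ℂ) ^ 2 = (y : ℂ) := by
    have := Real.sq_sqrt hy.le
    exact_mod_cast this
  set s := ((Real.sqrt y : ℝ) : ℂ) with hs_def
  have e1 : ((-(1 / (2 * y * Real.sqrt y)) : ℝ) : ℂ) = -(1 / (2 * (y : ℂ) * s)) := by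
    push_cast; rfl
  have e2 : ((1 / Real.sqrt y : ℝ) : ℂ) = 1 / s := by push_cast; rfl
  have e3 : ((2 * Real.sqrt y : ℝ) : ℂ) = 2 * s := by push_cast; rfl
  rw [e1, e2, e3]
  have e4 : ((-(1 / 4 + t ^ 2) : ℝ) : ℂ) = -(1 / 4 + (t : ℂ) ^ 2) := by push_cast; rfl
  have hode' : (y : ℂ) ^ 2 * S (up (up c)) 2 0 t (x, y) + (y : ℂ) * S (up c) 0 1 t (x, y) +
      (y : ℂ) ^ 2 * S (up (up c)) 0 2 t (x, y) = -((t : ℂ) ^ 2) * S c 0 0 t (x, y) := by
    rw [hode]; push_cast; rfl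
  push_cast
  set A := S (up (up c)) 2 0 t (x, y)
  set B := S (up c) 0 1 t (x, y)
  set D := S (up (up c)) 0 2 t (x, y)
  set F := S c 0 0 t (x, y)
  have k1 : (y : ℂ) ^ 2 * (1 / (2 * (y : ℂ) * s)) = s / 2 := by
    rw [← hsq]; field_simp
  have k2 : (y : ℂ) ^ 2 * (1 / s) = y * s := by
    rw [← hsq]; field_simp
  linear_combination (2 * s) * hode' - F * k1 + 2 * B * k2

theorem smooth (h : Bessel) : Smooth :=
  ⟨smooth_summable h, smooth_contDiff h, smooth_eigen h⟩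

end

end Pool.Agent.TH148.J701
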