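import Pool.Agent.TH806.LM.Defs
import Pool.Agent.TH112.LK_Core
import Pool.Agent.TH986.LK_B
import Pool.Agent.TH328.LK_ALG
import Pool.Agent.TH328.LK_PRD
import Pool.Agent.TH811.LK_LOC
import Pool.Agent.TH364.LK_LAW
import Pool.Agent.TH626.LK_AV0
import Pool.Agent.TH838.LK.AV2

set_option autoImplicit false

/-! Job LM V (helper806): mean squares, large values of one block and the twisted second moment, without the
localising Fourier factor. -/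

namespace Pool.Agent.TH148.LM_V

open Finset Filter Topology MeasureTheory
open Pool.Agent.W184.NZ
open Pool.Agent.TH806
open Pool.Agent.TH806.LK
open Pool.Agent.TH806.LM
open Pool.Agent.TH112.LKC
open Pool.Agent.H306R2.SM (om cl Yf)
open Pool.Agent.H262R4.TM (Rng Ck)

theorem a_ALG : P_ALG := Pool.Agent.TH328.LK_ALG.t_ALG
theorem a_LAW : P_LAW := Pool.Agent.TH364.LK_LAW.t_LAW Pool.Agent.TH328.LK_ALG.t_WF
theorem a_PRD : P_PRD := Pool.Agent.TH328.LK_PRD.t_PRD Pool.Agent.TH811.LK_LOC.t_LOC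

/-! ### the factors at `θ = 0` -/

theorem NC_zero (K : ℕ) (z : ℂ) : NC K 0 z = 1 := by
  unfold NC
  rw [sum_range_succ']
  simp

theorem pf_zero (K : ℕ) (z : ℂ) : pf K 0 z = 1 := by
  unfold pf
  simp [NC_zero]

theorem BF_zero (K : ℕ) (a : ℝ) (z : ℂ) : LK.BF K a a 0 0 z = ((‖NC K a z‖ ^ 2 : ℝ) : ℂ) := by
  unfold LK.BF
  rw [pf_zero, ← Pool.Agent.TH986.LK_B.NC_conj_real, Complex.mul_conj']
  push_cast
  ring

theorem AZ_sq (n Rs J : ℕ) (a : ℝ) (z : ℕ → ℂ) :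
    ((‖AZ n Rs J a z‖ ^ 2 : ℝ) : ℂ) = ∏ i ∈ range J, LK.BF (KK n Rs i) a a 0 0 (z i) := by
  simp_rw [BF_zero]
  rw [← Complex.ofReal_prod, prod_pow]
  unfold AZ
  rw [norm_prod]

theorem BF_one (K : ℕ) (z : ℂ) : LK.BF K (0 : ℝ) (0 : ℝ) 0 0 z = 1 := by
  rw [BF_zero]
  simp [NC_zero]

theorem BB_one (K R : ℕ) (z : ℂ) : BB K R (0 : ℝ) 0 0 z = (((‖z‖ / R) ^ (2 * R) : ℝ) : ℂ) := by
  unfold BB
  rw [BF_one, one_mul]

theorem prod_GG (n Rs J : ℕ) (z : ℕ → ℂ) {i₀ : ℕ} (hi₀ : i₀ < J) :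
    (((‖z i₀‖ / RR Rs i₀) ^ (2 * RR Rs i₀) : ℝ) : ℂ) =
      ∏ i ∈ range J, GG 0 (KK n Rs) (RR Rs) 0 i₀ i 0 0 (z i) := by
  rw [← mul_prod_erase (range J) _ (mem_range.mpr hi₀)]
  have e1 : ∏ i ∈ (range J).erase i₀, GG 0 (KK n Rs) (RR Rs) 0 i₀ i 0 0 (z i) = 1 := by
    refine prod_eq_one fun i hi => ?_
    simp only [GG, (mem_erase.mp hi).1, if_false, BF_one]
  rw [e1, mul_one]
  simp only [GG, if_true, BB_one]

theorem core0 (n : ℕ) (c : ℝ) (hn : 1 ≤ n) (hc : 0 ≤ c) :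
    ∃ (P₀ : ℕ) (C : ℝ), 0 < C ∧ ∀ Rs : ℕ, 1 ≤ Rs → ∀ᶠ T : ℝ in atTop, ∀ κ : ℕ, Rng T κ →
      ∀ (y : ℝ) (J : ℕ) (I : ℕ → Finset ℕ), Cfg c 1 P₀ y J I →
        n * ((Rs:ℝ) + 1) * Real.log y ≤ 1 / 32000 * Real.log T → ∀ a : ℝ, |a| ≤ n →
          (∀ s : ℝ, 0 ≤ s → T ^ (-(1 / 2) : ℝ) ≤ WW s (VV I J) ∧
            ∀ i < J, T ^ (-(1 / 2) : ℝ) ≤ Real.exp (-(RR Rs i : ℝ)) * WW s (VV I J)) ∧
          ‖∫ t in Set.Ioi (0:ℝ), ((om κ (κ / T) t : ℝ) : ℂ) *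
            ∏ i ∈ range J, GG 0 (KK n Rs) (RR Rs) a J i 0 0 (zz I t i)‖ ≤
              C * Real.exp (a ^ 2 * VV I J) + T ^ (-(1 / 2) : ℝ) ∧
          ∀ i₀ < J, ‖∫ t in Set.Ioi (0:ℝ), ((om κ (κ / T) t : ℝ) : ℂ) *
            ∏ i ∈ range J, GG 0 (KK n Rs) (RR Rs) a i₀ i 0 0 (zz I t i)‖ ≤
              C * Real.exp (-(RR Rs i₀ : ℝ)) * Real.exp (a ^ 2 * VV I J) + T ^ (-(1 / 2) : ℝ) := by
  have hA := a_ALG
  have hL := a_LAW
  have hP := a_PRD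
  have hG := Pool.Agent.TH626.LK_AV0.t_AV0
  have hQ : (1:ℝ) ≤ 8 * n + 8 := by
    have : (0:ℝ) ≤ n := Nat.cast_nonneg n
    linarith
  obtain ⟨P₀, C, hP₀, hC1, hL⟩ := hL (8 * n + 8) hQ
  obtain ⟨C₃, hC₃, e₀, he₀, R₀, hP⟩ := hP n c C hn hc
  refine ⟨P₀, C₃, hC₃, fun Rs hRs => ?_⟩
  filter_upwards [hG, err_ev c hc Rs, eventually_gt_atTop (1:ℝ)] with T hG herr hT κ hκ y J I hC hlen a ha
  have hν : ∀ i, ∃ ν, LW w0 0 0 (8 * n + 8) C (I i) ν := fun i =>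
    (hL (I i) fun p hp => ⟨(hC.rg.pr i p hp).1, hC.P i p hp⟩).1
  choose ν hν using hν
  have hlog : 0 < Real.log T := Real.log_pos hT
  have hy1 : 1 ≤ y := by linarith [hC.y1]
  have hly0 : 0 ≤ Real.log y := Real.log_nonneg hy1
  have hn1 : (1:ℝ) ≤ n := by exact_mod_cast hn
  have hRs0 : (0:ℝ) ≤ Rs := Nat.cast_nonneg _
  have hly : Real.log y ≤ Real.log T := by
    have e1 : 1 * Real.log y ≤ n * ((Rs:ℝ) + 1) * Real.log y := by
      refine mul_le_mul_of_nonneg_right ?_ hly0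
      nlinarith
    linarith
  have h0m : (0:ℝ) ∈ Set.Icc (-1:ℝ) 1 := ⟨by norm_num, by norm_num⟩
  have main : ∀ (i₀ : ℕ) (M : ℝ),
      ∏ i ∈ range J, ‖∫ q, q.2 * GG 0 (KK n Rs) (RR Rs) a i₀ i 0 0 q.1 ∂(ν i)‖ ≤ M →
      ‖∫ t in Set.Ioi (0:ℝ), ((om κ (κ / T) t : ℝ) : ℂ) *
            ∏ i ∈ range J, GG 0 (KK n Rs) (RR Rs) a i₀ i 0 0 (zz I t i)‖ ≤ M + T ^ (-(1 / 2) : ℝ) := by
    intro i₀ M hprod
    have h1 := hG κ hκ c (8 * n + 8) C J I (bb y) (fun i => 4 * KK n Rs i)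
      (fun i => GG 0 (KK n Rs) (RR Rs) a i₀ i 0 0) ν hC.rg (fun i _ => hν i) (fun i _ => by
        have h2 := GG_PB hA hn hRs ha 0 i₀ i h0m h0m
        refine ⟨?_, h2.1, h2.2⟩
        have : 1 * 1 ≤ n * RR Rs i := Nat.mul_le_mul hn (by unfold RR; omega)
        unfold KK
        nlinarith) (len_le hy1 J hlen)
    rw [← norm_prod] at hprod
    have h3 := norm_le_norm_add_norm_sub' (∫ t in Set.Ioi (0:ℝ), ((om κ (κ / T) t : ℝ) : ℂ) *
            ∏ i ∈ range J, GG 0 (KK n Rs) (RR Rs) a i₀ i 0 0 (zz I t i))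
      (∏ i ∈ range J, ∫ q, q.2 * GG 0 (KK n Rs) (RR Rs) a i₀ i 0 0 q.1 ∂(ν i))
    linarith
  have hP1 := (hP J Rs I (bb y) ν hC.rg hRs).1 w0 0 le_rfl zero_le_one (fun i _ => hν i) a 0 0 ha
    (by norm_num) (by norm_num)
  have hE : (2 * 0 * a + a ^ 2 - ((0:ℝ) + 0) ^ 2 / 4) * VV I J = a ^ 2 * VV I J := by ring
  rw [hE] at hP1
  refine ⟨herr y J I 1 P₀ hC hly, ?_, ?_⟩
  · refine main J _ (le_trans (le_of_eq ?_) hP1.1)
    refine prod_congr rfl fun i hi => ?_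
    have hne : i ≠ J := (mem_range.mp hi).ne
    simp only [GG, hne, if_false]
  · intro i₀ hi₀
    refine main i₀ _ ?_
    obtain ⟨-, h5, -⟩ := hP1.2 i₀ hi₀
    have e1 : ∏ i ∈ (range J).erase i₀, ‖∫ q, q.2 * GG 0 (KK n Rs) (RR Rs) a i₀ i 0 0 q.1 ∂(ν i)‖ =
        ∏ i ∈ (range J).erase i₀, ‖∫ q, q.2 * LK.BF (KK n Rs i) a a 0 0 q.1 ∂(ν i)‖ := by
      refine prod_congr rfl fun i hi => ?_
      simp only [GG, (mem_erase.mp hi).1, if_false]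
    rw [← mul_prod_erase (range J) _ (mem_range.mpr hi₀), e1]
    simp only [GG, if_true]
    refine h5.trans (le_of_eq ?_)
    ring

theorem WW_le_exp {s V : ℝ} (hV : 0 ≤ V) : WW s V ≤ Real.exp (s * V) := by
  unfold WW
  have h1 : (1 + V) ^ (-(1 / 2) : ℝ) ≤ 1 := Real.rpow_le_one_of_one_le_of_nonpos (by linarith) (by norm_num)
  calc (1 + V) ^ (-(1 / 2) : ℝ) * Real.exp (s * V) ≤ 1 * Real.exp (s * V) :=
        mul_le_mul_of_nonneg_right h1 (Real.exp_pos _).le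
    _ = _ := one_mul _

theorem t_V1 : Pool.Agent.TH806.LM.P_V1 := by
  intro n c hn hc
  obtain ⟨P₀, C, hC, h⟩ := core0 n c hn hc
  refine ⟨P₀, C + 1, 1 / 32000, by positivity, by norm_num, fun Rs hRs => ?_⟩
  filter_upwards [h Rs hRs] with T hT κ hκ y J I hCfg hlen a ha
  obtain ⟨he, h1, -⟩ := hT κ hκ y J I hCfg hlen a ha
  have h2 : ∫ t in Set.Ioi (0:ℝ), om κ (κ / T) t * ‖AZ n Rs J a (zz I t)‖ ^ 2 ≤
      C * Real.exp (a ^ 2 * VV I J) + T ^ (-(1 / 2) : ℝ) := by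
    refine real_bound (σ := 1) (by simp)
      (W := fun t => ∏ i ∈ range J, GG 0 (KK n Rs) (RR Rs) a J i 0 0 (zz I t i)) (fun t => ?_) h1
    rw [AZ_sq]
    push_cast
    rw [one_mul]
    refine prod_congr rfl fun i hi => ?_
    have hne : i ≠ J := (mem_range.mp hi).ne
    simp only [GG, hne, if_false]
  have h3 := ((he (a ^ 2) (sq_nonneg a)).1).trans (WW_le_exp (Pool.Agent.TH986.LK_B.VV_nonneg I J))
  linarith

theorem t_V3 : Pool.Agent.TH806.LM.P_V3 := by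
  intro n c hn hc
  obtain ⟨P₀, C, hC, h⟩ := core0 n c hn hc
  refine ⟨P₀, C + 1, 1 / 32000, by positivity, by norm_num, fun Rs hRs => ?_⟩
  filter_upwards [h Rs hRs] with T hT κ hκ y J I hCfg hlen i hi
  have h0n : |(0:ℝ)| ≤ n := by rw [abs_zero]; exact Nat.cast_nonneg n
  obtain ⟨he, -, h1⟩ := hT κ hκ y J I hCfg hlen 0 h0n
  have h2 : ∫ t in Set.Ioi (0:ℝ), om κ (κ / T) t * (‖zz I t i‖ / RR Rs i) ^ (2 * RR Rs i) ≤
      C * Real.exp (-(RR Rs i : ℝ)) * Real.exp (0 ^ 2 * VV I J) + T ^ (-(1 / 2) : ℝ) := by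
    refine real_bound (σ := 1) (by simp)
      (W := fun t => ∏ j ∈ range J, GG 0 (KK n Rs) (RR Rs) 0 i j 0 0 (zz I t j)) (fun t => ?_) (h1 i hi)
    rw [prod_GG n Rs J (zz I t) hi]
    push_cast
    rw [one_mul]
  have h3 := (he 0 le_rfl).2 i hi
  have h4 : WW 0 (VV I J) ≤ 1 := by
    have := WW_le_exp (s := 0) (Pool.Agent.TH986.LK_B.VV_nonneg I J)
    simpa using this
  have h5 : Real.exp (-(RR Rs i : ℝ)) * WW 0 (VV I J) ≤ Real.exp (-(RR Rs i : ℝ)) * 1 :=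
    mul_le_mul_of_nonneg_left h4 (Real.exp_pos _).le
  have h6 : Real.exp ((0:ℝ) ^ 2 * VV I J) = 1 := by norm_num
  rw [h6] at h2
  linarith

theorem t_V4 : Pool.Agent.TH806.LM.P_V4 := by
  intro n c hn hc
  have hn0 : (1:ℝ) ≤ n := by exact_mod_cast hn
  obtain ⟨P₀, C, hP144, hC1, hLaw⟩ := a_LAW (8 * n + 8) (by linarith)
  obtain ⟨C₃, hC3, e₀, he0, R₀, hprd⟩ := a_PRD n c C hn hc
  obtain ⟨η₀, hη0, hη1, hav⟩ := Pool.Agent.TH838.LK.t_AV2
  obtain ⟨C₂, hC2, hav⟩ := hav c (8 * n + 8) C (n + 1) hc (by linarith) (by linarith)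
  refine ⟨P₀, 2 * C₂ * C₃ + 1, η₀ / 240, by positivity, by positivity, fun Rs hRs => ?_⟩
  filter_upwards [hav, Pool.Agent.TH986.LK_B.small hη0 (show 0 < Real.exp (-c) by positivity),
    Real.tendsto_log_atTop.eventually_gt_atTop 1, eventually_gt_atTop (3:ℝ)]
    with T hT hsm hLT hT3 κ hκ y J I hCfg hlen a ha
  have hI : ∀ i, ∀ p ∈ I i, p.Prime := fun i p hp => (hCfg.rg.pr i p hp).1
  have hIP : ∀ i, ∀ p ∈ I i, p.Prime ∧ P₀ ≤ p := fun i p hp => ⟨hI i p hp, hCfg.P i p hp⟩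
  choose ν hν using fun i => (hLaw (I i) (hIP i)).2.1
  have hT0 : 0 < T := by linarith
  have hL0 : 0 < Real.log T := by linarith
  have hV0 : 0 ≤ VV I J := Pool.Agent.TH986.LK_B.VV_nonneg I J
  have hVl : VV I J ≤ Real.log (Real.log T) + c :=
    Pool.Agent.TH986.LK_B.VV_le hCfg hn (by positivity) (by linarith) hLT hlen
  have hlen2 : ∑ i ∈ range J, ((3 * KK n Rs i : ℕ) : ℝ) * Real.log (bb y i) ≤ η₀ * Real.log T := by
    refine (Pool.Agent.TH986.LK_B.len_le (by linarith [hCfg.y1]) n Rs J).trans ?_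
    linarith
  have hs : -1 ≤ 2 * a + a ^ 2 := by nlinarith [sq_nonneg (a + 1)]
  have hA := a_ALG
  have hb := hT κ hκ J I (bb y) (fun i => 3 * KK n Rs i) (fun i => LK.BF (KK n Rs i) a a 0 0) ν hCfg.rg
    (fun i _ => hν i) (fun i _ => by
      have hKn : n + 1 ≤ KK n Rs i := by
        unfold KK RR
        nlinarith [Nat.zero_le i, Nat.zero_le (n * i), Nat.mul_le_mul hn hRs]
      obtain ⟨q1, _, _, q4, _, _⟩ := hA.2.2.2 n (KK n Rs i) 1 a a 0 0 hn hKn le_rfl ha ha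
        (by norm_num) (by norm_num)
      refine ⟨by omega, ?_, q1, q4⟩
      have : ((n + 1 : ℕ) : ℝ) ≤ KK n Rs i := by exact_mod_cast hKn
      push_cast at this ⊢
      linarith) hlen2
  have hpr := (hprd J Rs I (bb y) ν hCfg.rg hRs).1 w1 1 zero_le_one le_rfl (fun i _ => hν i) a 0 0 ha
    (by norm_num) (by norm_num)
  have hEE : (2 * 1 * a + a ^ 2 - ((0:ℝ) + 0) ^ 2 / 4) * VV I J = (2 * a + a ^ 2) * VV I J := by ring
  rw [hEE] at hpr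
  set E := Real.exp ((2 * a + a ^ 2) * VV I J) with hE
  have hE0 : 0 < E := Real.exp_pos _
  have hin : ‖∫ t in Set.Ioi (0:ℝ), ((wz κ T t : ℝ) : ℂ) *
      ∏ i ∈ range J, LK.BF (KK n Rs i) a a 0 0 (zz I t i)‖ ≤ 2 * C₂ * C₃ * Real.log T * E + T ^ (-η₀) := by
    refine hb.trans (add_le_add_left ?_ _)
    have e1 : Real.log T * ∏ i ∈ range J, ‖∫ q, q.2 * LK.BF (KK n Rs i) a a 0 0 q.1 ∂(ν i)‖ ≤
        Real.log T * (C₃ * E) := mul_le_mul_of_nonneg_left hpr.1 hL0.le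
    have e2 : ∑ i ∈ range J, ((3 * KK n Rs i : ℕ) : ℝ) * Real.log (bb y i) *
          ∏ j ∈ (range J).erase i, ‖∫ q, q.2 * LK.BF (KK n Rs j) a a 0 0 q.1 ∂(ν j)‖ ≤
        Real.log T * (C₃ * E) := by
      calc _ ≤ ∑ i ∈ range J, ((3 * KK n Rs i : ℕ) : ℝ) * Real.log (bb y i) * (C₃ * E) := by
            refine sum_le_sum fun i hi => ?_
            rw [mem_range] at hi
            refine mul_le_mul_of_nonneg_left (hpr.2 i hi).1 ?_
            have hb1 : 0 ≤ Real.log (bb y i) := Real.log_nonneg (by linarith [hCfg.rg.b10 i hi])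
            positivity
        _ = (∑ i ∈ range J, ((3 * KK n Rs i : ℕ) : ℝ) * Real.log (bb y i)) * (C₃ * E) := by rw [sum_mul]
        _ ≤ (η₀ * Real.log T) * (C₃ * E) := mul_le_mul_of_nonneg_right hlen2 (by positivity)
        _ ≤ (1 * Real.log T) * (C₃ * E) := by
            refine mul_le_mul_of_nonneg_right (mul_le_mul_of_nonneg_right (by linarith) hL0.le) (by positivity)
        _ = _ := by ring
    calc _ ≤ C₂ * (Real.log T * (C₃ * E) + Real.log T * (C₃ * E)) :=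
          mul_le_mul_of_nonneg_left (add_le_add e1 e2) hC2.le
      _ = _ := by ring
  have hre : ∫ t in Set.Ioi (0:ℝ), wz κ T t * ‖AZ n Rs J a (zz I t)‖ ^ 2 ≤
      2 * C₂ * C₃ * Real.log T * E + T ^ (-η₀) := by
    refine le_trans (le_abs_self _) ?_
    rw [← Real.norm_eq_abs, ← Complex.norm_real]
    refine le_trans (le_of_eq ?_) hin
    congr 1
    rw [← integral_complex_ofReal]
    refine integral_congr_ae (Eventually.of_forall fun t => ?_)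
    simp only
    rw [Complex.ofReal_mul, AZ_sq]
  have h5 : T ^ (-η₀) ≤ Real.log T * E := by
    have e1 := Pool.Agent.TH986.LK_B.exp_negV hL0 hVl
    have e2 : Real.exp (-VV I J) ≤ E := Real.exp_le_exp.mpr (by nlinarith)
    have e3 : Real.exp (-c) / Real.log T ≤ 1 * E := by rw [one_mul]; exact e1.trans e2
    calc T ^ (-η₀) ≤ Real.exp (-c) / Real.log T := hsm
      _ ≤ 1 * E := e3
      _ ≤ Real.log T * E := mul_le_mul_of_nonneg_right hLT.le hE0.le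
  calc _ ≤ _ := hre
    _ ≤ 2 * C₂ * C₃ * Real.log T * E + Real.log T * E := by linarith
    _ = _ := by ring

end Pool.Agent.TH148.LM_V
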